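import Pool.Agent.H.MP_374efc_lc.CD.St5c

/-!
# Step 3: J is a unit
-/

namespace Cdm

variable {n : ℕ}

theorem st5d_sub_nonneg {Θ : Lam n →+ ℤ} {r : RR n} (hr : Su {v | 0 < Θ v} (r - 1)) :
    Su {v | 0 ≤ Θ v} r := by
  have h1 : Su {v | 0 ≤ Θ v} (r - 1) := fun v hv => le_of_lt (show 0 < Θ v from hr v hv)
  have h2 : Su {v | 0 ≤ Θ v} (1 : RR n) := Su_one (by simp)
  have h3 := Su_add h1 h2
  rwa [sub_add_cancel] at h3

theorem st5d_pt_pow {Θ : Lam n →+ ℤ} {r : RR n} (hr : Su {v | 0 < Θ v} (r - 1)) (m : ℕ) :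
    Su {v | 0 ≤ Θ v} (r ^ m) ∧ pt Θ (r ^ m) = 1 := by
  have h0 := st5d_sub_nonneg hr
  have h1 : pt Θ r = 1 := by
    have h2 : r = (r - 1) + 1 := by rw [sub_add_cancel]
    rw [h2, pt_add, pt_one, pt_pos hr, zero_add]
  induction m with
  | zero =>
    rw [pow_zero]
    exact ⟨Su_one (by simp), pt_one Θ⟩
  | succ m ih =>
    rw [pow_succ]
    refine ⟨Su_mul (fun p hp q hq => ?_) ih.1 h0, ?_⟩
    · have hp' : 0 ≤ Θ p := hp
      have hq' : 0 ≤ Θ q := hq
      change 0 ≤ Θ (p + q)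
      rw [map_add]
      exact add_nonneg hp' hq'
    · rw [pt_mul ih.1 h0, ih.2, h1, one_mul]

/-- an element which is one up to terms of positive degree has minimum zero -/
theorem st5d_Mn {Θ : Lam n →+ ℤ} {r : RR n} (hr : Su {v | 0 < Θ v} (r - 1)) : Mn Θ r 0 := by
  refine ⟨fun v hv => st5d_sub_nonneg hr v hv, ?_⟩
  by_contra hcon
  push Not at hcon
  have h1 : pt Θ r = 0 := by
    refine pt_pos fun v hv => ?_
    exact lt_of_le_of_ne (st5d_sub_nonneg hr v hv) (Ne.symm (hcon v hv))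
  have h2 := (st5d_pt_pow hr 1).2
  rw [pow_one, h1] at h2
  exact zero_ne_one h2

/-- `J` is a unit. `nak` gives `r` with `r - 1` of positive degree, `step1c` gives `r ^ n = E * J`. Minima:
`Mn Θ (r ^ n) 0`, `Mn Θ J 0` (`JJ_hom`), so `E` has nonnegative degree; `pt_mul`, `pt_self`:
`1 = pt (r ^ n) = pt E * J`. -/
theorem JJ_unit {h : Fin n → List (Fin n)} {w : List (Fin n)} {N : ℕ} {Θ : Lam n →+ ℤ}
    (T : TD h w N Θ) : IsUnit (JJ h w) := by
  obtain ⟨r, hr, hrc⟩ := nak (P := { carrier := {v : Lam n | 0 ≤ Θ v}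
                                     zero_mem' := by simp
                                     add_mem' := by
                                       intro a b ha hb
                                       have ha' : 0 ≤ Θ a := ha
                                       have hb' : 0 ≤ Θ b := hb
                                       change 0 ≤ Θ (a + b)
                                       rw [map_add]
                                       exact add_nonneg ha' hb' })
    (Q := {v | 0 < Θ v}) (fun v hv => le_of_lt (show 0 < Θ v from hv))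
    (fun p hp q hq => by
      have hp' : 0 ≤ Θ p := hp
      have hq' : 0 < Θ q := hq
      change 0 < Θ (p + q)
      rw [map_add]
      exact add_pos_of_nonneg_of_pos hp' hq') n N T.H.nN (cc h w) (fun k hk => step3a T k hk)
  obtain ⟨E, hE⟩ := step1c T.H r (fun k hk => by
    obtain ⟨b, -, hb⟩ := mem_LW_iff.1 (hrc k hk)
    exact ⟨b, hb⟩)
  have hJ0 : JJ h w ≠ 0 := JJ_ne h w T.H.uni
  have hJh : Su {v | Θ v = 0} (JJ h w) := JJ_hom T
  have hMr : Mn Θ (r ^ n) 0 := by
    have h1 := Mn_pow (st5d_Mn hr) n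
    rwa [mul_zero] at h1
  have hMJ : Mn Θ (JJ h w) 0 := by
    obtain ⟨c, hc⟩ := exists_Mn Θ (JJ h w) hJ0
    obtain ⟨v, hv, hvc⟩ := hc.2
    have h1 : Θ v = 0 := hJh v hv
    have h2 : c = 0 := by rw [← hvc, h1]
    rwa [h2] at hc
  have hE0 : E ≠ 0 := by
    rintro rfl
    rw [mul_zero] at hE
    exact Mn_ne_zero hMr hE
  have hES : Su {v | 0 ≤ Θ v} E := by
    obtain ⟨d, hd⟩ := exists_Mn Θ E hE0
    have h1 := Mn_mul hMJ hd
    rw [← hE, zero_add] at h1
    have h2 : d = 0 := Mn_unique h1 hMr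
    rw [h2] at hd
    exact fun v hv => hd.1 v hv
  have hJS : Su {v | 0 ≤ Θ v} (JJ h w) := Su_mono (fun v hv => le_of_eq (Eq.symm hv)) hJh
  have h3 := (st5d_pt_pow hr n).2
  rw [hE, pt_mul hJS hES, pt_self hJh] at h3
  exact IsUnit.of_mul_eq_one _ h3

/-- A unit with nonnegative exponents and nonzero constant coefficient has no exponent of positive length:
`f g = 1`, `Mn len f 0`, so `Mn len g 0`; `Mn (-len) f c`, `Mn (-len) g d` with `c ≤ 0`, `d ≤ 0`, `c + d = 0`. -/
theorem unit_len {f : RR n} (hf : IsUnit f) (hn : Su {v | ∀ a, 0 ≤ v a} f) (h0 : f.coeff 0 ≠ 0) :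
    ∀ v, f.coeff v ≠ 0 → len v ≤ 0 := by
  obtain ⟨g, hg⟩ := hf.exists_right_inv
  have hf0 : f ≠ 0 := by
    rintro rfl
    exact h0 rfl
  have hg0 : g ≠ 0 := by
    rintro rfl
    rw [mul_zero] at hg
    exact zero_ne_one hg
  have hMf : Mn len f 0 := by
    refine ⟨fun v hv => ?_, 0, h0, map_zero len⟩
    change 0 ≤ ∑ a, v a
    exact Finset.sum_nonneg fun a _ => hn v hv a
  obtain ⟨c, hc⟩ := exists_Mn len g hg0
  have h1 := Mn_mul hMf hc
  rw [hg, zero_add] at h1
  have h2 : c = 0 := Mn_unique h1 (Mn_one len)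
  obtain ⟨d, hd⟩ := exists_Mn (-len) f hf0
  obtain ⟨e, he⟩ := exists_Mn (-len) g hg0
  have h3 := Mn_mul hd he
  rw [hg] at h3
  have h4 : d + e = 0 := Mn_unique h3 (Mn_one (-len))
  have h5 : d ≤ 0 := by
    have h6 := hd.1 0 h0
    rwa [map_zero] at h6
  have h7 : e ≤ 0 := by
    obtain ⟨u, hu, hue⟩ := he.2
    have h8 := hc.1 u hu
    rw [h2] at h8
    rw [← hue, AddMonoidHom.neg_apply]
    linarith
  intro v hv
  have h9 := hd.1 v hv
  rw [AddMonoidHom.neg_apply] at h9
  linarith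

end Cdm
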