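import Pool.Agent.H.MP_374efc_lc.CD.St4b
import Pool.Agent.H.MP_374efc_lc.CD.St5d

/-!
# The code dichotomy under GOOD
-/

namespace Cdm

variable {n : ℕ}

/-- Both-sided hypotheses imply that `w_0, ..., w_(n-1)` are letters. -/
theorem letters_of_HL {h : Fin n → List (Fin n)} {w : List (Fin n)} {N : ℕ} (H : HL h w N)
    (H' : HL (rv h) w.reverse N) (hbig : ∃ a, 1 < (h a).length) (i : Fin n) :
    (sq h w i).length = 1 := by
  obtain ⟨Θ, h1, h2, h3⟩ := exists_Theta H H' hbig
  have T : TD h w N Θ := ⟨H, H', h1, h2, h3⟩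
  have hu := JJ_unit T
  have h0 : (JJ h w).coeff 0 ≠ 0 := (JJ_zero h w H.ne H.wne H.first).ne_zero
  have ht : (JJ h w).coeff (ee h w) ≠ 0 := (JJ_top H').ne_zero
  have hl := unit_len hu (JJ_nonneg h w) h0 _ ht
  have hlen : len (ee h w) = ∑ i : Fin n, ((sq h w i).length : ℤ) - n := by
    unfold ee
    rw [map_sub, map_sum]
    congr 1
    · exact Finset.sum_congr rfl fun i _ => sum_par (sq h w i)
    · simp [len]
  rw [hlen] at hl
  have hpos : ∀ j : Fin n, (1 : ℤ) ≤ ((sq h w j).length : ℤ) := by
    intro j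
    have := List.length_pos_iff.2 (sq_ne h w H.ne H.wne j)
    exact_mod_cast this
  by_contra hne
  have h2i : (2 : ℤ) ≤ ((sq h w i).length : ℤ) := by
    have := hpos i
    have hne' : ((sq h w i).length : ℤ) ≠ 1 := by exact_mod_cast hne
    omega
  have hsum : (n : ℤ) < ∑ i : Fin n, ((sq h w i).length : ℤ) := by
    have : ∑ _i : Fin n, (1 : ℤ) < ∑ i : Fin n, ((sq h w i).length : ℤ) :=
      Finset.sum_lt_sum (fun j _ => hpos j) ⟨i, Finset.mem_univ i, by omega⟩
    simpa using this
  omega

/-- Local catenativity of the reversed system. -/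
theorem LC_rv {h : Fin n → List (Fin n)} {w : List (Fin n)} {N : ℕ} (hlc : LC h w N) :
    LC (rv h) w.reverse N := by
  obtain ⟨J, h1, h2, h3, h4⟩ := hlc
  refine ⟨J.reverse, fun j hj => h1 j (List.mem_reverse.1 hj), List.mem_reverse.2 h2, ?_, ?_⟩
  · rw [List.length_reverse]
    exact h3
  · rw [sq_rv, h4]
    unfold pw
    rw [List.reverse_flatMap]
    congr 1
    funext k
    rw [Function.comp_apply, sq_rv]

/-- Generation is invariant under reversal (the antiautomorphism `g ↦ g` with reversed words; or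
`FreeGroup.lift (fun a => (FreeGroup.of a)⁻¹)` composed with inversion). -/
theorem gen_rv {h : Fin n → List (Fin n)} {w : List (Fin n)} {N : ℕ}
    (hg : ∀ a : Fin n, FreeGroup.of a ∈ Subgroup.closure
      (Set.range (fun k : Fin N => ((sq h w k).map FreeGroup.of).prod))) :
    ∀ a : Fin n, FreeGroup.of a ∈ Subgroup.closure
      (Set.range (fun k : Fin N => ((sq (rv h) w.reverse k).map FreeGroup.of).prod)) := by
  intro a
  have hf := hg a
  have key : ∀ u : List (Fin n),
      FreeGroup.lift (fun b : Fin n => (FreeGroup.of b)⁻¹) ((u.map FreeGroup.of).prod) =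
        ((u.reverse.map FreeGroup.of).prod)⁻¹ := by
    intro u
    induction u with
    | nil => simp
    | cons b u ih =>
      rw [List.map_cons, List.prod_cons, map_mul, ih, FreeGroup.lift_apply_of, List.reverse_cons,
        List.map_append, List.prod_append, mul_inv_rev]
      simp
  have h1 := Subgroup.mem_map_of_mem (FreeGroup.lift (fun b : Fin n => (FreeGroup.of b)⁻¹)) hf
  rw [MonoidHom.map_closure, FreeGroup.lift_apply_of] at h1
  have h2 : Subgroup.closure ((FreeGroup.lift (fun b : Fin n => (FreeGroup.of b)⁻¹)) ''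
      (Set.range (fun k : Fin N => ((sq h w k).map FreeGroup.of).prod))) ≤
      Subgroup.closure
        (Set.range (fun k : Fin N => ((sq (rv h) w.reverse k).map FreeGroup.of).prod)) := by
    rw [Subgroup.closure_le]
    rintro _ ⟨_, ⟨k, rfl⟩, rfl⟩
    change FreeGroup.lift (fun b : Fin n => (FreeGroup.of b)⁻¹)
      (((sq h w k).map FreeGroup.of).prod) ∈ _
    rw [key, ← sq_rv]
    exact Subgroup.inv_mem _ (Subgroup.subset_closure ⟨k, rfl⟩)
  exact (Subgroup.inv_mem_iff _).1 (h2 h1)

/-- THE CODE DICHOTOMY UNDER GOOD'. Let `(h, w)` be a D0L system over `n` letters, `h` nonerasing,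
`w_N` a product of words `w_j`, `j < N` (with `w_0` among them, at least two factors), `N ≥ n`, such that the
first letters of `w_0, ..., w_(n-1)` are distinct, the last letters too, the Parikh vectors form a basis of
`ℤ^n`, the `w_k` generate the free group, and the relation graph of the tokens is connected to
`w_0, ..., w_(n-1)` on both sides. Then `w_0, ..., w_(n-1)` are letters. -/
theorem letters_of_good {h : Fin n → List (Fin n)} {w : List (Fin n)} {N : ℕ} (hn : 0 < n)
    (hnN : n ≤ N) (hne : ∀ a, h a ≠ []) (hw : w ≠ []) (hlc : LC h w N)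
    (hfirst : ∀ i j : Fin n, (sq h w i).head? = (sq h w j).head? → i = j)
    (hlast : ∀ i j : Fin n, (sq h w i).getLast? = (sq h w j).getLast? → i = j)
    (hu : IsUnit (WM h w).det)
    (hg : ∀ a : Fin n, FreeGroup.of a ∈ Subgroup.closure
      (Set.range (fun k : Fin N => ((sq h w k).map FreeGroup.of).prod)))
    (hl : LGood h w N) (hr : LGood (rv h) w.reverse N) (hbig : ∃ a, 1 < (h a).length) (i : Fin n) :
    (sq h w i).length = 1 := by
  refine letters_of_HL (N := N) ⟨hn, hnN, hne, hw, hlc, hfirst, hu, hg, hl⟩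
    ⟨hn, hnN, ?_, ?_, LC_rv hlc, ?_, ?_, gen_rv hg, hr⟩ hbig i
  · intro a
    simpa [rv] using hne a
  · simpa using hw
  · intro i j hij
    rw [sq_rv, sq_rv, List.head?_reverse, List.head?_reverse] at hij
    exact hlast i j hij
  · rw [WM_rv]
    exact hu

end Cdm
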