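import Pool.Agent.H.MP_374efc_lc.CD.Va2

/-!
# The sum of the coefficients of degree zero
-/

namespace Cdm

variable {n : ℕ}

/-- The sum of the coefficients of degree zero. -/
noncomputable def ez (θ : Lam n →+ ℤ) (f : RR n) : ℤ := aug (pt θ f)

theorem ez_add (θ : Lam n →+ ℤ) (f g : RR n) : ez θ (f + g) = ez θ f + ez θ g := by
  unfold ez
  rw [pt_add, map_add]

theorem va3_zero (θ : Lam n →+ ℤ) : ez θ (0 : RR n) = 0 := by
  have h := ez_add θ (0 : RR n) 0
  rw [add_zero] at h
  omega

theorem ez_sum (θ : Lam n →+ ℤ) {ι : Type*} (s : Finset ι) (f : ι → RR n) :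
    ez θ (∑ i ∈ s, f i) = ∑ i ∈ s, ez θ (f i) := by
  classical
  induction s using Finset.induction_on with
  | empty => rw [Finset.sum_empty, Finset.sum_empty, va3_zero]
  | insert i s hi ih => rw [Finset.sum_insert hi, Finset.sum_insert hi, ez_add, ih]

theorem ez_one (θ : Lam n →+ ℤ) : ez θ (1 : RR n) = 1 := by
  unfold ez
  rw [pt_one, map_one]

theorem ez_pos {θ : Lam n →+ ℤ} {f : RR n} (hf : Su {v | 0 < θ v} f) : ez θ f = 0 := by
  unfold ez
  rw [pt_pos hf, map_zero]

theorem ez_mul {θ : Lam n →+ ℤ} {f g : RR n} (hf : Su {v | 0 ≤ θ v} f) (hg : Su {v | 0 ≤ θ v} g) :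
    ez θ (f * g) = ez θ f * ez θ g := by
  unfold ez
  rw [pt_mul hf hg, map_mul]

theorem va3_neg (θ : Lam n →+ ℤ) (f : RR n) : ez θ (-f) = -ez θ f := by
  have h := ez_add θ f (-f)
  rw [add_neg_cancel, va3_zero] at h
  omega

theorem va3_prod {θ : Lam n →+ ℤ} {ι : Type*} (s : Finset ι) (f : ι → RR n)
    (hf : ∀ i ∈ s, Su {v | 0 ≤ θ v} (f i)) :
    Su {v | 0 ≤ θ v} (∏ i ∈ s, f i) ∧ ez θ (∏ i ∈ s, f i) = ∏ i ∈ s, ez θ (f i) := by
  classical
  induction s using Finset.induction_on with
  | empty =>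
    rw [Finset.prod_empty, Finset.prod_empty]
    exact ⟨Su_one (by simp), ez_one θ⟩
  | insert i s hi ih =>
    have h1 := hf i (Finset.mem_insert_self i s)
    obtain ⟨h2, h3⟩ := ih fun j hj => hf j (Finset.mem_insert_of_mem hj)
    rw [Finset.prod_insert hi, Finset.prod_insert hi]
    refine ⟨Su_mul (P := {v | 0 ≤ θ v}) (Q := {v | 0 ≤ θ v}) ?_ h1 h2, ?_⟩
    · intro p hp q hq
      simp only [Set.mem_setOf_eq, map_add] at hp hq ⊢
      exact add_nonneg hp hq
    · rw [ez_mul h1 h2, h3]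

/-- `ez` of a determinant: expand the determinant (`Matrix.det_apply'`) and use `ez_sum`, `ez_mul`
(products of elements of nonnegative degree have nonnegative degree); the sign is an integer. Or:
`ez θ` is a ring homomorphism on the subring of the elements of nonnegative degree
(`RingHom.map_det`). -/
theorem ez_det {θ : Lam n →+ ℤ} {ι : Type*} [Fintype ι] [DecidableEq ι]
    (M : Matrix ι ι (RR n)) (hM : ∀ i j, Su {v | 0 ≤ θ v} (M i j)) :
    ez θ M.det = (M.map (ez θ)).det := by
  rw [Matrix.det_apply', Matrix.det_apply', ez_sum]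
  refine Finset.sum_congr rfl fun σ _ => ?_
  obtain ⟨-, h2⟩ := va3_prod (θ := θ) Finset.univ (fun i => M (σ i) i) fun i _ => hM _ _
  have h3 : ∏ i, (M.map (ez θ)) (σ i) i = ∏ i, ez θ (M (σ i) i) := rfl
  rw [h3, ← h2]
  rcases Int.units_eq_one_or (Equiv.Perm.sign σ) with h | h
  · rw [h]
    simp
  · rw [h]
    simp [va3_neg]

/-- The sum of the coordinates. -/
def len : Lam n →+ ℤ where
  toFun v := ∑ a, v a
  map_zero' := by simp
  map_add' u v := by simp [Finset.sum_add_distrib]

/-- For `f` with nonnegative exponents `ez len f` is the constant coefficient. -/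
theorem ez_len {f : RR n} (hf : Su {v | ∀ a, 0 ≤ v a} f) : ez len f = f.coeff 0 := by
  have h1 : pt len f = AddMonoidAlgebra.single 0 (f.coeff 0) := by
    refine AddMonoidAlgebra.coeff_injective ?_
    refine Finsupp.ext fun v => ?_
    rw [pt_coeff, AddMonoidAlgebra.coeff_single, Finsupp.single_apply]
    by_cases hv : (0 : Lam n) = v
    · rw [if_pos hv, ← hv, map_zero, if_pos rfl]
    · rw [if_neg hv]
      by_cases h0 : f.coeff v = 0
      · rw [h0, ite_self]
      · rw [if_neg]
        intro h2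
        apply hv
        have h3 : ∀ a, 0 ≤ v a := hf v h0
        have h4 : ∑ a, v a = 0 := h2
        have h5 := (Finset.sum_eq_zero_iff_of_nonneg fun a _ => h3 a).1 h4
        funext a
        exact (h5 a (Finset.mem_univ a)).symm
  unfold ez
  rw [h1]
  show (AddMonoidAlgebra.lift ℤ ℤ (Lam n) (1 : Multiplicative (Lam n) →* ℤ))
    (AddMonoidAlgebra.single 0 (f.coeff 0)) = f.coeff 0
  rw [AddMonoidAlgebra.lift_single]
  simp

end Cdm
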