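import Pool.Agent.H.MP_374efc_lc.CD.Fx1
import Pool.Agent.H.MP_374efc_lc.CD.Va3

/-!
# Coordinates in the basis of the first n tokens
-/

namespace Cdm

variable {n : ℕ}

/-- The coordinates of a vector in the basis `[w_0], ..., [w_(n-1)]`. -/
noncomputable def coo (h : Fin n → List (Fin n)) (w : List (Fin n)) : Lam n →+ Lam n :=
  (Matrix.mulVecLin (WM h w)⁻¹).toAddMonoidHom

/-- The last coordinate. -/
noncomputable def eta (h : Fin n → List (Fin n)) (w : List (Fin n)) : Lam n →+ ℤ where
  toFun v := ∑ i : Fin n, if (i : ℕ) + 1 = n then coo h w v i else 0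
  map_zero' := by simp
  map_add' u v := by
    rw [← Finset.sum_add_distrib]
    refine Finset.sum_congr rfl fun i _ => ?_
    split_ifs <;> simp

/-- The sum of the coordinates. -/
noncomputable def psi (h : Fin n → List (Fin n)) (w : List (Fin n)) : Lam n →+ ℤ where
  toFun v := ∑ i : Fin n, coo h w v i
  map_zero' := by simp
  map_add' u v := by simp [Finset.sum_add_distrib]

theorem par_sq_succ (h : Fin n → List (Fin n)) (w : List (Fin n)) (k : ℕ) :
    par (sq h w (k + 1)) = mh h (par (sq h w k)) := by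
  exact par_ext h (sq h w k)

theorem coo_tok (h : Fin n → List (Fin n)) (w : List (Fin n)) (hu : IsUnit (WM h w).det)
    (i : Fin n) : coo h w (par (sq h w i)) = Pi.single i 1 := by
  have h1 : par (sq h w i) = (WM h w).mulVec (Pi.single i 1) := by
    rw [Matrix.mulVec_single_one]
    rfl
  show (WM h w)⁻¹.mulVec (par (sq h w i)) = _
  rw [h1, Matrix.mulVec_mulVec, Matrix.nonsing_inv_mul _ hu, Matrix.one_mulVec]

theorem eta_tok (h : Fin n → List (Fin n)) (w : List (Fin n)) (hu : IsUnit (WM h w).det)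
    (i : ℕ) (hi : i < n) : eta h w (par (sq h w i)) = if i + 1 = n then 1 else 0 := by
  have h1 := coo_tok h w hu ⟨i, hi⟩
  show ∑ j : Fin n, (if (j : ℕ) + 1 = n then coo h w (par (sq h w i)) j else 0) = _
  rw [h1, Finset.sum_eq_single (⟨i, hi⟩ : Fin n)]
  · rw [Pi.single_eq_same]
  · intro j _ hj
    rw [Pi.single_eq_of_ne hj, ite_self]
  · intro h2
    exact absurd (Finset.mem_univ _) h2

theorem psi_tok (h : Fin n → List (Fin n)) (w : List (Fin n)) (hu : IsUnit (WM h w).det)
    (i : ℕ) (hi : i < n) : psi h w (par (sq h w i)) = 1 := by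
  have h1 := coo_tok h w hu ⟨i, hi⟩
  show ∑ j : Fin n, coo h w (par (sq h w i)) j = 1
  rw [h1, Finset.sum_eq_single (⟨i, hi⟩ : Fin n)]
  · rw [Pi.single_eq_same]
  · intro j _ hj
    rw [Pi.single_eq_of_ne hj]
  · intro h2
    exact absurd (Finset.mem_univ _) h2

/-- Two additive maps on `ℤ^n` agree if they agree on the basis `[w_0], ..., [w_(n-1)]`. -/
theorem hom_ext_tok (h : Fin n → List (Fin n)) (w : List (Fin n)) (hu : IsUnit (WM h w).det)
    (f g : Lam n →+ ℤ) (hfg : ∀ i < n, f (par (sq h w i)) = g (par (sq h w i))) : f = g := by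
  refine AddMonoidHom.ext fun v => ?_
  have h1 : v = ∑ i : Fin n, coo h w v i • par (sq h w i) := by
    have h2 : (WM h w).mulVec (coo h w v) = v := by
      show (WM h w).mulVec ((WM h w)⁻¹.mulVec v) = v
      rw [Matrix.mulVec_mulVec, Matrix.mul_nonsing_inv _ hu, Matrix.one_mulVec]
    conv_lhs => rw [← h2]
    funext a
    rw [Finset.sum_apply]
    show ∑ i : Fin n, WM h w a i * coo h w v i = _
    refine Finset.sum_congr rfl fun i _ => ?_
    rw [Pi.smul_apply, smul_eq_mul, mul_comm]
    rfl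
  rw [h1, map_sum, map_sum]
  refine Finset.sum_congr rfl fun i _ => ?_
  rw [map_zsmul, map_zsmul, hfg i i.2]

end Cdm
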