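import Pool.Agent.H.MP_374efc_lc.CD.Ab1

/-!
# Cayley-Hamilton for the coordinates
-/

namespace Cdm

variable {n : ℕ}

theorem ab1b_mh (h : Fin n → List (Fin n)) (v : Lam n) : mh h v = Matrix.mulVec (mat h) v := rfl

theorem ab1b_iter (h : Fin n → List (Fin n)) (w : List (Fin n)) (l m : ℕ) :
    par (sq h w (l + m)) = Matrix.mulVec (mat h ^ l) (par (sq h w m)) := by
  induction l with
  | zero => rw [zero_add, pow_zero, Matrix.one_mulVec]
  | succ l ih =>
    have h1 : l + 1 + m = (l + m) + 1 := by omega
    rw [h1, par_sq_succ, ih, ab1b_mh, Matrix.mulVec_mulVec, ← pow_succ']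

theorem ab1b_deg (h : Fin n → List (Fin n)) : (mat h).charpoly.natDegree = n := by
  rw [Matrix.charpoly_natDegree_eq_dim, Fintype.card_fin]

theorem ab1b_top (h : Fin n → List (Fin n)) : (mat h).charpoly.coeff n = 1 := by
  have h1 := (Matrix.charpoly_monic (mat h)).coeff_natDegree
  rwa [ab1b_deg] at h1

/-- Cayley-Hamilton: `∑_(l ≤ n) χ_l w_(l+m) = 0`, `χ_l` the coefficients of the characteristic polynomial. -/
theorem cayley (h : Fin n → List (Fin n)) (w : List (Fin n)) (m : ℕ) :
    ∑ l ∈ Finset.range (n + 1), (mat h).charpoly.coeff l • par (sq h w (l + m)) = 0 := by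
  have h1 := Matrix.aeval_self_charpoly (mat h)
  rw [Polynomial.aeval_eq_sum_range' (n := n + 1) (by rw [ab1b_deg]; omega)] at h1
  have h2 := congrArg (fun M : Matrix (Fin n) (Fin n) ℤ => Matrix.mulVec M (par (sq h w m))) h1
  simp only [Matrix.sum_mulVec, Matrix.smul_mulVec, Matrix.zero_mulVec] at h2
  rw [← h2]
  refine Finset.sum_congr rfl fun l _ => ?_
  rw [ab1b_iter]

/-- `ψ (A v) = ψ v - χ(1) η v`: check it on the basis; for `v = w_(n-1)` by `cayley`. -/
theorem psi_mh (h : Fin n → List (Fin n)) (w : List (Fin n)) (hu : IsUnit (WM h w).det)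
    (v : Lam n) :
    psi h w (mh h v) = psi h w v - (mat h).charpoly.eval 1 * eta h w v := by
  have hfg : (psi h w).comp (mh h) =
      psi h w - ((mat h).charpoly.eval 1) • eta h w := by
    refine hom_ext_tok h w hu _ _ fun i hi => ?_
    simp only [AddMonoidHom.comp_apply, AddMonoidHom.sub_apply, AddMonoidHom.smul_apply, smul_eq_mul]
    rw [← par_sq_succ, psi_tok h w hu i hi, eta_tok h w hu i hi]
    by_cases hin : i + 1 = n
    · rw [if_pos hin, mul_one]
      have hc := cayley h w 0
      have h3 := congrArg (psi h w) hc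
      rw [map_sum, map_zero, Finset.sum_range_succ] at h3
      simp only [map_zsmul, smul_eq_mul, add_zero] at h3
      have h4 : ∑ l ∈ Finset.range n, (mat h).charpoly.coeff l * psi h w (par (sq h w l)) =
          ∑ l ∈ Finset.range n, (mat h).charpoly.coeff l := by
        refine Finset.sum_congr rfl fun l hl => ?_
        rw [psi_tok h w hu l (Finset.mem_range.mp hl), mul_one]
      rw [h4, ab1b_top, one_mul] at h3
      have h5 : (mat h).charpoly.eval 1 = ∑ l ∈ Finset.range n, (mat h).charpoly.coeff l + 1 := by
        rw [Polynomial.eval_eq_sum_range, ab1b_deg, Finset.sum_range_succ, ab1b_top]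
        simp
      rw [hin, h5]
      linarith
    · rw [if_neg hin, mul_zero, sub_zero]
      exact psi_tok h w hu (i + 1) (by omega)
  have h6 := DFunLike.congr_fun hfg v
  simpa only [AddMonoidHom.comp_apply, AddMonoidHom.sub_apply, AddMonoidHom.smul_apply, smul_eq_mul] using h6

/-- `det (1 - X A) * ∑ η(w_(n-1+j)) X^j = 1`: the coefficient of `X^m`, `m ≥ 1`, is `η` of `cayley` for
`m - 1` (the `η (w_i)` with `i < n - 1` vanish); `charpolyRev` is the reverse of `charpoly`. -/
theorem series_eta (h : Fin n → List (Fin n)) (w : List (Fin n)) (hn : 0 < n)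
    (hu : IsUnit (WM h w).det) :
    ((mat h).charpolyRev : PowerSeries ℤ)
      * PowerSeries.mk (fun j => eta h w (par (sq h w (n - 1 + j)))) = 1 := by
  have hrev : ∀ i, (mat h).charpolyRev.coeff i = if i ≤ n then (mat h).charpoly.coeff (n - i) else 0 := by
    intro i
    rw [← Matrix.reverse_charpoly, Polynomial.coeff_reverse, ab1b_deg]
    split_ifs with hi
    · rw [Polynomial.revAt_le hi]
    · rw [Polynomial.revAt_eq_self_of_lt (by omega)]
      exact Polynomial.coeff_eq_zero_of_natDegree_lt (by rw [ab1b_deg]; omega)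
  ext m
  rw [PowerSeries.coeff_mul, Finset.Nat.sum_antidiagonal_eq_sum_range_succ
    (fun i j => PowerSeries.coeff i ((mat h).charpolyRev : PowerSeries ℤ) *
      PowerSeries.coeff j (PowerSeries.mk (fun j => eta h w (par (sq h w (n - 1 + j))))))]
  simp only [Polynomial.coeff_coe, PowerSeries.coeff_mk, hrev, PowerSeries.coeff_one]
  by_cases hm : m = 0
  · subst hm
    rw [if_pos rfl, Nat.succ_eq_add_one, zero_add, Finset.sum_range_one, if_pos (Nat.zero_le n), Nat.sub_zero,
      ab1b_top, Nat.sub_zero, add_zero, eta_tok h w hu (n - 1) (by omega), if_pos (by omega)]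
    norm_num
  · rw [if_neg hm]
    have hc := congrArg (eta h w) (cayley h w (m - 1))
    rw [map_sum, map_zero] at hc
    simp only [map_zsmul, smul_eq_mul] at hc
    rw [← Finset.sum_range_reflect] at hc
    have h1 : ∑ i ∈ Finset.range (n + 1), (mat h).charpoly.coeff (n + 1 - 1 - i) *
        eta h w (par (sq h w (n + 1 - 1 - i + (m - 1)))) =
        ∑ i ∈ Finset.range (n + m + 1), (if i ≤ n then (mat h).charpoly.coeff (n - i) else 0) *
          (if i ≤ m then eta h w (par (sq h w (n - 1 + (m - i)))) else 0) := by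
      rw [← Finset.sum_subset (Finset.range_mono (by omega : n + 1 ≤ n + m + 1))]
      · refine Finset.sum_congr rfl fun i hi => ?_
        rw [Finset.mem_range] at hi
        rw [if_pos (by omega : i ≤ n), Nat.add_sub_cancel]
        split_ifs with him
        · have e1 : n - i + (m - 1) = n - 1 + (m - i) := by omega
          rw [e1]
        · rw [eta_tok h w hu (n - i + (m - 1)) (by omega), if_neg (by omega)]
      · intro i _ hi
        rw [Finset.mem_range, not_lt] at hi
        rw [if_neg (by omega), zero_mul]
    have h2 : ∑ i ∈ Finset.range m.succ, (if i ≤ n then (mat h).charpoly.coeff (n - i) else 0) *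
        eta h w (par (sq h w (n - 1 + (m - i)))) =
        ∑ i ∈ Finset.range (n + m + 1), (if i ≤ n then (mat h).charpoly.coeff (n - i) else 0) *
          (if i ≤ m then eta h w (par (sq h w (n - 1 + (m - i)))) else 0) := by
      rw [← Finset.sum_subset (Finset.range_mono (by omega : m.succ ≤ n + m + 1))]
      · refine Finset.sum_congr rfl fun i hi => ?_
        rw [Finset.mem_range] at hi
        rw [if_pos (by omega : i ≤ m)]
      · intro i _ hi
        rw [Finset.mem_range, not_lt] at hi
        rw [if_neg (by omega : ¬ i ≤ m), mul_zero]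
    rw [h2, ← h1, hc]

end Cdm
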