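import Pool.Agent.H.MP_374efc_lc.CD.Ab1

/-!
# The characteristic polynomial divides the polynomial of the formula
-/

namespace Cdm

variable {n : ℕ}

/-- The vector `g(A) v`, additive in `g`. -/
noncomputable def ab1cL (A : Matrix (Fin n) (Fin n) ℤ) (v : Lam n) : Polynomial ℤ →+ Lam n where
  toFun g := (Polynomial.aeval A g).mulVec v
  map_zero' := by simp
  map_add' f g := by rw [map_add, Matrix.add_mulVec]

theorem ab1c_pow (h : Fin n → List (Fin n)) (w : List (Fin n)) (k : ℕ) :
    ab1cL (mat h) (par w) (Polynomial.X ^ k) = par (sq h w k) := by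
  induction k with
  | zero =>
    change (Polynomial.aeval (mat h) (Polynomial.X ^ 0)).mulVec (par w) = par w
    rw [pow_zero, map_one, Matrix.one_mulVec]
  | succ k ih =>
    rw [par_sq_succ, ← ih]
    change (Polynomial.aeval (mat h) (Polynomial.X ^ (k + 1))).mulVec (par w) =
      (mat h).mulVec ((Polynomial.aeval (mat h) (Polynomial.X ^ k)).mulVec (par w))
    rw [Matrix.mulVec_mulVec, pow_succ', map_mul, Polynomial.aeval_X]

theorem ab1c_par_pw (h : Fin n → List (Fin n)) (w : List (Fin n)) (J : List ℕ) :
    par (pw h w J) = (J.map (fun j => par (sq h w j))).sum := by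
  induction J with
  | nil => rw [pw_nil, par_nil, List.map_nil, List.sum_nil]
  | cons k J ih => rw [pw_cons, par_append, ih, List.map_cons, List.sum_cons]

/-- `χ` divides `X^N - ∑_(j ∈ J) X^j`: by the catenation formula `p(A) w_0 = 0`, so `p(A) = 0` (the `w_i`,
`i < n`, form a basis), and a monic polynomial `χ` of degree `n` with `χ(A) w_0 = 0`: divide `p = χ q + r`,
`deg r < n`, `r(A) w_0 = 0` is a relation between the `w_i`, `i < n`, so `r = 0`. -/
theorem chi_dvd (h : Fin n → List (Fin n)) (w : List (Fin n)) (hu : IsUnit (WM h w).det) (N : ℕ)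
    (J : List ℕ) (hJ : sq h w N = pw h w J) :
    (mat h).charpoly ∣ Polynomial.X ^ N
      - (J.map (fun j => (Polynomial.X : Polynomial ℤ) ^ j)).sum := by
  set p : Polynomial ℤ := Polynomial.X ^ N
      - (J.map (fun j => (Polynomial.X : Polynomial ℤ) ^ j)).sum with hp
  have hmon : (mat h).charpoly.Monic := Matrix.charpoly_monic _
  rw [← Polynomial.modByMonic_eq_zero_iff_dvd hmon]
  set r := p %ₘ (mat h).charpoly with hr
  have hL0 : ab1cL (mat h) (par w) p = 0 := by
    rw [hp, map_sub, map_list_sum, List.map_map, ab1c_pow, hJ, ab1c_par_pw, sub_eq_zero]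
    congr 1
    refine List.map_congr_left fun j _ => ?_
    exact (ab1c_pow h w j).symm
  have hLr : ab1cL (mat h) (par w) r = 0 := by
    have h1 := Polynomial.modByMonic_add_div p (mat h).charpoly
    have h2 : ab1cL (mat h) (par w) ((mat h).charpoly * (p /ₘ (mat h).charpoly)) = 0 := by
      change (Polynomial.aeval (mat h) ((mat h).charpoly * (p /ₘ (mat h).charpoly))).mulVec
        (par w) = 0
      rw [map_mul, Matrix.aeval_self_charpoly, zero_mul, Matrix.zero_mulVec]
    rw [← h1, map_add, h2, add_zero] at hL0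
    exact hL0
  by_contra hne
  have hdeg : r.natDegree < n := by
    have h1 : r.degree < (mat h).charpoly.degree := Polynomial.degree_modByMonic_lt p hmon
    rw [Polynomial.degree_eq_natDegree hne, Matrix.charpoly_degree_eq_dim, Fintype.card_fin] at h1
    exact_mod_cast h1
  have hsum : ab1cL (mat h) (par w) r = (WM h w).mulVec (fun i : Fin n => r.coeff i) := by
    have h1 := r.as_sum_range_C_mul_X_pow' hdeg
    have h2 : ab1cL (mat h) (par w) r = ∑ i ∈ Finset.range n, r.coeff i • par (sq h w i) := by
      conv_lhs => rw [h1]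
      rw [map_sum]
      refine Finset.sum_congr rfl fun i _ => ?_
      have h3 : Polynomial.C (r.coeff i) * (Polynomial.X : Polynomial ℤ) ^ i =
          (r.coeff i) • (Polynomial.X : Polynomial ℤ) ^ i := by
        rw [Polynomial.smul_eq_C_mul]
      rw [h3, map_zsmul, ab1c_pow]
    rw [h2, ← Fin.sum_univ_eq_sum_range (fun i => r.coeff i • par (sq h w i))]
    funext a
    rw [Finset.sum_apply]
    change _ = ∑ i : Fin n, WM h w a i * r.coeff i
    refine Finset.sum_congr rfl fun i _ => ?_
    change r.coeff i * par (sq h w i) a = par (sq h w i) a * r.coeff i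
    ring
  rw [hsum] at hLr
  have hc : (fun i : Fin n => r.coeff i) = 0 := Matrix.eq_zero_of_mulVec_eq_zero hu.ne_zero hLr
  apply hne
  have h1 := r.as_sum_range_C_mul_X_pow' hdeg
  rw [h1]
  refine Finset.sum_eq_zero fun i hi => ?_
  have h2 : r.coeff i = 0 := congrFun hc ⟨i, Finset.mem_range.1 hi⟩
  rw [h2, Polynomial.C_0, zero_mul]

end Cdm
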