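import Pool.Agent.H.MP_374efc_lc.CD.Pf1

/-!
# The sign of the characteristic polynomial at one
-/

namespace Cdm

variable {n : ℕ}

theorem pf2_eval (J : List ℕ) (x : ℝ) :
    (((J.map (fun j => (Polynomial.X : Polynomial ℤ) ^ j)).sum).map
      (Int.castRingHom ℝ)).eval x = (J.map (fun j => x ^ j)).sum := by
  induction J with
  | nil => simp
  | cons a J ih =>
    rw [List.map_cons, List.sum_cons, Polynomial.map_add, Polynomial.eval_add, ih,
      List.map_cons, List.sum_cons]
    simp

theorem pf2_deriv (J : List ℕ) (x : ℝ) :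
    x * ((((J.map (fun j => (Polynomial.X : Polynomial ℤ) ^ j)).sum).map
      (Int.castRingHom ℝ)).derivative).eval x = (J.map (fun j : ℕ => (j : ℝ) * x ^ j)).sum := by
  induction J with
  | nil => simp
  | cons a J ih =>
    rw [List.map_cons, List.sum_cons, Polynomial.map_add, Polynomial.derivative_add,
      Polynomial.eval_add, mul_add, ih, List.map_cons, List.sum_cons]
    congr 1
    rw [Polynomial.map_pow, Polynomial.map_X, Polynomial.derivative_X_pow, Polynomial.eval_mul,
      Polynomial.eval_C, Polynomial.eval_pow, Polynomial.eval_X]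
    rcases Nat.eq_zero_or_pos a with h | h
    · rw [h]; simp
    · obtain ⟨b, rfl⟩ : ∃ b, a = b + 1 := ⟨a - 1, by omega⟩
      rw [Nat.add_sub_cancel, pow_succ]
      ring

theorem pf2_lt (N : ℕ) (J : List ℕ) (hJ : ∀ j ∈ J, j < N) (hne : J ≠ []) (f g : ℕ → ℝ)
    (hfg : ∀ j < N, f j < g j) : (J.map f).sum < (J.map g).sum := by
  induction J with
  | nil => exact absurd rfl hne
  | cons a J ih =>
    rw [List.map_cons, List.sum_cons, List.map_cons, List.sum_cons]
    have h1 : f a < g a := hfg a (hJ a (List.mem_cons_self ..))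
    by_cases h : J = []
    · rw [h]; simpa using h1
    · exact add_lt_add h1 (ih (fun j hj => hJ j (List.mem_cons_of_mem _ hj)) h)

theorem pf2_mul (J : List ℕ) (f : ℕ → ℝ) (c : ℝ) :
    (J.map (fun j => f j * c)).sum = (J.map f).sum * c := by
  induction J with
  | nil => simp
  | cons a J ih =>
    rw [List.map_cons, List.sum_cons, List.map_cons, List.sum_cons, ih, add_mul]

theorem pf2_grow (N : ℕ) (J : List ℕ) (hJ : ∀ j ∈ J, j < N) (hne : J ≠ []) (x y : ℝ)
    (hx : 0 < x) (hxy : x < y) (hroot : (J.map (fun j => x ^ j)).sum = x ^ N) :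
    (J.map (fun j => y ^ j)).sum < y ^ N := by
  have h1 : (J.map (fun j => y ^ j * x ^ N)).sum < (J.map (fun j => x ^ j * y ^ N)).sum := by
    refine pf2_lt N J hJ hne _ _ fun j hj => ?_
    have hy : 0 < y := hx.trans hxy
    have e1 : x ^ N = x ^ j * x ^ (N - j) := by rw [← pow_add]; congr 1; omega
    have e2 : y ^ N = y ^ j * y ^ (N - j) := by rw [← pow_add]; congr 1; omega
    have h2 : x ^ (N - j) < y ^ (N - j) := pow_lt_pow_left₀ hxy hx.le (by omega)
    rw [e1, e2]
    have h3 : 0 < x ^ j * y ^ j := by positivity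
    nlinarith [mul_lt_mul_of_pos_left h2 h3]
  rw [pf2_mul, pf2_mul, hroot, mul_comm (x ^ N) (y ^ N)] at h1
  exact lt_of_mul_lt_mul_right h1 (by positivity)

theorem pf2_one (J : List ℕ) : (J.map (fun j => (1 : ℝ) ^ j)).sum = J.length := by
  induction J with
  | nil => simp
  | cons a J ih =>
    rw [List.map_cons, List.sum_cons, ih, List.length_cons]
    push_cast
    ring

theorem pf2_zero (J : List ℕ) (h0 : 0 ∈ J) : 0 < (J.map (fun j => (0 : ℝ) ^ j)).sum := by
  have h1 : ∀ J : List ℕ, 0 ≤ (J.map (fun j => (0 : ℝ) ^ j)).sum := by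
    intro J
    induction J with
    | nil => simp
    | cons a J ih =>
      rw [List.map_cons, List.sum_cons]
      have : (0 : ℝ) ≤ 0 ^ a := pow_nonneg le_rfl a
      linarith
  induction J with
  | nil => simp at h0
  | cons a J ih =>
    rw [List.map_cons, List.sum_cons]
    rcases List.mem_cons.1 h0 with h | h
    · rw [← h, pow_zero]
      linarith [h1 J]
    · have : (0 : ℝ) ≤ 0 ^ a := pow_nonneg le_rfl a
      linarith [ih h]

theorem pf2_monic (N : ℕ) (J : List ℕ) (hJ : ∀ j ∈ J, j < N) :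
    (Polynomial.X ^ N - (J.map (fun j => (Polynomial.X : Polynomial ℤ) ^ j)).sum).Monic := by
  refine Polynomial.monic_X_pow_sub ?_
  induction J with
  | nil => simp
  | cons a J ih =>
    rw [List.map_cons, List.sum_cons]
    refine lt_of_le_of_lt (Polynomial.degree_add_le _ _) (max_lt ?_ ?_)
    · rw [Polynomial.degree_X_pow]
      exact_mod_cast hJ a (List.mem_cons_self ..)
    · exact ih fun j hj => hJ j (List.mem_cons_of_mem _ hj)

/-- `χ(1) < 0` if the characteristic polynomial `χ` divides `p = X^N - ∑_(j ∈ J) X^j`, `j < N`, `0 ∈ J`,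
`|J| ≥ 2`.

Proof. `p = χ q` (over `ℤ`, `χ` monic). `p (0) < 0`, so `det A ≠ 0`; `exists_pos_root` gives a root `μ > 0` of
`χ`. For `x > 0` `p x = x^N (1 - ∑ x^(j-N))` and `1 - ∑ x^(j-N)` is strictly increasing in `x`, so `p` has the
only positive root `μ`, and it is a simple root (`p = χ q`, if `q μ = 0` then `p' μ = 0`; but
`μ p' μ = N μ^N - ∑ j μ^j = ∑ (N - j) μ^j > 0`). So `q` has no positive root; `q` is monic, so `q 1 > 0`
(intermediate value theorem). `χ 1 = p 1 / q 1 = (1 - |J|) / q 1 < 0`. -/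
theorem chi_one_neg (hn : 0 < n) (A : Matrix (Fin n) (Fin n) ℤ) (hA : ∀ i j, 0 ≤ A i j)
    (N : ℕ) (J : List ℕ) (hJ : ∀ j ∈ J, j < N) (h0 : 0 ∈ J) (h2 : 2 ≤ J.length)
    (hdvd : A.charpoly ∣ Polynomial.X ^ N - (J.map (fun j => (Polynomial.X : Polynomial ℤ) ^ j)).sum) :
    A.charpoly.eval 1 < 0 := by
  have hN : 0 < N := hJ 0 h0
  have hne : J ≠ [] := by rintro rfl; simp at h0
  obtain ⟨q, hq⟩ := hdvd
  set φ := Int.castRingHom ℝ with hφ
  set χ := A.charpoly with hχ
  have hχm : χ.Monic := A.charpoly_monic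
  have hqm : q.Monic := by
    have h3 := pf2_monic N J hJ
    rw [hq] at h3
    exact Polynomial.Monic.of_mul_monic_left hχm h3
  -- the real polynomial
  have hP : ∀ x : ℝ, x ^ N - (J.map (fun j => x ^ j)).sum =
      (χ.map φ).eval x * (q.map φ).eval x := by
    intro x
    have h4 := congrArg (fun r : Polynomial ℤ => (r.map φ).eval x) hq
    simp only [Polynomial.map_sub, Polynomial.map_pow, Polynomial.map_X, Polynomial.eval_sub,
      Polynomial.eval_pow, Polynomial.eval_X, Polynomial.map_mul, Polynomial.eval_mul] at h4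
    rw [pf2_eval] at h4
    exact h4
  have hdet : A.det ≠ 0 := by
    intro hd
    have h5 : χ.coeff 0 = 0 := by
      have h6 := A.det_eq_sign_charpoly_coeff
      rw [hd] at h6
      rcases mul_eq_zero.1 h6.symm with h7 | h7
      · exact absurd h7 (pow_ne_zero _ (by norm_num))
      · exact h7
    have h8 := hP 0
    have h9 : (χ.map φ).eval 0 = 0 := by
      rw [← Polynomial.coeff_zero_eq_eval_zero, Polynomial.coeff_map, h5, map_zero]
    rw [h9, zero_mul, zero_pow hN.ne', zero_sub, neg_eq_zero] at h8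
    exact absurd h8 (pf2_zero J h0).ne'
  obtain ⟨μ, hμ, hμr⟩ := exists_pos_root hn A hA hdet
  have hμP : (J.map (fun j => μ ^ j)).sum = μ ^ N := by
    have h3 := hP μ
    rw [show (χ.map φ).eval μ = 0 from hμr, zero_mul] at h3
    linarith
  -- uniqueness of the positive root
  have huniq : ∀ x : ℝ, 0 < x → x ^ N - (J.map (fun j => x ^ j)).sum = 0 → x = μ := by
    intro x hx hx0
    have hx1 : (J.map (fun j => x ^ j)).sum = x ^ N := by linarith
    rcases lt_trichotomy x μ with h | h | h
    · exact absurd hμP (pf2_grow N J hJ hne x μ hx h hx1).ne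
    · exact h
    · exact absurd hx1 (pf2_grow N J hJ hne μ x hμ h hμP).ne
  -- `μ` is not a root of `q`
  have hqμ : (q.map φ).eval μ ≠ 0 := by
    intro h3
    have h4 := congrArg (fun r : Polynomial ℤ => μ * ((r.map φ).derivative).eval μ) hq
    simp only [Polynomial.map_sub, Polynomial.map_pow, Polynomial.map_X,
      Polynomial.map_mul, Polynomial.derivative_mul, Polynomial.derivative_sub,
      Polynomial.eval_sub, Polynomial.eval_add, Polynomial.eval_mul, h3,
      show (χ.map φ).eval μ = 0 from hμr, mul_zero, zero_mul, add_zero] at h4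
    rw [mul_sub, pf2_deriv, Polynomial.derivative_X_pow, Polynomial.eval_mul, Polynomial.eval_C,
      Polynomial.eval_pow, Polynomial.eval_X] at h4
    have h5 : μ * ((N : ℝ) * μ ^ (N - 1)) = (N : ℝ) * μ ^ N := by
      obtain ⟨M, rfl⟩ : ∃ M, N = M + 1 := ⟨N - 1, by omega⟩
      rw [Nat.add_sub_cancel, pow_succ]
      ring
    rw [h5, ← hμP] at h4
    have h6 : (J.map (fun j : ℕ => (j : ℝ) * μ ^ j)).sum <
        (J.map (fun j : ℕ => μ ^ j * (N : ℝ))).sum := by
      refine pf2_lt N J hJ hne _ _ fun j hj => ?_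
      have h7 : (j : ℝ) < N := by exact_mod_cast hj
      have h8 : 0 < μ ^ j := by positivity
      nlinarith
    rw [pf2_mul, mul_comm] at h6
    linarith
  have hqroot : ∀ x : ℝ, 0 < x → (q.map φ).eval x ≠ 0 := by
    intro x hx h3
    have h4 : x = μ := huniq x hx (by rw [hP, h3, mul_zero])
    rw [h4] at h3
    exact hqμ h3
  have hq1 : 0 < (q.map φ).eval 1 := by
    by_contra hneg
    have h3 : (q.map φ).eval 1 < 0 :=
      lt_of_le_of_ne (not_lt.1 hneg) (hqroot 1 one_pos)
    have hqm' : (q.map φ).Monic := hqm.map φ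
    have hdeg : 0 < (q.map φ).degree := by
      by_contra hd
      have h4 : (q.map φ).natDegree = 0 :=
        Polynomial.natDegree_eq_zero_iff_degree_le_zero.2 (not_lt.1 hd)
      have h5 : q.map φ = 1 := hqm'.natDegree_eq_zero.1 h4
      rw [h5, Polynomial.eval_one] at h3
      linarith
    have ht := Polynomial.tendsto_atTop_of_leadingCoeff_nonneg (q.map φ) hdeg
      (by rw [hqm'.leadingCoeff]; exact zero_le_one)
    obtain ⟨y, hy1, hy2⟩ := ((ht.eventually (Filter.eventually_gt_atTop (0 : ℝ))).and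
      (Filter.eventually_ge_atTop (1 : ℝ))).exists
    have hc : ContinuousOn (fun x => (q.map φ).eval x) (Set.Icc 1 y) :=
      (Polynomial.continuous _).continuousOn
    obtain ⟨z, hz, hz0⟩ := intermediate_value_Icc hy2 hc ⟨h3.le, hy1.le⟩
    exact hqroot z (by linarith [hz.1]) hz0
  have h3 := hP 1
  rw [one_pow, pf2_one] at h3
  have h4 : (1 : ℝ) - J.length < 0 := by
    have : (2 : ℝ) ≤ J.length := by exact_mod_cast h2
    linarith
  have h5 : (χ.map φ).eval 1 < 0 := by
    by_contra h6
    have h7 := mul_nonneg (not_lt.1 h6) hq1.le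
    linarith
  have h6 : (χ.map φ).eval 1 = ((χ.eval 1 : ℤ) : ℝ) := by
    rw [Polynomial.eval_map, Polynomial.eval₂_at_one]
    rfl
  rw [h6] at h5
  exact_mod_cast h5

end Cdm
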