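import Mathlib

/-!
# Sequences with a nonnegative trace recursion
-/

namespace Cdm

/-- Strong induction on `j`. -/
theorem s_nonneg (t s : ℕ → ℤ) (ht : ∀ k, 1 ≤ k → 0 ≤ t k) (h0 : s 0 = 1)
    (hrec : ∀ j : ℕ, (j : ℤ) * s j = ∑ k ∈ Finset.Icc 1 j, t k * s (j - k)) (j : ℕ) : 0 ≤ s j := by
  induction j using Nat.strong_induction_on with
  | _ j ih =>
    rcases Nat.eq_zero_or_pos j with h | h
    · rw [h, h0]
      exact zero_le_one
    · have h1 : 0 ≤ (j : ℤ) * s j := by
        rw [hrec j]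
        refine Finset.sum_nonneg fun k hk => ?_
        rw [Finset.mem_Icc] at hk
        exact mul_nonneg (ht k hk.1) (ih (j - k) (by omega))
      have h2 : (0 : ℤ) < j := by exact_mod_cast h
      exact nonneg_of_mul_nonneg_right h1 h2

/-- If `s 1 = ... = s (j-1) = 0 < s j` then `t j > 0`, so all `s (m j)` are positive (induction on `m`), and
every window of length `j` contains a multiple of `j`. -/
theorem s_window (t s : ℕ → ℤ) (ht : ∀ k, 1 ≤ k → 0 ≤ t k) (h0 : s 0 = 1)
    (hrec : ∀ j : ℕ, (j : ℤ) * s j = ∑ k ∈ Finset.Icc 1 j, t k * s (j - k))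
    (j : ℕ) (hj : 1 ≤ j) (hz : ∀ i, 1 ≤ i → i < j → s i = 0) (hp : 0 < s j) (i : ℕ) :
    0 < ∑ l ∈ Finset.range j, s (i + l) := by
  have hnn := s_nonneg t s ht h0 hrec
  have hj' : (0 : ℤ) < j := by exact_mod_cast hj
  have htj : 0 < t j := by
    have h1 := hrec j
    have h2 : ∑ k ∈ Finset.Icc 1 j, t k * s (j - k) = t j * s (j - j) := by
      refine Finset.sum_eq_single j ?_ ?_
      · intro k hk hkj
        rw [Finset.mem_Icc] at hk
        rw [hz (j - k) (by omega) (by omega), mul_zero]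
      · intro h
        exact absurd (Finset.mem_Icc.2 ⟨hj, le_rfl⟩) h
    rw [h2, Nat.sub_self, h0, mul_one] at h1
    rw [← h1]
    exact mul_pos hj' hp
  have hm : ∀ m : ℕ, 0 < s (m * j) := by
    intro m
    induction m with
    | zero =>
      rw [Nat.zero_mul, h0]
      exact zero_lt_one
    | succ m ih =>
      have h1 := hrec ((m + 1) * j)
      have hle : j ≤ (m + 1) * j := Nat.le_mul_of_pos_left j (Nat.succ_pos m)
      have h2 : t j * s ((m + 1) * j - j) ≤
          ∑ k ∈ Finset.Icc 1 ((m + 1) * j), t k * s ((m + 1) * j - k) := by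
        refine Finset.single_le_sum (f := fun k => t k * s ((m + 1) * j - k)) ?_
          (Finset.mem_Icc.2 ⟨hj, hle⟩)
        intro k hk
        rw [Finset.mem_Icc] at hk
        exact mul_nonneg (ht k hk.1) (hnn _)
      have h3 : (m + 1) * j - j = m * j := by
        rw [Nat.add_mul, Nat.one_mul, Nat.add_sub_cancel]
      rw [h3, ← h1] at h2
      have h4 : 0 < (((m + 1) * j : ℕ) : ℤ) * s ((m + 1) * j) :=
        lt_of_lt_of_le (mul_pos htj ih) h2
      exact pos_of_mul_pos_right h4 (Int.natCast_nonneg _)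
  have hl : ∃ l, l < j ∧ ∃ m, i + l = m * j := by
    refine ⟨(i + (j - 1)) / j * j - i, ?_, (i + (j - 1)) / j, ?_⟩
    · have h1 : (i + (j - 1)) / j * j ≤ i + (j - 1) := Nat.div_mul_le_self _ _
      omega
    · have h1 : i + (j - 1) < ((i + (j - 1)) / j + 1) * j := by
        have := Nat.lt_mul_div_succ (i + (j - 1)) hj
        rw [Nat.mul_comm]
        exact this
      have h2 : ((i + (j - 1)) / j + 1) * j = (i + (j - 1)) / j * j + j := by ring
      omega
  obtain ⟨l, hlj, m, hlm⟩ := hl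
  refine Finset.sum_pos' (fun k _ => hnn _) ⟨l, Finset.mem_range.2 hlj, ?_⟩
  rw [hlm]
  exact hm m

end Cdm
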