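import Pool.Agent.H.MP_374efc_lc.CD.Tr1

/-!
# The trace recursion for the coefficients of 1 / det (1 - X A)
-/

namespace Cdm

open PowerSeries

variable {n : ℕ}

/-- If `f * S = 1` for `f = det (1 - X A)`, `S = ∑ s_j X^j`, then `j s_j = ∑_(k=1..j) tr (A^k) s_(j-k)`.

Proof. Differentiate `f S = 1`: `f' S + f S' = 0`, so `X S' = - X f' S S = S ∑ tr (A^k) X^k` by `jacobi`
and `f S = 1`. Compare coefficients. -/
theorem trace_rec (A : Matrix (Fin n) (Fin n) ℤ) (s : ℕ → ℤ)
    (hs : (A.charpolyRev : PowerSeries ℤ) * PowerSeries.mk s = 1) (j : ℕ) :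
    (j : ℤ) * s j = ∑ k ∈ Finset.Icc 1 j, (A ^ k).trace * s (j - k) := by
  have hj := jacobi A
  rw [← PowerSeries.derivative_coe] at hj
  set f : PowerSeries ℤ := (A.charpolyRev : PowerSeries ℤ) with hf
  set S : PowerSeries ℤ := PowerSeries.mk s with hS
  set T : PowerSeries ℤ := PowerSeries.mk (fun k => if k = 0 then 0 else (A ^ k).trace) with hT
  have hd : f * PowerSeries.derivative ℤ S + S * PowerSeries.derivative ℤ f = 0 := by
    have h1 := congrArg (PowerSeries.derivative ℤ) hs
    rw [Derivation.leibniz, Derivation.map_one_eq_zero] at h1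
    simpa [smul_eq_mul] using h1
  have key : PowerSeries.X * PowerSeries.derivative ℤ S = T * S := by
    have h2 : PowerSeries.X * PowerSeries.derivative ℤ S =
        (f * S) * (PowerSeries.X * PowerSeries.derivative ℤ S) := by rw [hs, one_mul]
    have h3 : (f * S) * (PowerSeries.X * PowerSeries.derivative ℤ S) =
        S * (PowerSeries.X * (f * PowerSeries.derivative ℤ S)) := by ring
    have h4 : f * PowerSeries.derivative ℤ S = -(S * PowerSeries.derivative ℤ f) :=
      eq_neg_of_add_eq_zero_left hd
    rw [h2, h3, h4]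
    have h5 : S * (PowerSeries.X * -(S * PowerSeries.derivative ℤ f)) =
        S * S * (-(PowerSeries.X * PowerSeries.derivative ℤ f)) := by ring
    rw [h5, hj]
    calc S * S * (f * T) = (f * S) * (T * S) := by ring
      _ = T * S := by rw [hs, one_mul]
  have hc := congrArg (PowerSeries.coeff j) key
  rw [PowerSeries.coeff_mul j T S] at hc
  rcases Nat.eq_zero_or_pos j with h0 | h0
  · subst h0
    simp
  · obtain ⟨m, rfl⟩ : ∃ m, j = m + 1 := ⟨j - 1, by omega⟩
    rw [PowerSeries.coeff_succ_X_mul, PowerSeries.coeff_derivative, hS, PowerSeries.coeff_mk] at hc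
    rw [Finset.Nat.sum_antidiagonal_eq_sum_range_succ_mk] at hc
    have h6 : ∑ k ∈ Finset.range (m + 1).succ, (PowerSeries.coeff k T) *
        (PowerSeries.coeff (m + 1 - k) (PowerSeries.mk s)) =
        ∑ k ∈ Finset.Icc 1 (m + 1), (A ^ k).trace * s (m + 1 - k) := by
      rw [Finset.sum_range_eq_add_Ico _ (by omega)]
      have h7 : Finset.Ico 1 (m + 1).succ = Finset.Icc 1 (m + 1) := by
        ext x; simp
      rw [h7]
      simp only [hT, PowerSeries.coeff_mk, if_true, zero_mul, zero_add]
      apply Finset.sum_congr rfl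
      intro k hk
      rw [if_neg (by have := (Finset.mem_Icc.mp hk).1; omega)]
    simp only at hc
    rw [h6] at hc
    rw [← hc]
    push_cast
    ring

end Cdm
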