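import Pool.Agent.H.MP_374efc_lc.CD.Ab1b
import Pool.Agent.H.MP_374efc_lc.CD.Ab1c
import Pool.Agent.H.MP_374efc_lc.CD.Pf2
import Pool.Agent.H.MP_374efc_lc.CD.Sq1
import Pool.Agent.H.MP_374efc_lc.CD.Tr2

/-!
# Signs
-/

namespace Cdm

variable {n : ℕ}

theorem ab2_mat_nonneg (h : Fin n → List (Fin n)) (i j : Fin n) : 0 ≤ mat h i j := by
  unfold mat
  exact Int.natCast_nonneg _

theorem ab2_eval (J : List ℕ) :
    ((J.map (fun j => (Polynomial.X : Polynomial ℤ) ^ j)).sum).eval 0 = (J.count 0 : ℤ) := by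
  induction J with
  | nil => simp
  | cons a J ih =>
    rw [List.map_cons, List.sum_cons, Polynomial.eval_add, ih, Polynomial.eval_pow,
      Polynomial.eval_X, List.count_cons]
    rcases Nat.eq_zero_or_pos a with h | h
    · subst h
      simp
      ring
    · have h1 : (0 : ℤ) ^ a = 0 := zero_pow (by omega)
      have h2 : (a == 0) = false := by
        rw [beq_eq_false_iff_ne]
        omega
      rw [h1, h2]
      simp

theorem chi_neg {h : Fin n → List (Fin n)} {w : List (Fin n)} {N : ℕ} (H : HL h w N) :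
    (mat h).charpoly.eval 1 < 0 := by
  obtain ⟨J, hJ1, hJ2, hJ3, hJ4⟩ := H.lc
  exact chi_one_neg H.npos (mat h) (ab2_mat_nonneg h) N J hJ1 hJ2 hJ3 (chi_dvd h w H.uni N J hJ4)

/-- `χ` divides `p` (`chi_dvd`) and `p (0) < 0` since `0 ∈ J`. -/
theorem det_ne {h : Fin n → List (Fin n)} {w : List (Fin n)} {N : ℕ} (H : HL h w N) :
    (mat h).det ≠ 0 := by
  obtain ⟨J, hJ1, hJ2, hJ3, hJ4⟩ := H.lc
  intro h0
  obtain ⟨q, hq⟩ := chi_dvd h w H.uni N J hJ4
  have hN : 0 < N := hJ1 0 hJ2
  have h1 : (mat h).charpoly.eval 0 = 0 := by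
    rw [Matrix.det_eq_sign_charpoly_coeff] at h0
    have h2 : (mat h).charpoly.coeff 0 = 0 := by
      rcases mul_eq_zero.1 h0 with h3 | h3
      · exact absurd h3 (pow_ne_zero _ (by norm_num))
      · exact h3
    rw [← Polynomial.coeff_zero_eq_eval_zero]
    exact h2
  have h2 := congrArg (Polynomial.eval 0) hq
  rw [Polynomial.eval_mul, h1, zero_mul, Polynomial.eval_sub, ab2_eval, Polynomial.eval_pow,
    Polynomial.eval_X, zero_pow (by omega)] at h2
  have h3 : 0 < J.count 0 := List.count_pos_iff.2 hJ2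
  omega

/-- The sequence `s_j = η (w_(n-1+j))`. -/
noncomputable def ss (h : Fin n → List (Fin n)) (w : List (Fin n)) (j : ℕ) : ℤ :=
  eta h w (par (sq h w (n - 1 + j)))

theorem ss_zero {h : Fin n → List (Fin n)} {w : List (Fin n)} (hn : 0 < n)
    (hu : IsUnit (WM h w).det) : ss h w 0 = 1 := by
  unfold ss
  rw [Nat.add_zero, eta_tok h w hu (n - 1) (by omega), if_pos (by omega)]

theorem ab2_pow_nonneg (h : Fin n → List (Fin n)) (k : ℕ) : ∀ i j, 0 ≤ ((mat h) ^ k) i j := by
  induction k with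
  | zero =>
    intro i j
    rw [pow_zero, Matrix.one_apply]
    split_ifs <;> norm_num
  | succ k ih =>
    intro i j
    rw [pow_succ, Matrix.mul_apply]
    exact Finset.sum_nonneg fun l _ => mul_nonneg (ih i l) (ab2_mat_nonneg h l j)

/-- The traces of the powers of the nonnegative matrix `A` are nonnegative. -/
theorem trace_nonneg (h : Fin n → List (Fin n)) (k : ℕ) : 0 ≤ ((mat h) ^ k).trace :=
  Finset.sum_nonneg fun i _ => ab2_pow_nonneg h k i i

theorem ss_rec {h : Fin n → List (Fin n)} {w : List (Fin n)} (hn : 0 < n)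
    (hu : IsUnit (WM h w).det) (j : ℕ) :
    (j : ℤ) * ss h w j = ∑ k ∈ Finset.Icc 1 j, ((mat h) ^ k).trace * ss h w (j - k) :=
  trace_rec (mat h) (ss h w) (series_eta h w hn hu) j

theorem ab2_ss_nonneg {h : Fin n → List (Fin n)} {w : List (Fin n)} (hn : 0 < n)
    (hu : IsUnit (WM h w).det) (j : ℕ) : 0 ≤ ss h w j :=
  s_nonneg (fun k => ((mat h) ^ k).trace) (ss h w) (fun k _ => trace_nonneg h k) (ss_zero hn hu)
    (ss_rec hn hu) j

theorem eta_nonneg {h : Fin n → List (Fin n)} {w : List (Fin n)} (hn : 0 < n)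
    (hu : IsUnit (WM h w).det) (k : ℕ) : 0 ≤ eta h w (par (sq h w k)) := by
  by_cases hk : k < n
  · rw [eta_tok h w hu k hk]
    split_ifs <;> norm_num
  · have h1 := ab2_ss_nonneg (h := h) (w := w) hn hu (k - (n - 1))
    unfold ss at h1
    have h2 : n - 1 + (k - (n - 1)) = k := by omega
    rw [h2] at h1
    exact h1

/-- Induction on `k` (`psi_tok` for `k = 0`, `psi_mh`, `chi_neg`, `eta_nonneg`). -/
theorem psi_pos {h : Fin n → List (Fin n)} {w : List (Fin n)} {N : ℕ} (H : HL h w N) (k : ℕ) :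
    1 ≤ psi h w (par (sq h w k)) := by
  induction k with
  | zero => exact (psi_tok h w H.uni 0 H.npos).ge
  | succ k ih =>
    rw [par_sq_succ, psi_mh h w H.uni]
    have h1 := chi_neg H
    have h2 := eta_nonneg (h := h) (w := w) H.npos H.uni k
    nlinarith

theorem ab2_rev_eval (h : Fin n → List (Fin n)) :
    (mat h).charpolyRev.eval 1 = (mat h).charpoly.eval 1 := by
  letI : Invertible (1 : ℤ) := invertibleOne
  have h1 := Polynomial.eval₂_reverse_mul_pow (RingHom.id ℤ) (1 : ℤ) (mat h).charpoly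
  rw [invOf_one, one_pow, mul_one, Matrix.reverse_charpoly] at h1
  exact h1

/-- Some `s_j`, `j ≥ 1`, is positive: otherwise `∑ s_j X^j = 1`, `det (1 - X A) = 1` (`series_eta`) and
`χ(1) = det (1 - A) = 1`. -/
theorem exists_ss_pos {h : Fin n → List (Fin n)} {w : List (Fin n)} {N : ℕ} (H : HL h w N) :
    ∃ j, 1 ≤ j ∧ 0 < ss h w j ∧ ∀ i, 1 ≤ i → i < j → ss h w i = 0 := by
  classical
  have hnn := ab2_ss_nonneg (h := h) (w := w) H.npos H.uni
  have hex : ∃ j, 1 ≤ j ∧ 0 < ss h w j := by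
    by_contra hno
    push Not at hno
    have hz : ∀ j, 1 ≤ j → ss h w j = 0 := fun j hj => le_antisymm (hno j hj) (hnn j)
    have h1 : PowerSeries.mk (ss h w) = 1 := by
      ext j
      rw [PowerSeries.coeff_mk, PowerSeries.coeff_one]
      rcases Nat.eq_zero_or_pos j with h0 | h0
      · rw [h0, if_pos rfl]
        exact ss_zero H.npos H.uni
      · rw [if_neg (by omega)]
        exact hz j h0
    have h2 : ((mat h).charpolyRev : PowerSeries ℤ) * PowerSeries.mk (ss h w) = 1 :=
      series_eta h w H.npos H.uni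
    rw [h1, mul_one] at h2
    have h3 : (mat h).charpolyRev = 1 := by
      apply Polynomial.coe_injective
      rw [h2, Polynomial.coe_one]
    have h4 := ab2_rev_eval h
    rw [h3, Polynomial.eval_one] at h4
    have h5 := chi_neg H
    omega
  refine ⟨Nat.find hex, (Nat.find_spec hex).1, (Nat.find_spec hex).2, fun i hi hlt => ?_⟩
  have h6 := Nat.find_min hex hlt
  rw [not_and, not_lt] at h6
  exact le_antisymm (h6 hi) (hnn i)

/-- `η_j = η A^j`. -/
noncomputable def etj (h : Fin n → List (Fin n)) (w : List (Fin n)) : ℕ → (Lam n →+ ℤ)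
  | 0 => eta h w
  | j + 1 => (etj h w j).comp (mh h)

theorem etj_tok (h : Fin n → List (Fin n)) (w : List (Fin n)) (j k : ℕ) :
    etj h w j (par (sq h w k)) = eta h w (par (sq h w (k + j))) := by
  induction j generalizing k with
  | zero => rfl
  | succ j ih =>
    have h1 : etj h w (j + 1) (par (sq h w k)) = etj h w j (mh h (par (sq h w k))) := rfl
    rw [h1, ← par_sq_succ, ih]
    congr 3
    omega

end Cdm
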