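import Mathlib

/-!
# MP_374efc, code dichotomy from GOOD: definitions

Words over the alphabet `Fin n` are lists. `ext h` is the extension of a map `h : Fin n → List (Fin n)`
to words, `sq h w k` is the `k`-th word of the D0L sequence of `(h, w)`. `Lam n = ℤ^n`, `RR n` is the
group ring `ℤ[ℤ^n]` (Laurent polynomials), `X v` its monomials, `par u` the Parikh vector of `u`,
`fox u` the vector of the commutative (left) Fox derivatives of `u`:
`fox u a = ∑ X (par u')` over all factorisations `u = u' a u''`.
-/

namespace Cdm

/-- The lattice `ℤ^n`. -/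
abbrev Lam (n : ℕ) := Fin n → ℤ

/-- The group ring of `ℤ^n` over `ℤ`. -/
abbrev RR (n : ℕ) := AddMonoidAlgebra ℤ (Lam n)

variable {n : ℕ}

/-- The monomial with exponent `v`. -/
noncomputable def X (v : Lam n) : RR n := AddMonoidAlgebra.single v 1

/-- The extension of a map on letters to words. -/
def ext (h : Fin n → List (Fin n)) (u : List (Fin n)) : List (Fin n) := u.flatMap h

/-- The D0L sequence. -/
def sq (h : Fin n → List (Fin n)) (w : List (Fin n)) : ℕ → List (Fin n)
  | 0 => w
  | k + 1 => ext h (sq h w k)

/-- The Parikh vector. -/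
def par (u : List (Fin n)) : Lam n := fun a => (u.count a : ℤ)

/-- The matrix of `h`. -/
def mat (h : Fin n → List (Fin n)) : Matrix (Fin n) (Fin n) ℤ := fun a b => ((h b).count a : ℤ)

/-- The action of the matrix of `h` on `ℤ^n`, as an additive map. -/
def mh (h : Fin n → List (Fin n)) : Lam n →+ Lam n := (Matrix.mulVecLin (mat h)).toAddMonoidHom

/-- The ring homomorphism `X v ↦ X (A v)`. -/
noncomputable def hs (h : Fin n → List (Fin n)) : RR n →+* RR n :=
  AddMonoidAlgebra.mapDomainRingHom ℤ (mh h)

/-- The ring homomorphism `X v ↦ X (-v)`. -/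
noncomputable def bar : RR n →+* RR n :=
  AddMonoidAlgebra.mapDomainRingHom ℤ (-AddMonoidHom.id (Lam n))

/-- The Fox vector of a word (left derivatives, commuting variables). -/
noncomputable def fox : List (Fin n) → (Fin n → RR n)
  | [] => 0
  | a :: u => Pi.single a 1 + X (par [a]) • fox u

/-- The matrix with rows the Fox vectors of a family of words. -/
noncomputable def FM {ι : Type*} (w : ι → List (Fin n)) : Matrix ι (Fin n) (RR n) := fun i => fox (w i)

/-- `J`: the determinant of the Fox vectors of `w_0, ..., w_(n-1)`. -/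
noncomputable def JJ (h : Fin n → List (Fin n)) (w : List (Fin n)) : RR n :=
  (FM (fun i : Fin n => sq h w i)).det

/-- `D_h`: the determinant of the Fox vectors of the words `h a`. -/
noncomputable def DD (h : Fin n → List (Fin n)) : RR n := (FM h).det

/-- The integer matrix with columns the Parikh vectors of `w_0, ..., w_(n-1)`. -/
def WM (h : Fin n → List (Fin n)) (w : List (Fin n)) : Matrix (Fin n) (Fin n) ℤ :=
  fun a i => par (sq h w i) a

/-- All exponents of `f` lie in `P`. -/
def Su (P : Set (Lam n)) (f : RR n) : Prop := ∀ v, f.coeff v ≠ 0 → v ∈ P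

/-- The word of a list of tokens. -/
def pw (h : Fin n → List (Fin n)) (w : List (Fin n)) (U : List ℕ) : List (Fin n) :=
  U.flatMap (sq h w)

/-- `w_N` is a product of words `w_j` with `j < N`; `w_0` occurs; at least two factors. -/
def LC (h : Fin n → List (Fin n)) (w : List (Fin n)) (N : ℕ) : Prop :=
  ∃ J : List ℕ, (∀ j ∈ J, j < N) ∧ 0 ∈ J ∧ 2 ≤ J.length ∧ sq h w N = pw h w J

/-- `GOOD'` on the left: every token `k` with `n ≤ k < N` has a parent `p k` of smaller rank with a
relation `w_k u = w_(p k) v`, `u, v` products of tokens. -/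
def LGood (h : Fin n → List (Fin n)) (w : List (Fin n)) (N : ℕ) : Prop :=
  ∃ p r : ℕ → ℕ, ∀ k, n ≤ k → k < N → p k < N ∧ r (p k) < r k ∧
    ∃ U V : List ℕ, (∀ i ∈ U, i < N) ∧ (∀ i ∈ V, i < N) ∧ pw h w (k :: V) = pw h w (p k :: U)

/-- The reversed morphism. -/
def rv (h : Fin n → List (Fin n)) : Fin n → List (Fin n) := fun a => (h a).reverse

/-- The one-sided hypotheses (left side). -/
structure HL (h : Fin n → List (Fin n)) (w : List (Fin n)) (N : ℕ) : Prop where
  /-- `n` is positive -/
  npos : 0 < n
  /-- `N` is at least `n` -/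
  nN : n ≤ N
  /-- `h` is nonerasing -/
  ne : ∀ a, h a ≠ []
  /-- the axiom is nonempty -/
  wne : w ≠ []
  /-- the catenation formula -/
  lc : LC h w N
  /-- the first letters of `w_0, ..., w_(n-1)` are distinct -/
  first : ∀ i j : Fin n, (sq h w i).head? = (sq h w j).head? → i = j
  /-- unimodularity -/
  uni : IsUnit (WM h w).det
  /-- the group generated by the tokens is the free group on the alphabet -/
  gen : ∀ a : Fin n, FreeGroup.of a ∈ Subgroup.closure
    (Set.range (fun k : Fin N => ((sq h w k).map FreeGroup.of).prod))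
  /-- good relations -/
  good : LGood h w N

end Cdm
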