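import Pool.Agent.H.MP_374efc_lc.CD.Defs

/-!
# Words, Parikh vectors, monomials
-/

namespace Cdm

variable {n : ℕ}

@[simp] theorem ext_nil (h : Fin n → List (Fin n)) : ext h [] = [] := rfl

theorem ext_append (h : Fin n → List (Fin n)) (u v : List (Fin n)) :
    ext h (u ++ v) = ext h u ++ ext h v := by
  simp [ext]

@[simp] theorem par_nil : par ([] : List (Fin n)) = 0 := by
  funext a; simp [par]

theorem par_append (u v : List (Fin n)) : par (u ++ v) = par u + par v := by
  funext a; simp [par]

theorem par_nonneg (u : List (Fin n)) (a : Fin n) : 0 ≤ par u a := by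
  simp [par]

theorem fx1_par_cons (b : Fin n) (u : List (Fin n)) : par (b :: u) = Pi.single b 1 + par u := by
  funext a
  simp only [par, Pi.add_apply, List.count_cons, Pi.single_apply, beq_iff_eq]
  by_cases hab : b = a
  · subst hab
    simp
    ring
  · have hab' : ¬ a = b := fun h => hab h.symm
    simp [hab, hab']

theorem fx1_mh_single (h : Fin n → List (Fin n)) (b : Fin n) :
    mh h (Pi.single b 1) = par (h b) := by
  have e : mh h (Pi.single b 1) = Matrix.mulVec (mat h) (Pi.single b 1) := rfl
  rw [e, Matrix.mulVec_single_one]
  rfl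

/-- `par (h u) = A (par u)`: induction on `u`; `par (h b)` is the column `b` of `mat h`. -/
theorem par_ext (h : Fin n → List (Fin n)) (u : List (Fin n)) : par (ext h u) = mh h (par u) := by
  induction u with
  | nil => rw [ext_nil, par_nil, map_zero]
  | cons b u ih =>
    have e : ext h (b :: u) = h b ++ ext h u := by simp [ext]
    rw [e, par_append, ih, fx1_par_cons, map_add, fx1_mh_single]

/-- The sum of the coordinates of the Parikh vector is the length. -/
theorem sum_par (u : List (Fin n)) : ∑ a, par u a = (u.length : ℤ) := by
  induction u with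
  | nil => simp
  | cons b u ih =>
    rw [fx1_par_cons]
    simp only [Pi.add_apply, Finset.sum_add_distrib, ih, List.length_cons]
    rw [Finset.sum_pi_single']
    simp
    ring

theorem X_zero : X (0 : Lam n) = 1 := rfl

theorem X_add (u v : Lam n) : X (u + v) = X u * X v := by
  unfold X
  rw [AddMonoidAlgebra.single_mul_single, mul_one]

theorem hs_X (h : Fin n → List (Fin n)) (v : Lam n) : hs h (X v) = X (mh h v) := by
  unfold hs X
  exact AddMonoidAlgebra.mapDomain_single

theorem bar_X (v : Lam n) : bar (X v) = X (-v) := by
  unfold bar X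
  exact AddMonoidAlgebra.mapDomain_single

@[simp] theorem pw_nil (h : Fin n → List (Fin n)) (w : List (Fin n)) : pw h w [] = [] := rfl

theorem pw_cons (h : Fin n → List (Fin n)) (w : List (Fin n)) (k : ℕ) (U : List ℕ) :
    pw h w (k :: U) = sq h w k ++ pw h w U := rfl

theorem pw_append (h : Fin n → List (Fin n)) (w : List (Fin n)) (U V : List ℕ) :
    pw h w (U ++ V) = pw h w U ++ pw h w V := by
  simp [pw]

/-- Applying `h` to a product of tokens increases all the indices by one. -/
theorem ext_pw (h : Fin n → List (Fin n)) (w : List (Fin n)) (U : List ℕ) :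
    ext h (pw h w U) = pw h w (U.map (· + 1)) := by
  induction U with
  | nil => rfl
  | cons k U ih =>
    rw [pw_cons, ext_append, ih, List.map_cons, pw_cons]
    rfl

theorem sq_ne (h : Fin n → List (Fin n)) (w : List (Fin n)) (hne : ∀ a, h a ≠ []) (hw : w ≠ [])
    (k : ℕ) : sq h w k ≠ [] := by
  induction k with
  | zero => exact hw
  | succ k ih =>
    obtain ⟨a, u, hu⟩ := List.exists_cons_of_ne_nil ih
    have e : sq h w (k + 1) = h a ++ ext h u := by
      change ext h (sq h w k) = _
      rw [hu]
      simp [ext]
    rw [e]
    intro hcon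
    exact hne a (List.append_eq_nil_iff.1 hcon).1

end Cdm
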