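import Pool.Agent.H.MP_374efc_lc.CD.Fx1

/-!
# Fox vectors and the chain rule
-/

namespace Cdm

variable {n : ℕ}

@[simp] theorem fox_nil : fox ([] : List (Fin n)) = 0 := rfl

theorem fx1b_cons (a : Fin n) (u : List (Fin n)) :
    fox (a :: u) = Pi.single a 1 + X (par [a]) • fox u := rfl

/-- Induction on `u`, `X_add`. -/
theorem fox_append (u v : List (Fin n)) : fox (u ++ v) = fox u + X (par u) • fox v := by
  induction u with
  | nil => rw [List.nil_append, par_nil, X_zero, one_smul, fox_nil, zero_add]
  | cons a u ih =>
    have h1 : par (a :: u) = par [a] + par u := par_append [a] u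
    rw [List.cons_append, fx1b_cons, fx1b_cons, ih, h1, X_add, smul_add, mul_smul, add_assoc]

theorem fox_single (a : Fin n) : fox [a] = Pi.single a 1 := by
  rw [fx1b_cons, fox_nil, smul_zero, add_zero]

/-- The chain rule: `fox (h u) = ∑_b h^*(fox u b) fox (h b)`. Induction on `u` (`fox_append`,
`par_ext`, `hs_X`). -/
theorem fox_ext (h : Fin n → List (Fin n)) (u : List (Fin n)) :
    fox (ext h u) = Matrix.vecMul (fun b => hs h (fox u b)) (FM h) := by
  induction u with
  | nil =>
    have h1 : (fun b => hs h (fox ([] : List (Fin n)) b)) = (0 : Fin n → RR n) := by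
      funext b
      rw [fox_nil, Pi.zero_apply, map_zero]
    rw [ext_nil, h1, Matrix.zero_vecMul, fox_nil]
  | cons a u ih =>
    have h1 : ext h (a :: u) = h a ++ ext h u := rfl
    have h2 : mh h (par [a]) = par (h a) := by
      rw [← par_ext]
      congr 1
      show [a].flatMap h = h a
      simp
    have h3 : (fun b => hs h (fox (a :: u) b)) =
        Pi.single a 1 + X (par (h a)) • (fun b => hs h (fox u b)) := by
      funext b
      rw [fx1b_cons, Pi.add_apply, Pi.smul_apply, smul_eq_mul, map_add, map_mul, hs_X, h2,
        Pi.add_apply, Pi.smul_apply, smul_eq_mul]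
      congr 1
      by_cases hb : b = a
      · rw [hb, Pi.single_eq_same, map_one]
      · rw [Pi.single_eq_of_ne hb, map_zero]
    rw [h1, fox_append, ih, h3, Matrix.add_vecMul, Matrix.smul_vecMul, Matrix.single_one_vecMul]
    rfl

/-- `hs h` maps the matrix of Fox vectors of words `u i` to the one of the words `h (u i)`. -/
theorem FM_ext {ι : Type*} (h : Fin n → List (Fin n)) (u : ι → List (Fin n)) :
    FM (fun i => ext h (u i)) = (FM u).map (hs h) * FM h := by
  funext i
  rw [Matrix.mul_apply_eq_vecMul]
  exact fox_ext h (u i)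

end Cdm
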