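import Pool.Agent.H.MP_374efc_lc.CD.Fx1b
import Pool.Agent.H.MP_374efc_lc.CD.Va3

/-!
# Exponents, constant terms and evaluation at one of Fox vectors
-/

namespace Cdm

variable {n : ℕ}

theorem fx2_cons (b : Fin n) (u : List (Fin n)) (a : Fin n) :
    fox (b :: u) a = (if a = b then 1 else 0) + X (par [b]) * fox u a := by
  show ((Pi.single b (1 : RR n) + X (par [b]) • fox u : Fin n → RR n)) a = _
  rw [Pi.add_apply, Pi.smul_apply, Pi.single_apply, smul_eq_mul]

theorem fx2_par_cons (b : Fin n) (u : List (Fin n)) : par (b :: u) = par [b] + par u :=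
  par_append [b] u

theorem fx2_par_single (b a : Fin n) : par [b] a = if a = b then 1 else 0 := by
  unfold par
  rw [List.count_singleton]
  by_cases hab : a = b
  · subst hab
    simp
  · rw [if_neg hab]
    have : ¬ (b == a) = true := by
      intro h
      exact hab (eq_of_beq h).symm
    simp [this]

/-- The exponents of the entries of `fox u` are Parikh vectors, so nonnegative. Induction on `u`. -/
theorem fox_nonneg (u : List (Fin n)) (a : Fin n) : Su {v | ∀ b, 0 ≤ v b} (fox u a) := by
  induction u with
  | nil => exact Su_zero _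
  | cons b u ih =>
    rw [fx2_cons]
    refine Su_add ?_ (Su_mul (P := {v | ∀ b, 0 ≤ v b}) (Q := {v | ∀ b, 0 ≤ v b}) ?_ ?_ ih)
    · split_ifs
      · exact Su_one fun c => le_rfl
      · exact Su_zero _
    · intro p hp q hq c
      exact add_nonneg (hp c) (hq c)
    · exact Su_X fun c => par_nonneg [b] c

/-- The constant coefficient of `fox u a` is one if `u` starts with `a`, else zero. -/
theorem fox_zero (u : List (Fin n)) (a : Fin n) :
    (fox u a).coeff 0 = if u.head? = some a then 1 else 0 := by
  cases u with
  | nil => simp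
  | cons b u =>
    have h1 : Su {v : Lam n | 1 ≤ v b} (X (par [b]) * fox u a) := by
      refine Su_mul (P := {v | 1 ≤ v b}) (Q := {v | ∀ c, 0 ≤ v c}) ?_ ?_ (fox_nonneg u a)
      · intro p hp q hq
        have h1 : 1 ≤ p b := hp
        have h2 : 0 ≤ q b := hq b
        show 1 ≤ p b + q b
        linarith
      · refine Su_X ?_
        show 1 ≤ par [b] b
        rw [fx2_par_single, if_pos rfl]
    have h2 : (X (par [b]) * fox u a).coeff 0 = 0 := by
      by_contra h
      have h3 : (1 : ℤ) ≤ (0 : Lam n) b := h1 0 h
      simp at h3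
    rw [fx2_cons, AddMonoidAlgebra.coeff_add, Finsupp.add_apply, h2, add_zero, List.head?_cons]
    by_cases hab : a = b
    · subst hab
      simp [AddMonoidAlgebra.one_def]
    · rw [if_neg hab, if_neg (fun h => hab (Option.some.inj h).symm)]
      rfl

/-- Evaluation at one gives the Parikh vector. -/
theorem aug_fox (u : List (Fin n)) (a : Fin n) : aug (fox u a) = par u a := by
  induction u with
  | nil => simp
  | cons b u ih =>
    rw [fx2_cons, map_add, map_mul, aug_X, one_mul, ih, fx2_par_cons, Pi.add_apply,
      fx2_par_single]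
    congr 1
    split_ifs
    · exact map_one aug
    · exact map_zero aug

/-- The submonoid of the nonnegative vectors. -/
def fx2_sub (n : ℕ) : AddSubmonoid (Lam n) where
  carrier := {v | ∀ b, 0 ≤ v b}
  zero_mem' := fun _ => le_rfl
  add_mem' := fun hp hq c => add_nonneg (hp c) (hq c)

theorem JJ_nonneg (h : Fin n → List (Fin n)) (w : List (Fin n)) :
    Su {v | ∀ b, 0 ≤ v b} (JJ h w) :=
  Su_det (P := fx2_sub n) _ fun i j => fox_nonneg (sq h w i) j

theorem DD_nonneg (h : Fin n → List (Fin n)) : Su {v | ∀ b, 0 ≤ v b} (DD h) :=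
  Su_det (P := fx2_sub n) _ fun i j => fox_nonneg (h i) j

/-- `J(1) = det` of the matrix of the Parikh vectors (transposed). -/
theorem aug_JJ (h : Fin n → List (Fin n)) (w : List (Fin n)) : aug (JJ h w) = (WM h w).det := by
  unfold JJ
  rw [RingHom.map_det, ← Matrix.det_transpose]
  congr 1
  ext a i
  exact aug_fox (sq h w i) a

theorem aug_DD (h : Fin n → List (Fin n)) : aug (DD h) = (mat h).det := by
  unfold DD
  rw [RingHom.map_det, ← Matrix.det_transpose]
  congr 1
  ext a i
  exact aug_fox (h i) a

end Cdm
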