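import Pool.Agent.H.MP_374efc_lc.CD.Va1

/-!
# The minimum of a linear functional on the support is additive
-/

namespace Cdm

variable {n : ℕ}

/-- The minimum of `θ` on the support of `f` is `c`. -/
def Mn (θ : Lam n →+ ℤ) (f : RR n) (c : ℤ) : Prop :=
  (∀ v, f.coeff v ≠ 0 → c ≤ θ v) ∧ ∃ v, f.coeff v ≠ 0 ∧ θ v = c

theorem va1b_ne {f : RR n} (hf : f ≠ 0) : ∃ v, f.coeff v ≠ 0 := by
  by_contra h
  push Not at h
  apply hf
  rw [← AddMonoidAlgebra.coeff_eq_zero]
  exact Finsupp.ext h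

theorem va1b_zero {f : RR n} {v : Lam n} (hv : f.coeff v ≠ 0) : f ≠ 0 := by
  rintro rfl
  exact hv rfl

/-- A nonempty finite set of integers has a minimum. -/
theorem exists_Mn (θ : Lam n →+ ℤ) (f : RR n) (hf : f ≠ 0) : ∃ c, Mn θ f c := by
  obtain ⟨v, hv⟩ := va1b_ne hf
  obtain ⟨x, hx, hmin⟩ := Finset.exists_min_image f.coeff.support θ
    ⟨v, Finsupp.mem_support_iff.2 hv⟩
  exact ⟨θ x, fun w hw => hmin w (Finsupp.mem_support_iff.2 hw),
    x, Finsupp.mem_support_iff.1 hx, rfl⟩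

theorem Mn_unique {θ : Lam n →+ ℤ} {f : RR n} {c d : ℤ} (hc : Mn θ f c) (hd : Mn θ f d) :
    c = d := by
  obtain ⟨h1, v, hv, hvc⟩ := hc
  obtain ⟨h2, w, hw, hwd⟩ := hd
  have h3 := h1 w hw
  have h4 := h2 v hv
  omega

theorem Mn_ne_zero {θ : Lam n →+ ℤ} {f : RR n} {c : ℤ} (hc : Mn θ f c) : f ≠ 0 := by
  obtain ⟨-, v, hv, -⟩ := hc
  exact va1b_zero hv

/-- splitting off the part of lowest degree -/
theorem va1b_split {θ : Lam n →+ ℤ} {f : RR n} {c : ℤ} (hf : Mn θ f c) :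
    ∃ f0 f1 : RR n, f = f0 + f1 ∧ f0 ≠ 0 ∧ Su {v | θ v = c} f0 ∧ Su {v | c + 1 ≤ θ v} f1 := by
  classical
  obtain ⟨h1, v, hv, hvc⟩ := hf
  refine ⟨AddMonoidAlgebra.ofCoeff (f.coeff.filter (fun v => θ v = c)),
    AddMonoidAlgebra.ofCoeff (f.coeff.filter (fun v => ¬ θ v = c)), ?_, ?_, ?_, ?_⟩
  · rw [← AddMonoidAlgebra.ofCoeff_add, Finsupp.filter_add_filter_not]
  · apply va1b_zero (v := v)
    rw [AddMonoidAlgebra.coeff_ofCoeff, Finsupp.filter_apply_pos (fun v => θ v = c) _ hvc]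
    exact hv
  · intro w hw
    rw [AddMonoidAlgebra.coeff_ofCoeff] at hw
    by_contra h
    exact hw (Finsupp.filter_apply_neg (fun v => θ v = c) _ h)
  · intro w hw
    rw [AddMonoidAlgebra.coeff_ofCoeff] at hw
    have h2 : ¬ θ w = c := by
      intro h
      exact hw (Finsupp.filter_apply_neg (fun v => ¬ θ v = c) _ (not_not.2 h))
    rw [Finsupp.filter_apply_pos (fun v => ¬ θ v = c) _ h2] at hw
    have h3 := h1 w hw
    show c + 1 ≤ θ w
    omega

/-- The minimum of a linear functional is additive.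

Proof. `≥` is `Su_mul`. Let `f₀` (`g₀`) be the part of `f` (`g`) of degree `θ = c` (`θ = d`) (the
`Finsupp.filter` of the coefficients). `f₀ ≠ 0`, `g₀ ≠ 0`, so `f₀ g₀ ≠ 0` (the group ring of `ℤ^n` has no
zero divisors: instance `NoZeroDivisors` from `UniqueSums`). `f = f₀ + f₁`, `g = g₀ + g₁` with `θ > c`
(`θ > d`) on the exponents of `f₁` (`g₁`), so `f g - f₀ g₀` has only exponents with `θ > c + d` and
`f₀ g₀` only exponents with `θ = c + d`: the coefficients of `f g` and `f₀ g₀` agree at the exponents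
with `θ = c + d`. -/
theorem Mn_mul {θ : Lam n →+ ℤ} {f g : RR n} {c d : ℤ} (hf : Mn θ f c) (hg : Mn θ g d) :
    Mn θ (f * g) (c + d) := by
  refine ⟨?_, ?_⟩
  · have h1 : Su {v | c ≤ θ v} f := hf.1
    have h2 : Su {v | d ≤ θ v} g := hg.1
    have h3 : Su {v | c + d ≤ θ v} (f * g) := by
      refine Su_mul ?_ h1 h2
      intro p hp q hq
      show c + d ≤ θ (p + q)
      rw [map_add]
      exact add_le_add hp hq
    exact h3
  · obtain ⟨f0, f1, ef, f0n, sf0, sf1⟩ := va1b_split hf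
    obtain ⟨g0, g1, eg, g0n, sg0, sg1⟩ := va1b_split hg
    have hgd : Su {v | d ≤ θ v} g := hg.1
    obtain ⟨v, hv⟩ := va1b_ne (mul_ne_zero f0n g0n)
    have s0 : Su {v | θ v = c + d} (f0 * g0) := by
      refine Su_mul ?_ sf0 sg0
      intro p hp q hq
      show θ (p + q) = c + d
      rw [map_add, hp, hq]
    have hvθ : θ v = c + d := s0 v hv
    have s1 : Su {v | c + d + 1 ≤ θ v} (f0 * g1) := by
      refine Su_mul ?_ sf0 sg1
      intro p hp q hq
      have hp' : θ p = c := hp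
      have hq' : d + 1 ≤ θ q := hq
      show c + d + 1 ≤ θ (p + q)
      rw [map_add]
      omega
    have s2 : Su {v | c + d + 1 ≤ θ v} (f1 * g) := by
      refine Su_mul ?_ sf1 hgd
      intro p hp q hq
      have hp' : c + 1 ≤ θ p := hp
      have hq' : d ≤ θ q := hq
      show c + d + 1 ≤ θ (p + q)
      rw [map_add]
      omega
    have hz : ∀ k : RR n, Su {v | c + d + 1 ≤ θ v} k → k.coeff v = 0 := by
      intro k hk
      by_contra h
      have h1 : c + d + 1 ≤ θ v := hk v h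
      omega
    have e : f * g = f0 * g0 + f0 * g1 + f1 * g := by
      calc f * g = (f0 + f1) * g := by rw [← ef]
        _ = f0 * g + f1 * g := add_mul _ _ _
        _ = f0 * (g0 + g1) + f1 * g := by rw [← eg]
        _ = f0 * g0 + f0 * g1 + f1 * g := by rw [mul_add]
    refine ⟨v, ?_, hvθ⟩
    rw [e, AddMonoidAlgebra.coeff_add, AddMonoidAlgebra.coeff_add, Finsupp.add_apply,
      Finsupp.add_apply, hz _ s1, hz _ s2, add_zero, add_zero]
    exact hv

theorem Mn_one (θ : Lam n →+ ℤ) : Mn θ (1 : RR n) 0 := by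
  have h1 : Su {v : Lam n | 0 ≤ θ v} (1 : RR n) := Su_one (by
    show 0 ≤ θ 0
    rw [map_zero])
  refine ⟨h1, 0, ?_, map_zero θ⟩
  rw [AddMonoidAlgebra.coeff_one_zero]
  exact one_ne_zero

theorem Mn_pow {θ : Lam n →+ ℤ} {f : RR n} {c : ℤ} (hf : Mn θ f c) (m : ℕ) :
    Mn θ (f ^ m) (m * c) := by
  induction m with
  | zero =>
    rw [pow_zero, Nat.cast_zero, zero_mul]
    exact Mn_one θ
  | succ m ih =>
    have h := Mn_mul ih hf
    rw [pow_succ, Nat.cast_succ, add_mul, one_mul]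
    exact h

end Cdm
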