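import Pool.Agent.H.MP_374efc_lc.CD.Fx2
import Pool.Agent.H.MP_374efc_lc.CD.Va1b

/-!
# The constant coefficient of J; the homomorphism h^*
-/

namespace Cdm

variable {n : ℕ}

/-- determinant of the matrix of an injective selection -/
theorem fx3_det (f : Fin n → Fin n) (hf : Function.Injective f) :
    IsUnit (Matrix.det (fun i a : Fin n => if f i = a then (1 : ℤ) else 0)) := by
  have hb : Function.Bijective f := Finite.injective_iff_bijective.1 hf
  have h : (fun i a : Fin n => if f i = a then (1 : ℤ) else 0) =
      Equiv.Perm.permMatrix ℤ (Equiv.ofBijective f hb) := by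
    funext i a
    rw [Equiv.Perm.permMatrix, PEquiv.toMatrix_apply, Equiv.toPEquiv_apply,
      Equiv.ofBijective_apply]
    simp [eq_comm]
  rw [h, Matrix.det_permutation]
  simpa using (Equiv.Perm.sign (Equiv.ofBijective f hb)).isUnit

/-- The constant coefficient of `J` is a unit: by `ez_len` and `ez_det` it is the determinant of the
matrix of the constant coefficients of the Fox vectors, which is the matrix of a permutation (the
first letters of `w_0, ..., w_(n-1)` are distinct, all the words are nonempty). -/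
theorem JJ_zero (h : Fin n → List (Fin n)) (w : List (Fin n)) (hne : ∀ a, h a ≠ []) (hw : w ≠ [])
    (hf : ∀ i j : Fin n, (sq h w i).head? = (sq h w j).head? → i = j) :
    IsUnit ((JJ h w).coeff 0) := by
  have hsub : {v : Lam n | ∀ b, 0 ≤ v b} ⊆ {v | 0 ≤ len v} := by
    intro v hv
    show 0 ≤ ∑ a, v a
    exact Finset.sum_nonneg fun a _ => hv a
  have hhead : ∀ i : Fin n, ∃ a, (sq h w i).head? = some a := by
    intro i
    have h1 := sq_ne h w hne hw i
    exact ⟨(sq h w i).head h1, List.head?_eq_some_head h1⟩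
  choose f hf' using hhead
  have hinj : Function.Injective f := fun i j hij => hf i j (by rw [hf', hf', hij])
  rw [← ez_len (JJ_nonneg h w), JJ,
    ez_det (FM (fun i : Fin n => sq h w i)) fun (i j : Fin n) =>
      Su_mono hsub (fox_nonneg (sq h w i) j)]
  have he : (FM (fun i : Fin n => sq h w i)).map (ez len) =
      fun i a : Fin n => if f i = a then (1 : ℤ) else 0 := by
    funext i a
    rw [Matrix.map_apply, FM, ez_len (fox_nonneg _ _), fox_zero, hf']
    simp only [Option.some.injEq]
  rw [he]
  exact fx3_det f hinj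

theorem JJ_ne (h : Fin n → List (Fin n)) (w : List (Fin n)) (hu : IsUnit (WM h w).det) :
    JJ h w ≠ 0 := by
  intro h0
  rw [← aug_JJ, h0, map_zero] at hu
  exact not_isUnit_zero hu

theorem fx3_coeff (h : Fin n → List (Fin n)) (f : RR n) :
    (hs h f).coeff = Finsupp.mapDomain (mh h) f.coeff := rfl

/-- `hs h` is injective if `A` is injective, in particular it maps nonzero elements to nonzero
elements; and `θ` on the exponents of `hs h f` is `θ A` on the exponents of `f`. -/
theorem hs_Su {P Q : Set (Lam n)} (h : Fin n → List (Fin n)) (hPQ : ∀ v ∈ P, mh h v ∈ Q) {f : RR n}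
    (hf : Su P f) : Su Q (hs h f) := by
  classical
  intro v hv
  rw [fx3_coeff] at hv
  have h1 := Finsupp.mapDomain_support (Finsupp.mem_support_iff.2 hv)
  obtain ⟨u, hu, rfl⟩ := Finset.mem_image.1 h1
  exact hPQ u (hf u (Finsupp.mem_support_iff.1 hu))

theorem fx3_inj (h : Fin n → List (Fin n)) (hd : (mat h).det ≠ 0) :
    Function.Injective (mh h) := by
  rw [injective_iff_map_eq_zero]
  intro v hv
  exact Matrix.eq_zero_of_mulVec_eq_zero hd hv

/-- If `det A ≠ 0` then `hs h` shifts the minima: the exponents of `hs h f` are exactly the vectors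
`A v`, `v` an exponent of `f`. -/
theorem Mn_hs {θ : Lam n →+ ℤ} (h : Fin n → List (Fin n)) (hd : (mat h).det ≠ 0) {f : RR n} {c : ℤ}
    (hf : Mn (θ.comp (mh h)) f c) : Mn θ (hs h f) c := by
  obtain ⟨h1, v, hv, hvc⟩ := hf
  refine ⟨?_, mh h v, ?_, hvc⟩
  · exact hs_Su (P := {v | c ≤ θ (mh h v)}) (Q := {v | c ≤ θ v}) h (fun v hv => hv)
      (fun v hv => h1 v hv)
  · rw [fx3_coeff, Finsupp.mapDomain_apply (fx3_inj h hd)]
    exact hv

end Cdm
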