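import Pool.Agent.H.MP_374efc_lc.CD.Fx1b

/-!
# The Fox vectors of generators of the free group generate
-/

namespace Cdm

variable {n : ℕ}

theorem gn1_smul_smul (p : Lam n) (v : Fin n → RR n) : X (-p) • X p • v = v := by
  rw [smul_smul, ← X_add, neg_add_cancel, X_zero, one_smul]

theorem gn1_smul_smul' (p : Lam n) (v : Fin n → RR n) : X p • X (-p) • v = v := by
  rw [smul_smul, ← X_add, add_neg_cancel, X_zero, one_smul]

/-- The permutation `v ↦ e_a + X(a) v` of `(RR n)^n`. -/
noncomputable def Ta (a : Fin n) : Equiv.Perm (Fin n → RR n) where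
  toFun v := Pi.single a 1 + X (par [a]) • v
  invFun v := X (-par [a]) • (v - Pi.single a 1)
  left_inv v := by
    beta_reduce
    rw [add_sub_cancel_left, gn1_smul_smul]
  right_inv v := by
    beta_reduce
    rw [gn1_smul_smul', add_sub_cancel]

/-- The action of the free group. -/
noncomputable def TT : FreeGroup (Fin n) →* Equiv.Perm (Fin n → RR n) := FreeGroup.lift Ta

theorem gn1_TT_of (a : Fin n) (v : Fin n → RR n) :
    TT (FreeGroup.of a) v = Pi.single a 1 + X (par [a]) • v := by
  have h : TT (FreeGroup.of a) = Ta a := FreeGroup.lift_apply_of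
  rw [h]
  rfl

/-- Words act by `v ↦ fox u + X(par u) v`. Induction on `u`. -/
theorem TT_word (u : List (Fin n)) (v : Fin n → RR n) :
    TT (u.map FreeGroup.of).prod v = fox u + X (par u) • v := by
  induction u with
  | nil =>
    rw [List.map_nil, List.prod_nil, map_one, Equiv.Perm.one_apply, fox_nil, par_nil, X_zero,
      one_smul, zero_add]
  | cons a u ih =>
    rw [List.map_cons, List.prod_cons, map_mul, Equiv.Perm.mul_apply, ih, gn1_TT_of]
    have h1 : par (a :: u) = par [a] + par u := par_append [a] u
    have h2 : fox (a :: u) = Pi.single a 1 + X (par [a]) • fox u := rfl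
    rw [h1, h2, X_add, smul_add, smul_smul, add_assoc]

/-- If the words `u i` generate the free group then their Fox vectors generate `(RR n)^n`.

Proof. Let `S` be the span of the Fox vectors. The elements `g` of the free group with
`∀ v ∈ S, TT g v ∈ S ∧ TT g⁻¹ v ∈ S` form a subgroup that contains the `u i` (`TT_word`; the inverse of
`v ↦ fox u + X(par u) v` is `v ↦ X(- par u) (v - fox u)`), so all of the group. For `g = a` and `v = 0`:
`e_a = TT a 0 ∈ S`. The `e_a` span (`Pi.basisFun`). -/
theorem span_top {ι : Type*} (u : ι → List (Fin n))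
    (hg : ∀ a : Fin n, FreeGroup.of a ∈ Subgroup.closure
      (Set.range (fun i => ((u i).map FreeGroup.of).prod))) :
    Submodule.span (RR n) (Set.range (fun i => fox (u i))) = ⊤ := by
  set S := Submodule.span (RR n) (Set.range (fun i => fox (u i))) with hS
  let H : Subgroup (FreeGroup (Fin n)) :=
    { carrier := {g | ∀ v ∈ S, TT g v ∈ S ∧ TT g⁻¹ v ∈ S}
      mul_mem' := by
        intro g k hg hk v hv
        refine ⟨?_, ?_⟩
        · rw [map_mul, Equiv.Perm.mul_apply]
          exact (hg _ (hk v hv).1).1
        · rw [mul_inv_rev, map_mul, Equiv.Perm.mul_apply]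
          exact (hk _ (hg v hv).2).2
      one_mem' := by
        intro v hv
        rw [inv_one, map_one, Equiv.Perm.one_apply]
        exact ⟨hv, hv⟩
      inv_mem' := by
        intro g hg v hv
        rw [inv_inv]
        exact ⟨(hg v hv).2, (hg v hv).1⟩ }
  have hfox : ∀ i, fox (u i) ∈ S := fun i => Submodule.subset_span ⟨i, rfl⟩
  have hle : Subgroup.closure (Set.range (fun i => ((u i).map FreeGroup.of).prod)) ≤ H := by
    rw [Subgroup.closure_le]
    rintro _ ⟨i, rfl⟩ v hv
    refine ⟨?_, ?_⟩
    · rw [TT_word]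
      exact S.add_mem (hfox i) (S.smul_mem _ hv)
    · have h1 : TT ((u i).map FreeGroup.of).prod⁻¹ v = X (-par (u i)) • (v - fox (u i)) := by
        rw [map_inv, Equiv.Perm.inv_eq_iff_eq, TT_word, gn1_smul_smul', add_sub_cancel]
      rw [h1]
      exact S.smul_mem _ (S.sub_mem hv (hfox i))
  have he : ∀ a : Fin n, (Pi.single a 1 : Fin n → RR n) ∈ S := by
    intro a
    have h1 := (hle (hg a) 0 S.zero_mem).1
    rw [gn1_TT_of, smul_zero, add_zero] at h1
    exact h1
  rw [eq_top_iff, ← (Pi.basisFun (RR n) (Fin n)).span_eq, Submodule.span_le]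
  rintro _ ⟨a, rfl⟩
  rw [Pi.basisFun_apply]
  exact he a

end Cdm
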