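import Pool.Agent.H.MP_374efc_lc.CD.Va1

/-!
# Lattices
-/

namespace Cdm

variable {n : ℕ}

/-- The lattice generated by the vectors `X v • c i` with `v ∈ P` and `i ∈ S`. -/
noncomputable def LW (P : Set (Lam n)) (S : Set ℕ) (c : ℕ → (Fin n → RR n)) :
    AddSubgroup (Fin n → RR n) :=
  AddSubgroup.closure {x | ∃ i ∈ S, ∃ v ∈ P, x = X v • c i}

theorem LW_gen {P : Set (Lam n)} {S : Set ℕ} {c : ℕ → (Fin n → RR n)} {i : ℕ} (hi : i ∈ S)
    {v : Lam n} (hv : v ∈ P) : X v • c i ∈ LW P S c :=
  AddSubgroup.subset_closure ⟨i, hi, v, hv, rfl⟩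

/-- An element of the group ring is the combination of the monomials in its support. -/
theorem nk1_sum (f : RR n) : f = ∑ v ∈ f.coeff.support, f.coeff v • X v := by
  conv_lhs => rw [← AddMonoidAlgebra.sum_coeff_single f]
  rw [Finsupp.sum]
  refine Finset.sum_congr rfl (fun v _ => ?_)
  rw [X, AddMonoidAlgebra.smul_single, smul_eq_mul, mul_one]

theorem nk1_smul {H : AddSubgroup (Fin n → RR n)} {f : RR n} {y : Fin n → RR n}
    (h : ∀ v, f.coeff v ≠ 0 → X v • y ∈ H) : f • y ∈ H := by
  rw [nk1_sum f, Finset.sum_smul]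
  refine sum_mem (fun v hv => ?_)
  rw [smul_assoc]
  exact zsmul_mem (h v (Finsupp.mem_support_iff.1 hv)) _

theorem nk1_X_mul (v p : Lam n) : X v * X p = X (v + p) := by
  rw [X, X, X, AddMonoidAlgebra.single_mul_single, mul_one]

theorem LW_mono {P Q : Set (Lam n)} {S T : Set ℕ} (hPQ : P ⊆ Q) (hST : S ⊆ T)
    (c : ℕ → (Fin n → RR n)) : LW P S c ≤ LW Q T c := by
  refine AddSubgroup.closure_mono ?_
  rintro x ⟨i, hi, v, hv, rfl⟩
  exact ⟨i, hST hi, v, hPQ hv, rfl⟩

/-- Multiplication by an element supported in `U` maps `LW P` to `LW T` if `U + P ⊆ T`. -/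
theorem LW_smul {U P T : Set (Lam n)} (hT : ∀ u ∈ U, ∀ p ∈ P, u + p ∈ T) {S : Set ℕ}
    {c : ℕ → (Fin n → RR n)} {f : RR n} (hf : Su U f) {x : Fin n → RR n} (hx : x ∈ LW P S c) :
    f • x ∈ LW T S c := by
  unfold LW at hx
  induction hx using AddSubgroup.closure_induction with
  | mem x hx =>
    obtain ⟨i, hi, p, hp, rfl⟩ := hx
    refine nk1_smul (fun v hv => ?_)
    rw [← mul_smul, nk1_X_mul]
    exact LW_gen hi (hT v (hf v hv) p hp)
  | zero => rw [smul_zero]; exact zero_mem _
  | add x y _ _ h1 h2 => rw [smul_add]; exact add_mem h1 h2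
  | neg x _ h1 => rw [smul_neg]; exact neg_mem h1

/-- The elements of `LW P S c`, `S` the indices below `m`, are the combinations with coefficients
supported in `P`. -/
theorem mem_LW_iff {P : Set (Lam n)} {m : ℕ} {c : ℕ → (Fin n → RR n)} {x : Fin n → RR n} :
    x ∈ LW P {i | i < m} c ↔ ∃ b : ℕ → RR n, (∀ i, Su P (b i)) ∧
      x = ∑ i ∈ Finset.range m, b i • c i := by
  constructor
  · intro hx
    unfold LW at hx
    induction hx using AddSubgroup.closure_induction with
    | mem x hx =>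
      obtain ⟨i, hi, p, hp, rfl⟩ := hx
      refine ⟨fun j => if j = i then X p else 0, fun j => ?_, ?_⟩
      · by_cases hj : j = i
        · simp only [hj, if_true]
          exact Su_X hp
        · simp only [if_neg hj]
          exact Su_zero P
      · rw [Finset.sum_eq_single i]
        · simp
        · intro j _ hj
          simp only [if_neg hj, zero_smul]
        · intro hn
          exact absurd (Finset.mem_range.2 hi) hn
    | zero => exact ⟨fun _ => 0, fun _ => Su_zero P, by simp⟩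
    | add x y _ _ h1 h2 =>
      obtain ⟨b1, k1, e1⟩ := h1
      obtain ⟨b2, k2, e2⟩ := h2
      refine ⟨fun i => b1 i + b2 i, fun i => Su_add (k1 i) (k2 i), ?_⟩
      rw [e1, e2, ← Finset.sum_add_distrib]
      exact Finset.sum_congr rfl (fun i _ => (add_smul _ _ _).symm)
    | neg x _ h1 =>
      obtain ⟨b1, k1, e1⟩ := h1
      refine ⟨fun i => -b1 i, fun i => Su_neg (k1 i), ?_⟩
      rw [e1, ← Finset.sum_neg_distrib]
      exact Finset.sum_congr rfl (fun i _ => (neg_smul _ _).symm)
  · rintro ⟨b, hb, rfl⟩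
    refine sum_mem (fun i hi => nk1_smul (fun v hv => ?_))
    have hi' : i ∈ {i : ℕ | i < m} := Finset.mem_range.1 hi
    have hv' : v ∈ P := hb i v hv
    exact LW_gen (P := P) (S := {i : ℕ | i < m}) (c := c) hi' hv'

end Cdm
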