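import Pool.Agent.H.MP_374efc_lc.CD.Nk1

/-!
# Nakayama
-/

namespace Cdm

variable {n : ℕ}

/-- the subring of the elements supported in `P` -/
noncomputable def nk2_A (P : AddSubmonoid (Lam n)) : Subring (RR n) where
  carrier := {f | Su (P : Set (Lam n)) f}
  mul_mem' := fun hf hg => Su_mul (fun _ hp _ hq => P.add_mem hp hq) hf hg
  one_mem' := Su_one P.zero_mem
  add_mem' := fun hf hg => Su_add hf hg
  zero_mem' := Su_zero _
  neg_mem' := fun hf => Su_neg hf

/-- the ideal of the elements supported in `Q` -/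
noncomputable def nk2_I (P : AddSubmonoid (Lam n)) {Q : Set (Lam n)}
    (hPQ : ∀ p ∈ P, ∀ q ∈ Q, p + q ∈ Q) : Ideal (nk2_A P) where
  carrier := {f | Su Q (f : RR n)}
  add_mem' := fun hf hg => Su_add hf hg
  zero_mem' := Su_zero _
  smul_mem' := fun a _ hf => Su_mul (P := (P : Set (Lam n))) hPQ a.2 hf

/-- the lattice `LW P S c` as a submodule -/
noncomputable def nk2_L (P : AddSubmonoid (Lam n)) (S : Set ℕ) (c : ℕ → (Fin n → RR n)) :
    Submodule (nk2_A P) (Fin n → RR n) where
  carrier := {x | x ∈ LW (P : Set (Lam n)) S c}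
  add_mem' := fun hx hy => (LW (P : Set (Lam n)) S c).add_mem hx hy
  zero_mem' := (LW (P : Set (Lam n)) S c).zero_mem
  smul_mem' := fun a x hx =>
    LW_smul (U := (P : Set (Lam n))) (fun _ hp _ hq => P.add_mem hp hq) a.2 hx

/-- Nakayama. `P` is a submonoid, `Q` a subset with `P + Q ⊆ Q`, `Q ⊆ P`.

Proof. By hypothesis and `mem_LW_iff`, `c k = ∑_(i<m) B k i c i + ∑_(i<N) F k i c i` for `k < N` with
entries supported in `P` and in `Q`. With the `N x N` matrix `F` and `C` the `N x n` matrix with rows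
`c k`: `(1 - F) C = B C'`, so `det (1 - F) C = adj (1 - F) B C'`. `r = det (1 - F)`. The entries of
`adj (1 - F) B` are supported in `P` (`Su_det`, `Matrix.adjugate_apply`), and `r - 1` is supported in `Q`:
all terms of the determinant except the diagonal one contain an entry of `F`; or: the elements supported in
`Q` form an ideal of the subring of the elements supported in `P`. -/
theorem nak {P : AddSubmonoid (Lam n)} {Q : Set (Lam n)} (hQP : Q ⊆ P)
    (hPQ : ∀ p ∈ P, ∀ q ∈ Q, p + q ∈ Q) (m N : ℕ) (hmN : m ≤ N) (c : ℕ → (Fin n → RR n))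
    (hc : ∀ k < N, c k ∈ LW (P : Set (Lam n)) {i | i < m} c ⊔ LW Q {i | i < N} c) :
    ∃ r : RR n, Su Q (r - 1) ∧ ∀ k < N, r • c k ∈ LW (P : Set (Lam n)) {i | i < m} c := by
  set L := nk2_L P {i | i < m} c with hL
  set I := nk2_I P hPQ with hI
  set M : Submodule (nk2_A P) ((Fin n → RR n) ⧸ L) :=
    Submodule.span (nk2_A P) ((fun k => L.mkQ (c k)) '' {k | k < N}) with hM
  have hfg : M.FG := Submodule.fg_span ((Set.finite_lt_nat N).image _)
  have hgen : ∀ k < N, L.mkQ (c k) ∈ M := fun k hk =>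
    Submodule.subset_span ⟨k, hk, rfl⟩
  have hQ : ∀ y ∈ LW Q {i | i < N} c, L.mkQ y ∈ I • M := by
    intro y hy
    induction hy using AddSubgroup.closure_induction with
    | mem x hx =>
      obtain ⟨i, hi, v, hv, rfl⟩ := hx
      have h1 : (⟨X v, Su_X (hQP hv)⟩ : nk2_A P) ∈ I := Su_X hv
      have h2 := Submodule.smul_mem_smul h1 (hgen i hi)
      rw [← map_smul] at h2
      exact h2
    | zero =>
      rw [map_zero]
      exact Submodule.zero_mem _
    | add x y _ _ hx hy =>
      rw [map_add]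
      exact Submodule.add_mem _ hx hy
    | neg x _ hx =>
      rw [map_neg]
      exact Submodule.neg_mem _ hx
  have hle : M ≤ I • M := by
    refine Submodule.span_le.2 ?_
    rintro _ ⟨k, hk, rfl⟩
    obtain ⟨x, hx, y, hy, hxy⟩ := AddSubgroup.mem_sup.1 (hc k hk)
    have h1 : L.mkQ (c k) = L.mkQ y := by
      rw [← hxy, map_add]
      have h2 : L.mkQ x = 0 := (Submodule.Quotient.mk_eq_zero L).2 hx
      rw [h2, zero_add]
    change L.mkQ (c k) ∈ I • M
    rw [h1]
    exact hQ y hy
  obtain ⟨r, hr1, hr2⟩ :=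
    Submodule.exists_sub_one_mem_and_smul_eq_zero_of_fg_of_le_smul I M hfg hle
  refine ⟨(r : RR n), hr1, fun k hk => ?_⟩
  have h1 := hr2 _ (hgen k hk)
  rw [← map_smul] at h1
  exact (Submodule.Quotient.mk_eq_zero L).1 h1

end Cdm
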