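import Pool.Agent.H.MP_374efc_lc.CD.Defs

/-!
# Powers of r are multiples of the determinant
-/

namespace Cdm

variable {n : ℕ}

/-- If `r` times every element of `(RR n)^n` is a combination of the `n` vectors `c 0, ..., c (n-1)` then
`r ^ n` is a multiple of their determinant (write `r • 1 = G * C` and take determinants). -/
theorem dvd_pow (c : ℕ → (Fin n → RR n)) (r : RR n)
    (hr : ∀ x : Fin n → RR n, ∃ b : ℕ → RR n, r • x = ∑ i ∈ Finset.range n, b i • c i) :
    (Matrix.of (fun i : Fin n => c i)).det ∣ r ^ n := by
  choose b hb using fun a : Fin n => hr (Pi.single a 1)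
  have h1 : (Matrix.of (fun a i : Fin n => b a i)) * (Matrix.of (fun i : Fin n => c i)) =
      r • (1 : Matrix (Fin n) (Fin n) (RR n)) := by
    ext1 a d
    have h2 := congrFun (hb a) d
    rw [Finset.sum_apply, Finset.sum_range] at h2
    rw [Matrix.mul_apply, Matrix.smul_apply]
    have h3 : (1 : Matrix (Fin n) (Fin n) (RR n)) a d = (Pi.single a 1 : Fin n → RR n) d := by
      rw [Matrix.one_apply, Pi.single_apply]
      simp only [eq_comm]
    rw [h3]
    exact h2.symm
  have h4 : (Matrix.of (fun a i : Fin n => b a i)).det * (Matrix.of (fun i : Fin n => c i)).det =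
      r ^ n := by
    rw [← Matrix.det_mul, h1, Matrix.det_smul, Matrix.det_one, mul_one, Fintype.card_fin]
  exact ⟨_, by rw [← h4, mul_comm]⟩

end Cdm
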