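import Mathlib

/-!
# A nonnegative integer matrix of nonzero determinant has a positive real eigenvalue
-/

namespace Cdm

variable {n : ℕ}

open Matrix in
/-- the resolvent equation at `x`, written with coordinates -/
theorem pf1_eq (B : Matrix (Fin n) (Fin n) ℝ) (x : ℝ) (hx : (Matrix.scalar (Fin n) x - B).det ≠ 0) :
    ∀ i, x * (((Matrix.scalar (Fin n) x - B).det)⁻¹ •
        ((Matrix.scalar (Fin n) x - B).adjugate *ᵥ (fun _ => (1 : ℝ)))) i = 1 +
      ∑ j, B i j * (((Matrix.scalar (Fin n) x - B).det)⁻¹ •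
        ((Matrix.scalar (Fin n) x - B).adjugate *ᵥ (fun _ => (1 : ℝ)))) j := by
  intro i
  set M := Matrix.scalar (Fin n) x - B with hM
  set w := (M.det)⁻¹ • (M.adjugate *ᵥ (fun _ => (1 : ℝ))) with hw
  have h1 : M *ᵥ w = fun _ => (1 : ℝ) := by
    rw [hw, Matrix.mulVec_smul, Matrix.mulVec_mulVec, Matrix.mul_adjugate, Matrix.smul_mulVec,
      Matrix.one_mulVec, smul_smul, inv_mul_cancel₀ hx, one_smul]
  have h2 := congrFun h1 i
  rw [hM, Matrix.sub_mulVec] at h2
  simp only [Pi.sub_apply] at h2
  have h3 : ((Matrix.scalar (Fin n) x) *ᵥ w) i = x * w i := by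
    rw [Matrix.scalar_apply, Matrix.mulVec_diagonal]
  have h4 : (B *ᵥ w) i = ∑ j, B i j * w j := rfl
  rw [h3, h4] at h2
  linarith

/-- Proof. Suppose that the real polynomial `χ` has no root in `(0, ∞)`. Then `R x = (x - A)⁻¹` exists and is
continuous for `x > 0`. For large `x` it has nonnegative entries (`∑ A^k / x^(k+1)`). The set of `x > 0` such
that `R y ≥ 0` for all `y ≥ x` is closed in `(0, ∞)` (continuity), and open: for `y < x` close to `x`
`R y = ∑_k ((x - y) R x)^k R x ≥ 0` (or: an entry of `R` at `y` is `R x + (x - y) R x R y`, iterate). So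
`R x ≥ 0` for all `x > 0`. From `x R = 1 + R A` we get by induction `R ≥ A^k / x^(k+1)` for all `k`. For
`x = 1/2`: the entries of `A^k` are at most `2^(-k-1)` times the entries of `R (1/2)`, so `A^k = 0` for large
`k` (integer entries), which contradicts `det A ≠ 0`.
(Any other proof of this part of the theorem of Perron and Frobenius is fine.)

Proof used here: `w x = (x - A)⁻¹ 1` satisfies `x w = 1 + A w`. Let `m x` be the minimum of the coordinates
of `w x`. Then `m x = 0` is impossible, `m x > 0` for large `x`, so `m (1/2) > 0`. In the row of the minimal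
coordinate `i` there is `j` with `A i j ≥ 1`, so `w i / 2 ≥ 1 + w j > w i`, contradiction. -/
theorem exists_pos_root (hn : 0 < n) (A : Matrix (Fin n) (Fin n) ℤ) (hA : ∀ i j, 0 ≤ A i j)
    (hd : A.det ≠ 0) : ∃ x : ℝ, 0 < x ∧ (A.charpoly.map (Int.castRingHom ℝ)).eval x = 0 := by
  classical
  by_contra hcon
  push Not at hcon
  set B : Matrix (Fin n) (Fin n) ℝ := A.map (Int.castRingHom ℝ) with hB
  have hdet : ∀ x : ℝ, 0 < x → (Matrix.scalar (Fin n) x - B).det ≠ 0 := by
    intro x hx h0
    apply hcon x hx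
    rw [← Matrix.charpoly_map, Matrix.eval_charpoly]
    exact h0
  have hBnn : ∀ i j, 0 ≤ B i j := by
    intro i j
    rw [hB, Matrix.map_apply]
    simpa using hA i j
  haveI : Nonempty (Fin n) := ⟨⟨0, hn⟩⟩
  set w : ℝ → Fin n → ℝ := fun x => ((Matrix.scalar (Fin n) x - B).det)⁻¹ •
    ((Matrix.scalar (Fin n) x - B).adjugate.mulVec (fun _ => (1 : ℝ))) with hw
  have heq : ∀ x : ℝ, 0 < x → ∀ i, x * w x i = 1 + ∑ j, B i j * w x j :=
    fun x hx i => pf1_eq B x (hdet x hx) i
  set m : ℝ → ℝ := fun x => Finset.univ.inf' Finset.univ_nonempty (fun i => w x i) with hm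
  have hmle : ∀ x i, m x ≤ w x i := fun x i => Finset.inf'_le _ (Finset.mem_univ i)
  have hmex : ∀ x, ∃ i, m x = w x i := by
    intro x
    obtain ⟨i, _, hi⟩ := Finset.exists_mem_eq_inf' Finset.univ_nonempty (fun i => w x i)
    exact ⟨i, hi⟩
  -- the minimum does not vanish
  have hm0 : ∀ x : ℝ, 0 < x → m x ≠ 0 := by
    intro x hx h0
    obtain ⟨i, hi⟩ := hmex x
    have h1 := heq x hx i
    rw [← hi, h0, mul_zero] at h1
    have h2 : 0 ≤ ∑ j, B i j * w x j := by
      apply Finset.sum_nonneg
      intro j _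
      apply mul_nonneg (hBnn i j)
      rw [← h0]
      exact hmle x j
    linarith
  -- positivity far away
  set X : ℝ := 1 + ∑ i, ∑ j, B i j with hX
  have hrow : ∀ i, ∑ j, B i j ≤ ∑ i, ∑ j, B i j := by
    intro i
    exact Finset.single_le_sum (f := fun i => ∑ j, B i j)
      (fun i _ => Finset.sum_nonneg (fun j _ => hBnn i j)) (Finset.mem_univ i)
  have hX1 : 1 ≤ X := by
    have : 0 ≤ ∑ i, ∑ j, B i j :=
      Finset.sum_nonneg (fun i _ => Finset.sum_nonneg (fun j _ => hBnn i j))
    linarith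
  have hmX : 0 < m X := by
    obtain ⟨i, hi⟩ := hmex X
    have h1 := heq X (by linarith) i
    rw [← hi] at h1
    have h2 : (∑ j, B i j) * m X ≤ ∑ j, B i j * w X j := by
      rw [Finset.sum_mul]
      apply Finset.sum_le_sum
      intro j _
      exact mul_le_mul_of_nonneg_left (hmle X j) (hBnn i j)
    have h3 : 1 ≤ (X - ∑ j, B i j) * m X := by
      rw [sub_mul]; linarith
    have h4 : 0 < X - ∑ j, B i j := by linarith [hrow i]
    by_contra hc
    push Not at hc
    have := mul_nonpos_of_nonneg_of_nonpos h4.le hc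
    linarith
  -- continuity
  have hcont : ContinuousOn m (Set.Icc (1 / 2) X) := by
    have hMc : Continuous (fun x : ℝ => Matrix.scalar (Fin n) x - B) := by
      have h5 : Continuous (fun x : ℝ => Matrix.diagonal (fun _ : Fin n => x)) :=
        Continuous.matrix_diagonal (continuous_pi (fun _ => continuous_id))
      exact h5.sub continuous_const
    intro x hx
    have hx0 : 0 < x := by linarith [hx.1]
    apply ContinuousWithinAt.finset_inf'_apply
    intro i _
    apply ContinuousAt.continuousWithinAt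
    have hvi : Continuous (fun x : ℝ =>
        ((Matrix.scalar (Fin n) x - B).adjugate.mulVec (fun _ => (1 : ℝ))) i) := by
      have := (hMc.matrix_adjugate).matrix_mulVec (continuous_const (y := fun _ : Fin n => (1 : ℝ)))
      exact (continuous_apply i).comp this
    have hdc : ContinuousAt (fun x : ℝ => ((Matrix.scalar (Fin n) x - B).det)⁻¹) x :=
      (hMc.matrix_det).continuousAt.inv₀ (hdet x hx0)
    have := hdc.mul hvi.continuousAt
    exact this
  have hmhalf : 0 < m (1 / 2) := by
    by_contra hc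
    push Not at hc
    have h1 : (0 : ℝ) ∈ Set.Icc (m (1 / 2)) (m X) := ⟨hc, hmX.le⟩
    obtain ⟨x, hx, hx0⟩ := intermediate_value_Icc (by linarith : (1 / 2 : ℝ) ≤ X) hcont h1
    exact hm0 x (by linarith [hx.1]) hx0
  -- the contradiction
  obtain ⟨i, hi⟩ := hmex (1 / 2)
  have hrowne : ∃ j, A i j ≠ 0 := by
    by_contra hc
    push Not at hc
    exact hd (Matrix.det_eq_zero_of_row_eq_zero i hc)
  obtain ⟨j, hj⟩ := hrowne
  have hj1 : (1 : ℝ) ≤ B i j := by
    have h1 : 1 ≤ A i j := by
      have := hA i j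
      omega
    rw [hB, Matrix.map_apply]
    simpa using (by exact_mod_cast h1 : (1 : ℝ) ≤ (A i j : ℝ))
  have h1 := heq (1 / 2) (by norm_num) i
  have h2 : B i j * w (1 / 2) j ≤ ∑ j, B i j * w (1 / 2) j :=
    Finset.single_le_sum (f := fun j => B i j * w (1 / 2) j)
      (fun j _ => mul_nonneg (hBnn i j) (hmhalf.le.trans (hmle _ j))) (Finset.mem_univ j)
  have h3 : w (1 / 2) j ≤ B i j * w (1 / 2) j :=
    le_mul_of_one_le_left (hmhalf.le.trans (hmle _ j)) hj1
  have h4 := hmle (1 / 2) j
  rw [← hi] at h1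
  linarith

end Cdm
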