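import Pool.Agent.H.MP_374efc_lc.CD.Fx1

/-!
# Reversal of words
-/

namespace Cdm

variable {n : ℕ}

theorem ext_rv (h : Fin n → List (Fin n)) (u : List (Fin n)) :
    ext (rv h) u.reverse = (ext h u).reverse := by
  induction u with
  | nil => rfl
  | cons a u ih =>
    have h1 : ext (rv h) (u.reverse ++ [a]) = ext (rv h) u.reverse ++ ext (rv h) [a] :=
      List.flatMap_append
    have h2 : ext (rv h) [a] = (h a).reverse := by
      unfold ext rv
      simp
    have h3 : ext h (a :: u) = h a ++ ext h u := List.flatMap_cons
    rw [List.reverse_cons, h1, ih, h2, h3, List.reverse_append]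

theorem sq_rv (h : Fin n → List (Fin n)) (w : List (Fin n)) (k : ℕ) :
    sq (rv h) w.reverse k = (sq h w k).reverse := by
  induction k with
  | zero => rfl
  | succ k ih =>
    show ext (rv h) (sq (rv h) w.reverse k) = (ext h (sq h w k)).reverse
    rw [ih, ext_rv]

theorem par_reverse (u : List (Fin n)) : par u.reverse = par u := by
  funext a
  unfold par
  rw [List.count_reverse]

theorem mat_rv (h : Fin n → List (Fin n)) : mat (rv h) = mat h := by
  funext a b
  unfold mat rv
  rw [List.count_reverse]

theorem mh_rv (h : Fin n → List (Fin n)) : mh (rv h) = mh h := by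
  unfold mh
  rw [mat_rv]

theorem WM_rv (h : Fin n → List (Fin n)) (w : List (Fin n)) : WM (rv h) w.reverse = WM h w := by
  funext a i
  unfold WM
  rw [sq_rv, par_reverse]

end Cdm
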