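import Pool.Agent.H.MP_374efc_lc.CD.Defs

/-!
# Supports in the group ring
-/

namespace Cdm

variable {n : ℕ}

theorem Su_mono {P Q : Set (Lam n)} (hPQ : P ⊆ Q) {f : RR n} (hf : Su P f) : Su Q f :=
  fun v hv => hPQ (hf v hv)

theorem Su_zero (P : Set (Lam n)) : Su P (0 : RR n) := by
  intro v hv
  exact absurd rfl hv

theorem Su_add {P : Set (Lam n)} {f g : RR n} (hf : Su P f) (hg : Su P g) : Su P (f + g) := by
  intro v hv
  rw [AddMonoidAlgebra.coeff_add, Finsupp.add_apply] at hv
  by_cases h1 : f.coeff v = 0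
  · refine hg v fun h2 => hv ?_
    rw [h1, h2, add_zero]
  · exact hf v h1

theorem Su_neg {P : Set (Lam n)} {f : RR n} (hf : Su P f) : Su P (-f) := by
  intro v hv
  refine hf v fun h1 => hv ?_
  have h2 : (-f).coeff + f.coeff = 0 := by
    rw [← AddMonoidAlgebra.coeff_add, neg_add_cancel, AddMonoidAlgebra.coeff_zero]
  have h3 : (-f).coeff v + f.coeff v = 0 := by
    have := DFunLike.congr_fun h2 v
    simpa using this
  rwa [h1, add_zero] at h3

theorem Su_X {P : Set (Lam n)} {v : Lam n} (hv : v ∈ P) : Su P (X v) := by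
  intro u hu
  rw [X, AddMonoidAlgebra.coeff_single] at hu
  by_cases h : v = u
  · exact h ▸ hv
  · exact absurd (Finsupp.single_eq_of_ne' h) hu

theorem Su_one {P : Set (Lam n)} (h0 : (0 : Lam n) ∈ P) : Su P (1 : RR n) :=
  Su_X h0

/-- The support of a product lies in the sum of the supports. -/
theorem Su_mul {P Q T : Set (Lam n)} (hT : ∀ p ∈ P, ∀ q ∈ Q, p + q ∈ T) {f g : RR n}
    (hf : Su P f) (hg : Su Q g) : Su T (f * g) := by
  classical
  intro v hv
  have h1 : v ∈ (f * g).coeff.support := Finsupp.mem_support_iff.2 hv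
  obtain ⟨p, hp, q, hq, rfl⟩ := Finset.mem_add.1 (AddMonoidAlgebra.support_coeff_mul_subset f g h1)
  exact hT p (hf p (Finsupp.mem_support_iff.1 hp)) q (hg q (Finsupp.mem_support_iff.1 hq))

theorem Su_sum {P : Set (Lam n)} {ι : Type*} (s : Finset ι) (f : ι → RR n)
    (hf : ∀ i ∈ s, Su P (f i)) : Su P (∑ i ∈ s, f i) := by
  classical
  induction s using Finset.induction_on with
  | empty =>
    rw [Finset.sum_empty]
    exact Su_zero P
  | insert a s ha ih =>
    rw [Finset.sum_insert ha]
    exact Su_add (hf a (Finset.mem_insert_self a s))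
      (ih fun i hi => hf i (Finset.mem_insert_of_mem hi))

theorem va1_prod {P : AddSubmonoid (Lam n)} {ι : Type*} (s : Finset ι) (f : ι → RR n)
    (hf : ∀ i ∈ s, Su (P : Set (Lam n)) (f i)) : Su (P : Set (Lam n)) (∏ i ∈ s, f i) := by
  classical
  induction s using Finset.induction_on with
  | empty =>
    rw [Finset.prod_empty]
    exact Su_one P.zero_mem
  | insert a s ha ih =>
    rw [Finset.prod_insert ha]
    exact Su_mul (fun p hp q hq => P.add_mem hp hq) (hf a (Finset.mem_insert_self a s))
      (ih fun i hi => hf i (Finset.mem_insert_of_mem hi))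

/-- Determinants of matrices with entries supported in a submonoid. -/
theorem Su_det {P : AddSubmonoid (Lam n)} {ι : Type*} [Fintype ι] [DecidableEq ι]
    (M : Matrix ι ι (RR n)) (hM : ∀ i j, Su (P : Set (Lam n)) (M i j)) :
    Su (P : Set (Lam n)) M.det := by
  rw [Matrix.det_apply']
  refine Su_sum _ _ fun σ _ => ?_
  have h1 : Su (P : Set (Lam n)) (∏ i, M (σ i) i) := va1_prod _ _ fun i _ => hM _ _
  rcases Int.units_eq_one_or (Equiv.Perm.sign σ) with h | h
  · rw [h]
    simpa using h1
  · rw [h]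
    simpa using Su_neg h1

end Cdm
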