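import Pool.Agent.H.MP_374efc_lc.CD.Rv1
import Pool.Agent.H.MP_374efc_lc.CD.Fx1b
import Pool.Agent.H.MP_374efc_lc.CD.Va1

/-!
# Reversal of Fox vectors and determinants
-/

namespace Cdm

variable {n : ℕ}

theorem rv2_coeff_bar (f : RR n) (v : Lam n) : (bar f).coeff v = f.coeff (-v) := by
  change (Finsupp.mapDomain (-AddMonoidHom.id (Lam n)) f.coeff) v = f.coeff (-v)
  have h1 : v = (-AddMonoidHom.id (Lam n)) (-v) := by
    rw [AddMonoidHom.neg_apply, AddMonoidHom.id_apply, neg_neg]
  have hinj : Function.Injective (-AddMonoidHom.id (Lam n)) := by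
    intro a b hab
    rw [AddMonoidHom.neg_apply, AddMonoidHom.neg_apply, AddMonoidHom.id_apply,
      AddMonoidHom.id_apply, neg_inj] at hab
    exact hab
  conv_lhs => rw [h1]
  exact Finsupp.mapDomain_apply hinj _ _

/-- Coefficients of `X u * bar f`. -/
theorem coeff_X_bar (u : Lam n) (f : RR n) (v : Lam n) :
    (X u * bar f).coeff v = f.coeff (u - v) := by
  rw [X, AddMonoidAlgebra.coeff_single_mul_apply, one_mul, rv2_coeff_bar]
  congr 1
  abel

/-- Reversal of a word: the position of an occurrence of `a` from the right. Induction on `u`. -/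
theorem fox_reverse (u : List (Fin n)) (a : Fin n) :
    fox u.reverse a = X (par u - par [a]) * bar (fox u a) := by
  induction u with
  | nil => simp
  | cons b u ih =>
    have h1 : par (b :: u) = par [b] + par u := by
      rw [← par_append]
      rfl
    rw [List.reverse_cons, fox_append, fox_single, par_reverse]
    change fox u.reverse a + X (par u) * (Pi.single b (1 : RR n) : Fin n → RR n) a =
      X (par (b :: u) - par [a]) * bar ((Pi.single b (1 : RR n) : Fin n → RR n) a + X (par [b]) * fox u a)
    rw [ih, map_add, map_mul, bar_X, mul_add, add_comm, h1, ← mul_assoc, ← X_add]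
    have h2 : par [b] + par u - par [a] + -par [b] = par u - par [a] := by abel
    rw [h2]
    congr 1
    by_cases hab : a = b
    · subst hab
      rw [Pi.single_eq_same, map_one, mul_one, mul_one, add_sub_cancel_left]
    · rw [Pi.single_eq_of_ne hab, map_zero, mul_zero, mul_zero]

theorem rv2_prod_X {ι : Type*} (s : Finset ι) (f : ι → Lam n) :
    ∏ i ∈ s, X (f i) = X (∑ i ∈ s, f i) := by
  classical
  induction s using Finset.induction_on with
  | empty => rw [Finset.prod_empty, Finset.sum_empty, X_zero]
  | insert i s hi ih => rw [Finset.prod_insert hi, Finset.sum_insert hi, ih, X_add]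

/-- The determinant of the Fox vectors of reversed words (multiply the rows by `X (par (u i))`, the
columns by `X (- par [a])`, `bar` is a ring homomorphism). -/
theorem det_reverse (u : Fin n → List (Fin n)) :
    (FM (fun i => (u i).reverse)).det
      = X (∑ i, par (u i) - ∑ a : Fin n, par [a]) * bar (FM u).det := by
  have h1 : FM (fun i => (u i).reverse) = Matrix.of (fun i a => X (par (u i)) *
      (Matrix.of (fun i a => X (-par [a]) * (bar.mapMatrix (FM u)) i a)) i a) := by
    ext1 i a
    change fox (u i).reverse a = X (par (u i)) * (X (-par [a]) * bar (fox (u i) a))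
    rw [fox_reverse, ← mul_assoc, ← X_add, sub_eq_add_neg]
  rw [h1, Matrix.det_mul_column, Matrix.det_mul_row, rv2_prod_X, rv2_prod_X, ← RingHom.map_det,
    ← mul_assoc, ← X_add, Finset.sum_neg_distrib, sub_eq_add_neg]

theorem sum_par_one : ∑ a : Fin n, par [a] = (fun _ => 1 : Lam n) := by
  funext b
  rw [Finset.sum_apply]
  have h1 : ∀ a : Fin n, par [a] b = if a = b then 1 else 0 := by
    intro a
    by_cases h : a = b
    · subst h
      simp [par]
    · simp [par, h]
  rw [Finset.sum_congr rfl fun a _ => h1 a]
  simp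

/-- `J` of the reversed system. -/
theorem JJ_rv (h : Fin n → List (Fin n)) (w : List (Fin n)) :
    JJ (rv h) w.reverse = X (∑ i : Fin n, par (sq h w i) - (fun _ => 1)) * bar (JJ h w) := by
  have h1 : (fun i : Fin n => sq (rv h) w.reverse i) = fun i : Fin n => (sq h w i).reverse := by
    funext i
    exact sq_rv h w i
  rw [JJ, h1, det_reverse, sum_par_one, JJ]

/-- `∑_a par (h a) = A 1`. -/
theorem sum_par_h (h : Fin n → List (Fin n)) : ∑ a : Fin n, par (h a) = mh h (fun _ => 1) := by
  funext b
  rw [Finset.sum_apply]
  change ∑ a : Fin n, par (h a) b = (Matrix.mulVec (mat h) (fun _ => 1)) b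
  rw [Matrix.mulVec, dotProduct]
  refine Finset.sum_congr rfl fun a _ => ?_
  rw [mul_one]
  rfl

/-- `D_h` of the reversed system. -/
theorem DD_rv (h : Fin n → List (Fin n)) :
    DD (rv h) = X (mh h (fun _ => 1) - (fun _ => 1)) * bar (DD h) := by
  have h1 : DD (rv h) = (FM (fun i => (h i).reverse)).det := rfl
  rw [h1, det_reverse, sum_par_one, sum_par_h, DD]

end Cdm
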