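import Pool.Agent.H.MP_374efc_lc.CD.Fx1b
import Pool.Agent.H.MP_374efc_lc.CD.Nk1

/-!
# Step 1a: every c_k is congruent to a combination of the first n
-/

namespace Cdm

variable {n : ℕ}

/-- Zero and the nonnegative vectors with `θ > 0`. -/
def PP (θ : Lam n →+ ℤ) : AddSubmonoid (Lam n) where
  carrier := {v | v = 0 ∨ (0 < θ v ∧ ∀ a, 0 ≤ v a)}
  zero_mem' := Or.inl rfl
  add_mem' := by
    intro u v hu hv
    rcases hu with rfl | ⟨hu, hu'⟩
    · rw [zero_add]; exact hv
    · rcases hv with rfl | ⟨hv, hv'⟩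
      · rw [add_zero]; exact Or.inr ⟨hu, hu'⟩
      · refine Or.inr ⟨?_, fun a => ?_⟩
        · rw [map_add]; exact add_pos hu hv
        · exact add_nonneg (hu' a) (hv' a)

/-- The nonnegative vectors with `θ > 0`. -/
def QQ (θ : Lam n →+ ℤ) : Set (Lam n) := {v | 0 < θ v ∧ ∀ a, 0 ≤ v a}

theorem QQ_sub (θ : Lam n →+ ℤ) : QQ θ ⊆ (PP θ : Set (Lam n)) := fun _ hv => Or.inr hv

theorem PP_add (θ : Lam n →+ ℤ) : ∀ p ∈ PP θ, ∀ q ∈ QQ θ, p + q ∈ QQ θ := by
  intro p hp q hq
  rcases hp with rfl | ⟨hp, hp'⟩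
  · rw [zero_add]; exact hq
  · refine ⟨?_, fun a => ?_⟩
    · rw [map_add]; exact add_pos hp hq.1
    · exact add_nonneg (hp' a) (hq.2 a)

/-- The Fox vector of token `k`. -/
noncomputable def cc (h : Fin n → List (Fin n)) (w : List (Fin n)) (k : ℕ) : Fin n → RR n :=
  fox (sq h w k)

/-- If every index of `U` is a product of tokens below `N`, so is `U`. -/
theorem st1_subst {h : Fin n → List (Fin n)} {w : List (Fin n)} {N : ℕ} (U : List ℕ)
    (hU : ∀ i ∈ U, ∃ V : List ℕ, (∀ j ∈ V, j < N) ∧ sq h w i = pw h w V) :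
    ∃ V : List ℕ, (∀ j ∈ V, j < N) ∧ pw h w U = pw h w V := by
  induction U with
  | nil => exact ⟨[], by simp, rfl⟩
  | cons k U ih =>
    obtain ⟨V, hV, hVe⟩ := ih (fun i hi => hU i (List.mem_cons_of_mem _ hi))
    obtain ⟨V', hV', hVe'⟩ := hU k List.mem_cons_self
    refine ⟨V' ++ V, ?_, ?_⟩
    · intro j hj
      rcases List.mem_append.1 hj with hj | hj
      · exact hV' j hj
      · exact hV j hj
    · rw [pw_cons, pw_append, hVe, hVe']

/-- `w_(N+s)` is the product of the tokens `j + s`. -/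
theorem st1_shift {h : Fin n → List (Fin n)} {w : List (Fin n)} {N : ℕ} {J : List ℕ}
    (hJ : sq h w N = pw h w J) (s : ℕ) : sq h w (N + s) = pw h w (J.map (· + s)) := by
  induction s with
  | zero => simpa using hJ
  | succ s ih =>
    have h1 : sq h w (N + (s + 1)) = ext h (sq h w (N + s)) := rfl
    rw [h1, ih, ext_pw, List.map_map]
    congr 1

/-- Every `w_k` is a product of tokens with index below `N`. For `k < N` clear, for `k ≥ N` induction:
`w_(N+s) = h^s(w_N)` is a product of `w_(j+s)`, `j < N` (`ext_pw`). -/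
theorem mem_M {h : Fin n → List (Fin n)} {w : List (Fin n)} {N : ℕ} (hlc : LC h w N) (k : ℕ) :
    ∃ U : List ℕ, (∀ i ∈ U, i < N) ∧ sq h w k = pw h w U := by
  obtain ⟨J, hJ, -, -, hJe⟩ := hlc
  induction k using Nat.strong_induction_on with
  | _ k ih =>
    by_cases hk : k < N
    · refine ⟨[k], ?_, ?_⟩
      · intro i hi
        rw [List.mem_singleton] at hi
        rw [hi]; exact hk
      · simp [pw]
    · obtain ⟨s, rfl⟩ := Nat.exists_eq_add_of_le (not_lt.1 hk)
      rw [st1_shift hJe s]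
      refine st1_subst _ ?_
      intro i hi
      obtain ⟨j, hj, rfl⟩ := List.mem_map.1 hi
      have := hJ j hj
      exact ih (j + s) (by omega)

/-- `θ` of the Parikh vector of a product of tokens. -/
theorem st1_pos {h : Fin n → List (Fin n)} {w : List (Fin n)} {N : ℕ} {θ : Lam n →+ ℤ}
    (hθ : ∀ k < N, 0 < θ (par (sq h w k))) (U : List ℕ) (hU : ∀ i ∈ U, i < N) :
    ∀ u : List (Fin n), 0 < θ (par u) →
      X (par u) • fox (pw h w U) ∈ LW (QQ θ) {i | i < N} (cc h w) := by
  induction U with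
  | nil =>
    intro u _
    rw [pw_nil, fox_nil, smul_zero]
    exact AddSubgroup.zero_mem _
  | cons k U ih =>
    intro u hu
    have hkN : k < N := hU k List.mem_cons_self
    rw [pw_cons, fox_append, smul_add, smul_smul, ← X_add, ← par_append]
    refine AddSubgroup.add_mem _ ?_ ?_
    · exact LW_gen (i := k) hkN (v := par u) ⟨hu, par_nonneg u⟩
    · refine ih (fun i hi => hU i (List.mem_cons_of_mem _ hi)) (u ++ sq h w k) ?_
      rw [par_append, map_add]
      exact add_pos hu (hθ k hkN)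

/-- If `θ > 0` on the tokens, then `fox (w_k u) ≡ fox w_k` modulo `LW (QQ θ)`: by `fox_append` and
induction on `U`, every further token sits at a position `par (w_k ...)` of positive degree. -/
theorem fox_tok {h : Fin n → List (Fin n)} {w : List (Fin n)} {N : ℕ} {θ : Lam n →+ ℤ}
    (hθ : ∀ k < N, 0 < θ (par (sq h w k))) (k : ℕ) (hk : k < N) (U : List ℕ) (hU : ∀ i ∈ U, i < N) :
    fox (pw h w (k :: U)) - cc h w k ∈ LW (QQ θ) {i | i < N} (cc h w) := by
  rw [pw_cons, fox_append, cc, add_sub_cancel_left]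
  exact st1_pos hθ U hU (sq h w k) (hθ k hk)

/-- By `LGood` and `fox_tok`, `c_k ≡ c_(p k)` modulo `LW (QQ θ)`; strong induction on the rank `r k`. -/
theorem step1a {h : Fin n → List (Fin n)} {w : List (Fin n)} {N : ℕ} (H : HL h w N)
    {θ : Lam n →+ ℤ} (hθ : ∀ k < N, 0 < θ (par (sq h w k))) (k : ℕ) (hk : k < N) :
    cc h w k ∈ LW (PP θ : Set (Lam n)) {i | i < n} (cc h w) ⊔ LW (QQ θ) {i | i < N} (cc h w) := by
  obtain ⟨p, r, hpr⟩ := H.good
  have key : ∀ m k : ℕ, r k = m → k < N →
      cc h w k ∈ LW (PP θ : Set (Lam n)) {i | i < n} (cc h w) ⊔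
        LW (QQ θ) {i | i < N} (cc h w) := by
    intro m
    induction m using Nat.strong_induction_on with
    | _ m ih =>
      intro k hm hk
      by_cases hkn : k < n
      · refine AddSubgroup.mem_sup_left ?_
        have h0 : (0 : Lam n) ∈ (PP θ : Set (Lam n)) := (PP θ).zero_mem
        have h1 := LW_gen (P := (PP θ : Set (Lam n))) (S := {i | i < n}) (c := cc h w) (i := k)
          hkn (v := 0) h0
        rw [X_zero, one_smul] at h1
        exact h1
      · obtain ⟨hpN, hr, U, V, hU, hV, hUV⟩ := hpr k (not_lt.1 hkn) hk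
        have h1 := fox_tok hθ k hk V hV
        have h2 := fox_tok hθ (p k) hpN U hU
        rw [hUV] at h1
        have h3 : cc h w k = cc h w (p k) + ((fox (pw h w (p k :: U)) - cc h w (p k)) -
            (fox (pw h w (p k :: U)) - cc h w k)) := by abel
        rw [h3]
        refine AddSubgroup.add_mem _ ?_ ?_
        · exact ih (r (p k)) (by omega) (p k) rfl hpN
        · exact AddSubgroup.mem_sup_right (AddSubgroup.sub_mem _ h2 h1)
  exact key (r k) k rfl hk

end Cdm
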