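import Pool.Agent.H.MP_374efc_lc.CD.St1
import Pool.Agent.H.MP_374efc_lc.CD.Nk2
import Pool.Agent.H.MP_374efc_lc.CD.Nk3
import Pool.Agent.H.MP_374efc_lc.CD.Gn1

/-!
# Step 1b: the element r
-/

namespace Cdm

variable {n : ℕ}

theorem st1b_par {h : Fin n → List (Fin n)} {w : List (Fin n)} {N : ℕ} {θ : Lam n →+ ℤ}
    (hθ : ∀ k < N, 0 < θ (par (sq h w k))) {k : ℕ} (hk : k < N) : par (sq h w k) ∈ PP θ :=
  Or.inr ⟨hθ k hk, par_nonneg _⟩

theorem st1b_tok {h : Fin n → List (Fin n)} {w : List (Fin n)} {N : ℕ} {θ : Lam n →+ ℤ}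
    (hθ : ∀ k < N, 0 < θ (par (sq h w k))) (U : List ℕ) (hU : ∀ i ∈ U, i < N) :
    fox (pw h w U) ∈ LW (PP θ : Set (Lam n)) {i | i < N} (cc h w) := by
  induction U with
  | nil =>
    rw [pw_nil, fox_nil]
    exact AddSubgroup.zero_mem _
  | cons k U ih =>
    have hk : k < N := hU k List.mem_cons_self
    rw [pw_cons, fox_append]
    refine AddSubgroup.add_mem _ ?_ ?_
    · have h1 : X (0 : Lam n) • cc h w k ∈ LW (PP θ : Set (Lam n)) {i | i < N} (cc h w) :=
        LW_gen (S := {i | i < N}) hk (PP θ).zero_mem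
      rwa [X_zero, one_smul] at h1
    · refine LW_smul (U := {par (sq h w k)}) (P := (PP θ : Set (Lam n))) ?_
        (Su_X (Set.mem_singleton _)) (ih fun i hi => hU i (List.mem_cons_of_mem _ hi))
      intro u hu p hp
      rw [Set.mem_singleton_iff.1 hu]
      exact (PP θ).add_mem (st1b_par hθ hk) hp

theorem st1b_mul {θ : Lam n →+ ℤ} {m N : ℕ} {c : ℕ → (Fin n → RR n)} {r : RR n}
    (hr : ∀ k < N, r • c k ∈ LW (PP θ : Set (Lam n)) {i | i < m} c) {x : Fin n → RR n}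
    (hx : x ∈ LW (PP θ : Set (Lam n)) {i | i < N} c) :
    r • x ∈ LW (PP θ : Set (Lam n)) {i | i < m} c := by
  refine AddSubgroup.closure_induction (p := fun x _ => r • x ∈ LW (PP θ : Set (Lam n)) {i | i < m} c)
    ?_ ?_ ?_ ?_ hx
  · rintro x ⟨i, hi, v, hv, rfl⟩
    rw [smul_comm]
    refine LW_smul (U := {v}) (P := (PP θ : Set (Lam n))) ?_ (Su_X (Set.mem_singleton _)) (hr i hi)
    intro u hu p hp
    rw [Set.mem_singleton_iff.1 hu]
    exact (PP θ).add_mem hv hp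
  · rw [smul_zero]
    exact AddSubgroup.zero_mem _
  · intro x y _ _ h1 h2
    rw [smul_add]
    exact AddSubgroup.add_mem _ h1 h2
  · intro x _ h1
    rw [smul_neg]
    exact AddSubgroup.neg_mem _ h1

/-- `nak`, and `c_k ∈ LW (PP θ) {i | i < N}` for all `k` (by `mem_M`, the exponents of positions of tokens
are in `PP θ`). -/
theorem step1b {h : Fin n → List (Fin n)} {w : List (Fin n)} {N : ℕ} (H : HL h w N)
    {θ : Lam n →+ ℤ} (hθ : ∀ k < N, 0 < θ (par (sq h w k))) :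
    ∃ r : RR n, Su (QQ θ) (r - 1) ∧
      ∀ k, r • cc h w k ∈ LW (PP θ : Set (Lam n)) {i | i < n} (cc h w) := by
  obtain ⟨r, hr1, hr2⟩ := nak (P := PP θ) (QQ_sub θ) (PP_add θ) n N H.nN (cc h w)
    (fun k hk => step1a H hθ k hk)
  refine ⟨r, hr1, fun k => ?_⟩
  obtain ⟨U, hU, hk⟩ := mem_M H.lc k
  have h1 := st1b_mul hr2 (st1b_tok hθ U hU)
  rw [← hk] at h1
  exact h1

/-- `span_top` (the tokens generate) and `dvd_pow`. -/
theorem step1c {h : Fin n → List (Fin n)} {w : List (Fin n)} {N : ℕ} (H : HL h w N) (r : RR n)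
    (hr : ∀ k < N, ∃ b : ℕ → RR n, r • cc h w k = ∑ i ∈ Finset.range n, b i • cc h w i) :
    JJ h w ∣ r ^ n := by
  have h1 : (Matrix.of (fun i : Fin n => cc h w i)).det ∣ r ^ n := by
    refine dvd_pow (cc h w) r fun x => ?_
    have hx : x ∈ Submodule.span (RR n) (Set.range (fun i : Fin N => fox (sq h w i))) := by
      rw [span_top (fun k : Fin N => sq h w k) H.gen]
      exact Submodule.mem_top
    refine Submodule.span_induction
      (p := fun x _ => ∃ b : ℕ → RR n, r • x = ∑ i ∈ Finset.range n, b i • cc h w i) ?_ ?_ ?_ ?_ hx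
    · rintro x ⟨i, rfl⟩
      exact hr i i.2
    · exact ⟨0, by simp⟩
    · rintro x y _ _ ⟨b, hb⟩ ⟨b', hb'⟩
      refine ⟨b + b', ?_⟩
      rw [smul_add, hb, hb', ← Finset.sum_add_distrib]
      exact Finset.sum_congr rfl fun i _ => by rw [Pi.add_apply, add_smul]
    · rintro a x _ ⟨b, hb⟩
      refine ⟨fun i => a * b i, ?_⟩
      rw [smul_comm, hb, Finset.smul_sum]
      exact Finset.sum_congr rfl fun i _ => by rw [mul_smul]
  exact h1

end Cdm
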