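import Pool.Agent.H.MP_374efc_lc.CD.St1b
import Pool.Agent.H.MP_374efc_lc.CD.Fx3

/-!
# Step 1c: the exponents of J
-/

namespace Cdm

variable {n : ℕ}

theorem st1c_one_add {P Q : Set (Lam n)} (h0 : (0 : Lam n) ∈ Q) (hPQ : P ⊆ Q) {r : RR n}
    (hr : Su P (r - 1)) : Su Q r := by
  have h1 : Su Q (1 + (r - 1)) := Su_add (Su_one h0) (Su_mono hPQ hr)
  rwa [add_sub_cancel] at h1

theorem st1c_coeff_zero {P : Set (Lam n)} (h0 : (0 : Lam n) ∉ P) {r : RR n} (hr : Su P (r - 1)) :
    r.coeff 0 = 1 := by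
  have h1 : (r - 1).coeff 0 = 0 := by
    by_contra hc
    exact h0 (hr 0 hc)
  have h2 : r = 1 + (r - 1) := by ring
  have h3 : r.coeff 0 = (1 : RR n).coeff 0 + (r - 1).coeff 0 := by
    conv_lhs => rw [h2]
    rw [AddMonoidAlgebra.coeff_add]
    rfl
  rw [h3, h1, add_zero]
  simp

theorem st1c_Mn {θ : Lam n →+ ℤ} {f : RR n} (h0 : f.coeff 0 ≠ 0) (hf : Su {v | 0 ≤ θ v} f) :
    Mn θ f 0 := ⟨hf, 0, h0, map_zero θ⟩

theorem st1c_Su {θ : Lam n →+ ℤ} {f : RR n} (hf : Mn θ f 0) : Su {v | 0 ≤ θ v} f := hf.1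

theorem st1c_len {v : Lam n} (hv : ∀ a, 0 ≤ v a) : 0 ≤ len v := by
  show 0 ≤ ∑ a, v a
  exact Finset.sum_nonneg fun a _ => hv a

theorem st1c_len_pos {v : Lam n} (hv : ∀ a, 0 ≤ v a) (h0 : v ≠ 0) : 0 < len v := by
  rcases lt_or_eq_of_le (st1c_len hv) with h | h
  · exact h
  · exfalso
    have h1 : ∑ a, v a = 0 := h.symm
    rw [Finset.sum_eq_zero_iff_of_nonneg fun a _ => hv a] at h1
    exact h0 (funext fun a => h1 a (Finset.mem_univ a))

theorem st1c_QQ (θ : Lam n →+ ℤ) : (QQ θ : Set (Lam n)) ⊆ {v | 0 < len v} := by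
  rintro v ⟨hv, hv'⟩
  refine st1c_len_pos hv' ?_
  rintro rfl
  rw [map_zero] at hv
  exact lt_irrefl _ hv

/-- an element with nonnegative exponents: the part of degree zero is constant -/
theorem st1c_pt {f : RR n} (hf : Su {v | ∀ a, 0 ≤ v a} f) :
    pt len f = (f.coeff 0) • (1 : RR n) := by
  apply AddMonoidAlgebra.coeff_injective
  ext v
  rw [pt_coeff, AddMonoidAlgebra.coeff_smul_apply]
  by_cases hv : v = 0
  · subst hv
    simp
  · have h1 : (1 : RR n).coeff v = 0 := by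
      rw [AddMonoidAlgebra.one_def, AddMonoidAlgebra.coeff_single, Finsupp.single_apply,
        if_neg (Ne.symm hv)]
    rw [h1, smul_zero]
    split_ifs with h
    · by_contra hc
      have h2 := st1c_len_pos (hf v hc) hv
      omega
    · rfl

/-- if `J` divides an element `R` whose part of degree zero is one, and the constant coefficient of `J` is a unit,
then the constant coefficient of the quotient is not zero -/
theorem st1c_quot {J E R : RR n} (hJ : Su {v | ∀ a, 0 ≤ v a} J) (hE : Su {v | 0 ≤ len v} E)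
    (hR : pt len R = 1) (h : R = J * E) : E.coeff 0 ≠ 0 := by
  intro hE0
  have h1 : pt len R = pt len J * pt len E := by
    rw [h]
    exact pt_mul (Su_mono (fun v hv => st1c_len hv) hJ) hE
  rw [hR, st1c_pt hJ, smul_mul_assoc, one_mul] at h1
  have h2 : (1 : RR n).coeff 0 = ((J.coeff 0) • pt len E).coeff 0 := by rw [← h1]
  rw [AddMonoidAlgebra.coeff_smul_apply, pt_coeff, if_pos (map_zero len), hE0, smul_zero] at h2
  simp at h2

theorem st1c_pt_pow {r : RR n} (hr : Su {v | 0 < len v} (r - 1)) (m : ℕ) :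
    Su {v | 0 ≤ len v} (r ^ m) ∧ pt len (r ^ m) = 1 := by
  have hr0 : Su {v | 0 ≤ len v} r := by
    refine st1c_one_add ?_ ?_ hr
    · show 0 ≤ len (0 : Lam n)
      rw [map_zero]
    · intro v hv
      have h1 : 0 < len v := hv
      exact h1.le
  have hr1 : pt len r = 1 := by
    have h2 : r = 1 + (r - 1) := by ring
    rw [h2, pt_add, pt_one, pt_pos hr, add_zero]
  induction m with
  | zero =>
    refine ⟨?_, ?_⟩
    · rw [pow_zero]
      refine Su_one ?_
      show 0 ≤ len (0 : Lam n)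
      rw [map_zero]
    · rw [pow_zero, pt_one]
  | succ m ih =>
    rw [pow_succ]
    refine ⟨Su_mul ?_ ih.1 hr0, ?_⟩
    · intro p hp q hq
      show 0 ≤ len (p + q)
      rw [map_add]
      exact add_nonneg hp hq
    · rw [pt_mul ih.1 hr0, ih.2, hr1, one_mul]

/-- `θ > 0` on the tokens: all exponents of `J` have `θ ≥ 0`.

Proof. `r ^ n = E * J`. (i) For `len` (the sum of the coordinates): all exponents of `J` and of `r` are
nonnegative vectors, `J` has a unit as constant coefficient (`JJ_zero`), `r` has constant coefficient one, so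
`Mn len J 0` and `Mn len (r ^ n) 0`, and by `Mn_mul`, `Mn_unique` `Mn len E 0`. Moreover the coefficient of
`E` at `0` is not zero: by `exists_Mn` there is an exponent `v` of `E` with `len v = 0`; use instead
`pt len`: `pt len (r ^ n) = 1`, `pt len J` is the constant coefficient `u` (a unit of `ℤ`, as a constant),
`pt_mul` gives `1 = pt len E * u`, so `pt len E` is the constant `u`. (ii) For `θ`: `Mn θ J c` with
`c ≤ 0` (exponent zero), `Mn θ E d` with `d ≤ 0`, and `Mn θ (r ^ n) 0` because `Su (QQ θ) (r - 1)`. So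
`c + d = 0`, `c = 0`. -/
theorem step1d {h : Fin n → List (Fin n)} {w : List (Fin n)} {N : ℕ} (H : HL h w N)
    {θ : Lam n →+ ℤ} (hθ : ∀ k < N, 0 < θ (par (sq h w k))) : Su {v | 0 ≤ θ v} (JJ h w) := by
  obtain ⟨r, hr, hrk⟩ := step1b H hθ
  obtain ⟨E, hE⟩ := step1c H r fun k _ => by
    obtain ⟨b, -, hb⟩ := mem_LW_iff.1 (hrk k)
    exact ⟨b, hb⟩
  have hJn : Su {v | ∀ a, 0 ≤ v a} (JJ h w) := JJ_nonneg h w
  have hJ0 : (JJ h w).coeff 0 ≠ 0 := (JJ_zero h w H.ne H.wne H.first).ne_zero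
  have hJne : JJ h w ≠ 0 := JJ_ne h w H.uni
  have hr0 : r.coeff 0 = 1 := st1c_coeff_zero (by
    rintro ⟨h1, -⟩
    rw [map_zero] at h1
    exact lt_irrefl _ h1) hr
  have hrne : r.coeff 0 ≠ 0 := by
    rw [hr0]
    exact one_ne_zero
  -- `len`
  obtain ⟨hp1, hp2⟩ := st1c_pt_pow (Su_mono (st1c_QQ θ) hr) n
  have hrl : Mn len r 0 := st1c_Mn hrne (by
    refine st1c_one_add ?_ ?_ hr
    · show 0 ≤ len (0 : Lam n)
      rw [map_zero]
    · intro v hv
      have h1 : 0 < len v := st1c_QQ θ hv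
      exact h1.le)
  have hJl : Mn len (JJ h w) 0 := st1c_Mn hJ0 (Su_mono (fun v hv => st1c_len hv) hJn)
  have hrp : Mn len (r ^ n) 0 := by
    have h1 := Mn_pow hrl n
    rwa [mul_zero] at h1
  have hEne : E ≠ 0 := by
    rintro rfl
    rw [mul_zero] at hE
    exact Mn_ne_zero hrp hE
  obtain ⟨d, hd⟩ := exists_Mn len E hEne
  have hd0 : d = 0 := by
    have h1 := Mn_mul hJl hd
    rw [← hE, zero_add] at h1
    exact Mn_unique h1 hrp
  subst hd0
  have hE0 : E.coeff 0 ≠ 0 := st1c_quot hJn hd.1 hp2 hE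
  -- `θ`
  have hrt : Mn θ r 0 := st1c_Mn hrne (by
    refine st1c_one_add ?_ ?_ hr
    · show 0 ≤ θ (0 : Lam n)
      rw [map_zero]
    · intro v hv
      exact le_of_lt hv.1)
  have hrtp : Mn θ (r ^ n) 0 := by
    have h1 := Mn_pow hrt n
    rwa [mul_zero] at h1
  obtain ⟨c, hc⟩ := exists_Mn θ _ hJne
  obtain ⟨d, hd'⟩ := exists_Mn θ _ hEne
  have h1 := Mn_mul hc hd'
  rw [← hE] at h1
  have h2 : c + d = 0 := Mn_unique h1 hrtp
  have h3 : c ≤ 0 := by
    have := hc.1 0 hJ0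
    rwa [map_zero] at this
  have h4 : d ≤ 0 := by
    have := hd'.1 0 hE0
    rwa [map_zero] at this
  have h5 : c = 0 := by omega
  subst h5
  exact hc.1

/-- The closed version. For an exponent `v` of `J` apply `step1d` to `K θ + len` for large `K`
(`len > 0` on the tokens: `sum_par`, `sq_ne`): `0 ≤ K θ v + len v` for all `K ≥ 0`, so `0 ≤ θ v`. -/
theorem JJ_supp {h : Fin n → List (Fin n)} {w : List (Fin n)} {N : ℕ} (H : HL h w N)
    {θ : Lam n →+ ℤ} (hθ : ∀ k < N, 0 ≤ θ (par (sq h w k))) : Su {v | 0 ≤ θ v} (JJ h w) := by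
  have hl : ∀ k, 0 < len (par (sq h w k)) := by
    intro k
    have h1 : len (par (sq h w k)) = ((sq h w k).length : ℤ) := sum_par _
    rw [h1]
    have h2 := List.length_pos_iff.2 (sq_ne h w H.ne H.wne k)
    exact_mod_cast h2
  intro v hv
  show 0 ≤ θ v
  by_contra hneg
  rw [not_le] at hneg
  have key : ∀ K : ℕ, 0 ≤ (K : ℤ) * θ v + len v := by
    intro K
    have h1 := step1d H (θ := (K • θ + len : Lam n →+ ℤ)) (fun k hk => by
      have e : (K • θ + len : Lam n →+ ℤ) (par (sq h w k)) = (K : ℤ) * θ (par (sq h w k)) + len (par (sq h w k)) := by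
        simp
      rw [e]
      have h2 := mul_nonneg (Int.natCast_nonneg K) (hθ k hk)
      have h3 := hl k
      omega) v hv
    have h2 : (K • θ + len : Lam n →+ ℤ) v = (K : ℤ) * θ v + len v := by
      simp
    have h3 : 0 ≤ (K • θ + len : Lam n →+ ℤ) v := h1
    rwa [h2] at h3
  have h1 := key ((len v).natAbs + 1)
  have h2 : (((len v).natAbs + 1 : ℕ) : ℤ) * θ v ≤ (((len v).natAbs + 1 : ℕ) : ℤ) * (-1) :=
    mul_le_mul_of_nonneg_left (by omega) (Int.natCast_nonneg _)
  push_cast at h1 h2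
  have h3 := le_abs_self (len v)
  omega

end Cdm
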