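import Pool.Agent.H.MP_374efc_lc.CD.St1c

/-!
# Step 1d: the Cramer numerators
-/

namespace Cdm

variable {n : ℕ}

/-- The determinant with row `i` replaced by the Fox vector of `w_k` (Cramer numerators). -/
noncomputable def JC (h : Fin n → List (Fin n)) (w : List (Fin n)) (k : ℕ) (i : Fin n) : RR n :=
  ((FM (fun i : Fin n => sq h w i)).updateRow i (cc h w k)).det

/-- Multiplication of the Cramer numerator by `r`. -/
theorem st1d_mul (h : Fin n → List (Fin n)) (w : List (Fin n)) (k : ℕ) (i : Fin n) (r : RR n)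
    (b : ℕ → RR n) (hb : r • cc h w k = ∑ j ∈ Finset.range n, b j • cc h w j) :
    r * JC h w k i = b i * JJ h w := by
  have h1 : r * JC h w k i =
      ((FM (fun i : Fin n => sq h w i)).updateRow i (r • cc h w k)).det := by
    unfold JC
    rw [Matrix.det_updateRow_smul]
  have h2 : r • cc h w k = ∑ j : Fin n, (b j) • (FM (fun i : Fin n => sq h w i)) j := by
    rw [hb, Finset.sum_range]
    rfl
  rw [h1, h2, Matrix.det_updateRow_sum]
  rfl

/-- An element `r` with `r - 1` of positive degree has minimum zero. -/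
theorem st1d_Mn {θ : Lam n →+ ℤ} {r : RR n} (hr : Su (QQ θ) (r - 1)) : Mn θ r 0 := by
  have hco : ∀ v, (r - 1 : RR n).coeff v = r.coeff v - (1 : RR n).coeff v := fun v => rfl
  have hone : ∀ v : Lam n, (1 : RR n).coeff v = if v = 0 then 1 else 0 := by
    intro v
    rw [AddMonoidAlgebra.one_def]
    by_cases hv : v = 0
    · subst hv
      simp
    · rw [if_neg hv]
      simp [Ne.symm hv]
  constructor
  · intro v hv
    by_cases h0 : (r - 1 : RR n).coeff v = 0
    · rw [hco, hone] at h0
      by_cases hv0 : v = 0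
      · rw [hv0, map_zero]
      · rw [if_neg hv0, sub_zero] at h0
        exact absurd h0 hv
    · exact le_of_lt (hr v h0).1
  · refine ⟨0, ?_, map_zero θ⟩
    intro h0
    have h1 : (r - 1 : RR n).coeff 0 ≠ 0 := by
      rw [hco, hone, if_pos rfl, h0]
      norm_num
    have h2 := (hr 0 h1).1
    rw [map_zero] at h2
    exact absurd h2 (lt_irrefl _)

/-- The positive version. -/
theorem st1d_pos {h : Fin n → List (Fin n)} {w : List (Fin n)} {N : ℕ} (H : HL h w N)
    {θ : Lam n →+ ℤ} (hθ : ∀ k < N, 0 < θ (par (sq h w k))) (k : ℕ) (i : Fin n) :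
    Su {v | 0 ≤ θ v} (JC h w k i) := by
  obtain ⟨r, hr1, hr⟩ := step1b H hθ
  obtain ⟨b, hb, hbe⟩ := mem_LW_iff.1 (hr k)
  have hmul := st1d_mul h w k i r b hbe
  have hJ := step1d H hθ
  have hPP : Su {v : Lam n | 0 ≤ θ v} (b i) := by
    intro v hv
    rcases hb i v hv with h0 | h0
    · show 0 ≤ θ v
      rw [h0, map_zero]
    · exact le_of_lt h0.1
  have hprod : Su {v : Lam n | 0 ≤ θ v} (b i * JJ h w) := by
    refine Su_mul ?_ hPP hJ
    intro p hp q hq
    show 0 ≤ θ (p + q)
    rw [map_add]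
    exact add_nonneg hp hq
  by_cases h0 : JC h w k i = 0
  · rw [h0]
    exact Su_zero _
  · obtain ⟨c, hc⟩ := exists_Mn θ (JC h w k i) h0
    have hm := Mn_mul (st1d_Mn hr1) hc
    rw [zero_add, hmul] at hm
    obtain ⟨v, hv, hvc⟩ := hm.2
    have hc0 : 0 ≤ c := by
      rw [← hvc]
      exact hprod v hv
    intro u hu
    exact le_trans hc0 (hc.1 u hu)

/-- The exponents of the Cramer numerators have `θ ≥ 0`.

Proof. For `θ > 0` on the tokens: `r c_k = ∑_i f_i c_i` with `f_i` supported in `PP θ` (`step1b`,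
`mem_LW_iff`). The determinant is linear in row `i` and vanishes if two rows agree, so
`r * JC k i = f_i * J`. Minima (`Mn_mul`): `Mn θ r 0`, and `J`, `f_i` have exponents with `θ ≥ 0` only. So
the minimum of `JC k i` is `≥ 0` (if `JC k i ≠ 0`). In general use `K θ + len` as in `JJ_supp`. -/
theorem JC_supp {h : Fin n → List (Fin n)} {w : List (Fin n)} {N : ℕ} (H : HL h w N)
    {θ : Lam n →+ ℤ} (hθ : ∀ k < N, 0 ≤ θ (par (sq h w k))) (k : ℕ) (i : Fin n) :
    Su {v | 0 ≤ θ v} (JC h w k i) := by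
  intro v hv
  have key : ∀ K : ℕ, 0 ≤ (K : ℤ) * θ v + len v := by
    intro K
    have hK : ∀ j < N, 0 < (K • θ + len : Lam n →+ ℤ) (par (sq h w j)) := by
      intro j hj
      have h1 : (K • θ + len : Lam n →+ ℤ) (par (sq h w j)) = (K : ℤ) * θ (par (sq h w j)) +
          len (par (sq h w j)) := by
        simp
      have h2 : len (par (sq h w j)) = ((sq h w j).length : ℤ) := sum_par _
      have h3 : 0 < (sq h w j).length := List.length_pos_of_ne_nil (sq_ne h w H.ne H.wne j)
      rw [h1, h2]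
      have h4 : 0 ≤ (K : ℤ) * θ (par (sq h w j)) := mul_nonneg (Int.natCast_nonneg K) (hθ j hj)
      have h5 : (0 : ℤ) < ((sq h w j).length : ℤ) := by exact_mod_cast h3
      linarith
    have h6 := st1d_pos H hK k i v hv
    have h7 : 0 ≤ (K • θ + len : Lam n →+ ℤ) v := h6
    simpa using h7
  show 0 ≤ θ v
  by_contra hneg
  have hneg' : θ v ≤ -1 := by
    have := not_le.1 hneg
    omega
  have h8 := key ((len v).natAbs + 1)
  have h9 : len v ≤ ((len v).natAbs : ℤ) := Int.le_natAbs
  push_cast at h8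
  have h9' : len v ≤ |len v| := le_abs_self _
  have h10 : 0 ≤ |len v| := abs_nonneg _
  nlinarith

end Cdm
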