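import Pool.Agent.H.MP_374efc_lc.CD.St1c

/-!
# Step 2: the exponents of D_h
-/

namespace Cdm

variable {n : ℕ}

/-- `det (c_1, ..., c_n) = h^*(J) * D_h` (`FM_ext`, `Matrix.det_mul`, `RingHom.map_det`). -/
theorem det_shift (h : Fin n → List (Fin n)) (w : List (Fin n)) :
    (FM (fun i : Fin n => sq h w (i + 1))).det = hs h (JJ h w) * DD h := by
  have e : FM (fun i : Fin n => sq h w (i + 1))
      = (FM (fun i : Fin n => sq h w i)).map (hs h) * FM h :=
    FM_ext h (fun i : Fin n => sq h w i)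
  rw [e, Matrix.det_mul]
  unfold JJ DD
  rw [RingHom.map_det]
  rfl

/-- rows `c 1, ..., c (m+1)`: replacing the last row -/
theorem st2_det {R : Type*} [CommRing R] {m : ℕ} (c : ℕ → (Fin (m + 1) → R)) (r : R) (f : ℕ → R)
    (hr : r • c (m + 1) = ∑ i ∈ Finset.range (m + 1), f i • c i) :
    ∃ ε : ℤˣ, r * (Matrix.of (fun i : Fin (m + 1) => c (i + 1))).det
      = (ε : ℤ) • (f 0 * (Matrix.of (fun i : Fin (m + 1) => c i)).det) := by
  set M : Matrix (Fin (m + 1)) (Fin (m + 1)) R := Matrix.of (fun i : Fin (m + 1) => c (i + 1))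
    with hM
  set L : Matrix (Fin (m + 1)) (Fin (m + 1)) R := Matrix.of (fun i : Fin (m + 1) => c i) with hL
  let φ : (Fin (m + 1) → R) →ₗ[R] R :=
    { toFun := fun x => (M.updateRow (Fin.last m) x).det
      map_add' := fun x y => Matrix.det_updateRow_add M (Fin.last m) x y
      map_smul' := fun a x => Matrix.det_updateRow_smul M (Fin.last m) a x }
  have hφ : ∀ x, φ x = (M.updateRow (Fin.last m) x).det := fun x => rfl
  have h1 : φ (c (m + 1)) = M.det := by
    rw [hφ]
    congr 1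
    have : c (m + 1) = M (Fin.last m) := rfl
    rw [this, Matrix.updateRow_eq_self]
  have h2 : r * M.det = ∑ i ∈ Finset.range (m + 1), f i * φ (c i) := by
    rw [← h1, ← smul_eq_mul, ← map_smul, hr, map_sum]
    exact Finset.sum_congr rfl fun i _ => by rw [map_smul, smul_eq_mul]
  have h3 : ∀ i ∈ Finset.range (m + 1), i ≠ 0 → f i * φ (c i) = 0 := by
    intro i hi hi0
    rw [Finset.mem_range] at hi
    obtain ⟨j, rfl⟩ := Nat.exists_eq_succ_of_ne_zero hi0
    have hj : j < m := by omega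
    have hne : (⟨j, by omega⟩ : Fin (m + 1)) ≠ Fin.last m := by
      intro he
      have := congrArg Fin.val he
      simp at this
      omega
    rw [hφ, Matrix.det_zero_of_row_eq hne, mul_zero]
    rw [Matrix.updateRow_ne hne, Matrix.updateRow_self]
    rfl
  have h4 : φ (c 0) = (((finRotate (m + 1)).sign : ℤˣ) : ℤ) • L.det := by
    have e : M.updateRow (Fin.last m) (c 0) = L.submatrix (finRotate (m + 1)) id := by
      ext i j
      by_cases hi : i = Fin.last m
      · subst hi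
        rw [Matrix.updateRow_self, Matrix.submatrix_apply, finRotate_last]
        rfl
      · rw [Matrix.updateRow_ne hi, Matrix.submatrix_apply]
        show c (i + 1) j = c (finRotate (m + 1) i) (id j)
        rw [coe_finRotate_of_ne_last hi]
        rfl
    rw [hφ, e, Matrix.det_permute, zsmul_eq_mul]
  refine ⟨(finRotate (m + 1)).sign, ?_⟩
  rw [h2, Finset.sum_eq_single_of_mem 0 (Finset.mem_range.2 (Nat.succ_pos m)) h3, h4,
    mul_smul_comm]

/-- `r c_n = ∑ f_i c_i` implies `r * det (c_1, ..., c_n) = ± f_0 * J`: replace the last row. -/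
theorem det_shift_eq {h : Fin n → List (Fin n)} {w : List (Fin n)} (hn : 0 < n) (r : RR n)
    (f : ℕ → RR n) (hr : r • cc h w n = ∑ i ∈ Finset.range n, f i • cc h w i) :
    ∃ ε : ℤˣ, r * (FM (fun i : Fin n => sq h w (i + 1))).det = (ε : ℤ) • (f 0 * JJ h w) := by
  obtain ⟨m, rfl⟩ := Nat.exists_eq_succ_of_ne_zero hn.ne'
  exact st2_det (cc h w) r f hr

/-- `r - 1` in the ideal of positive degree -/
theorem st2_Mn_r {θ : Lam n →+ ℤ} {r : RR n} (hr : Su (QQ θ) (r - 1)) : Mn θ r 0 := by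
  have e : r = (r - 1) + 1 := by ring
  refine ⟨?_, 0, ?_, map_zero θ⟩
  · intro v hv
    by_cases h1 : (r - 1).coeff v = 0
    · rw [e, AddMonoidAlgebra.coeff_add, Finsupp.add_apply, h1, zero_add] at hv
      have h2 : Su {v : Lam n | 0 ≤ θ v} (1 : RR n) := Su_one (by
        show 0 ≤ θ 0
        rw [map_zero])
      exact h2 v hv
    · exact (hr v h1).1.le
  · have h1 : (r - 1).coeff 0 = 0 := by
      by_contra h1
      have := (hr 0 h1).1
      rw [map_zero] at this
      exact lt_irrefl _ this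
    rw [e, AddMonoidAlgebra.coeff_add, Finsupp.add_apply, h1, zero_add,
      AddMonoidAlgebra.coeff_one_zero]
    exact one_ne_zero

theorem st2_Mn_units {θ : Lam n →+ ℤ} {f : RR n} {c : ℤ} (ε : ℤˣ) (hf : Mn θ f c) :
    Mn θ ((ε : ℤ) • f) c := by
  rcases Int.units_eq_one_or ε with he | he
  · subst he
    rw [Units.val_one, one_smul]
    exact hf
  · subst he
    rw [Units.val_neg, Units.val_one, neg_smul, one_smul]
    obtain ⟨h1, v, hv, hvc⟩ := hf
    have hc : ∀ u : Lam n, (-f).coeff u = -(f.coeff u) := fun u => by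
      rw [AddMonoidAlgebra.coeff_neg, Finsupp.neg_apply]
    refine ⟨fun u hu => h1 u ?_, v, ?_, hvc⟩
    · rw [hc] at hu
      exact fun h0 => hu (by rw [h0, neg_zero])
    · rw [hc]
      exact neg_ne_zero.2 hv

/-- `θ` is positive on nonempty products of tokens -/
theorem st2_pos_pw {h : Fin n → List (Fin n)} {w : List (Fin n)} {N : ℕ} {θ : Lam n →+ ℤ}
    (hθ : ∀ k < N, 0 < θ (par (sq h w k))) (U : List ℕ) (hU : ∀ i ∈ U, i < N) :
    0 ≤ θ (par (pw h w U)) ∧ (U ≠ [] → 0 < θ (par (pw h w U))) := by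
  induction U with
  | nil =>
    refine ⟨?_, fun h => absurd rfl h⟩
    rw [pw_nil, par_nil, map_zero]
  | cons k U ih =>
    have h1 := (ih fun i hi => hU i (List.mem_cons_of_mem _ hi)).1
    have h2 := hθ k (hU k List.mem_cons_self)
    have h3 : 0 < θ (par (pw h w (k :: U))) := by
      rw [pw_cons, par_append, map_add]
      omega
    exact ⟨h3.le, fun _ => h3⟩

theorem st2_pos_sq {h : Fin n → List (Fin n)} {w : List (Fin n)} {N : ℕ} (H : HL h w N)
    {θ : Lam n →+ ℤ} (hθ : ∀ k < N, 0 < θ (par (sq h w k))) (k : ℕ) :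
    0 < θ (par (sq h w k)) := by
  obtain ⟨U, hU, he⟩ := mem_M H.lc k
  rw [he]
  refine (st2_pos_pw hθ U hU).2 ?_
  rintro rfl
  exact sq_ne h w H.ne H.wne k he

theorem st2_DD_ne {h : Fin n → List (Fin n)} (hd : (mat h).det ≠ 0) : DD h ≠ 0 := by
  intro h0
  apply hd
  rw [← aug_DD, h0, map_zero]

theorem st2_Mn_J {h : Fin n → List (Fin n)} {w : List (Fin n)} {N : ℕ} (H : HL h w N)
    {θ : Lam n →+ ℤ} (hθ : ∀ k < N, 0 < θ (par (sq h w k))) : Mn θ (JJ h w) 0 :=
  ⟨step1d H hθ, 0, (JJ_zero h w H.ne H.wne H.first).ne_zero, map_zero θ⟩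

/-- The case `θ > 0` on the tokens. -/
theorem st2_strict {h : Fin n → List (Fin n)} {w : List (Fin n)} {N : ℕ} (H : HL h w N)
    (hd : (mat h).det ≠ 0)
    {θ : Lam n →+ ℤ} (hθ : ∀ k < N, 0 < θ (par (sq h w k))) : Su {v | 0 ≤ θ v} (DD h) := by
  obtain ⟨r, hr1, hr2⟩ := step1b H hθ
  obtain ⟨f, hf, hfe⟩ := mem_LW_iff.1 (hr2 n)
  obtain ⟨ε, hε⟩ := det_shift_eq H.npos r f hfe
  rw [det_shift] at hε
  obtain ⟨d, hMd⟩ := exists_Mn θ (DD h) (st2_DD_ne hd)
  have hθ' : ∀ k < N, 0 < (θ.comp (mh h)) (par (sq h w k)) := by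
    intro k _
    have h1 := st2_pos_sq H hθ (k + 1)
    have h2 : par (sq h w (k + 1)) = mh h (par (sq h w k)) := par_ext h (sq h w k)
    rw [h2] at h1
    exact h1
  have hA : Mn θ (hs h (JJ h w)) 0 := Mn_hs h hd (st2_Mn_J H hθ')
  have hL := Mn_mul (st2_Mn_r hr1) (Mn_mul hA hMd)
  have hL0 := Mn_ne_zero hL
  have hf0 : f 0 ≠ 0 := by
    intro h0
    apply hL0
    rw [hε, h0, zero_mul, smul_zero]
  obtain ⟨e, hMe⟩ := exists_Mn θ (f 0) hf0
  have hR := st2_Mn_units ε (Mn_mul hMe (st2_Mn_J H hθ))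
  rw [← hε] at hR
  have hde := Mn_unique hL hR
  have he0 : 0 ≤ e := by
    obtain ⟨-, v, hv, hve⟩ := hMe
    rw [← hve]
    rcases hf 0 v hv with h1 | h1
    · rw [h1, map_zero]
    · exact h1.1.le
  intro v hv
  have h1 := hMd.1 v hv
  show 0 ≤ θ v
  omega

/-- The exponents of `D_h` have `θ ≥ 0`.

Proof. As for `JJ_supp` it suffices to treat `θ > 0` on the tokens `k < N`; then `θ A > 0` on the tokens
too (`w_(k+1)` is a nonempty product of tokens, `mem_M`). `r` from `step1b`. By `det_shift` and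
`det_shift_eq` `r * hs h J * D_h = ± f_0 * J`. If `D_h ≠ 0` (we have `det A ≠ 0`: `aug_DD`) take minima:
`Mn θ r 0`, `Mn θ J 0` (`step1d`, and exponent zero), `Mn θ (hs h J) 0` (`Mn_hs`, `step1d` for `θ A`), so
`Mn θ D_h d`, `Mn θ f_0 d` with the same `d`, and `d ≥ 0` as `f_0` is supported in `PP θ`. -/
theorem DD_supp {h : Fin n → List (Fin n)} {w : List (Fin n)} {N : ℕ} (H : HL h w N)
    (hd : (mat h).det ≠ 0)
    {θ : Lam n →+ ℤ} (hθ : ∀ k < N, 0 ≤ θ (par (sq h w k))) : Su {v | 0 ≤ θ v} (DD h) := by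
  intro v hv
  show 0 ≤ θ v
  by_contra hneg
  push Not at hneg
  have hlen : ∀ k, 0 < len (par (sq h w k)) := by
    intro k
    have h1 : len (par (sq h w k)) = ((sq h w k).length : ℤ) := sum_par (sq h w k)
    rw [h1]
    exact_mod_cast List.length_pos_iff.2 (sq_ne h w H.ne H.wne k)
  set K : ℕ := (len v).natAbs + 1 with hK
  have h1 : ∀ k < N, 0 < (K • θ + len : Lam n →+ ℤ) (par (sq h w k)) := by
    intro k hk
    have h2 := hθ k hk
    have h3 := hlen k
    have h4 : (K • θ + len : Lam n →+ ℤ) (par (sq h w k)) = (K : ℤ) * θ (par (sq h w k)) + len (par (sq h w k)) := by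
      simp
    rw [h4]
    have h5 : 0 ≤ (K : ℤ) * θ (par (sq h w k)) := mul_nonneg (by positivity) h2
    omega
  have h2 : 0 ≤ (K • θ + len : Lam n →+ ℤ) v := st2_strict H hd h1 v hv
  have h3 : (K • θ + len : Lam n →+ ℤ) v = (K : ℤ) * θ v + len v := by
    simp
  rw [h3] at h2
  have h4 : (K : ℤ) = |len v| + 1 := by
    rw [hK]
    push_cast
    rfl
  have h5 : (K : ℤ) * θ v ≤ (K : ℤ) * (-1) := by
    apply mul_le_mul_of_nonneg_left _ (by positivity)
    omega
  have h6 := le_abs_self (len v)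
  rw [h4] at h2 h5
  linarith

end Cdm
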