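import Pool.Agent.H.MP_374efc_lc.CD.St2
import Pool.Agent.H.MP_374efc_lc.CD.Rv2

/-!
# Step 2: both sides
-/

namespace Cdm

variable {n : ℕ}

theorem st2b_exists {f : RR n} (hf : f ≠ 0) : ∃ v, f.coeff v ≠ 0 := by
  by_contra hcon
  push Not at hcon
  apply hf
  apply AddMonoidAlgebra.coeff_injective
  ext v
  rw [hcon v]
  rfl

theorem st2b_rv {h : Fin n → List (Fin n)} {w : List (Fin n)} {N : ℕ}
    {θ : Lam n →+ ℤ} (hθ : ∀ k < N, 0 ≤ θ (par (sq h w k))) :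
    ∀ k < N, 0 ≤ θ (par (sq (rv h) w.reverse k)) := by
  intro k hk
  rw [sq_rv, par_reverse]
  exact hθ k hk

/-- Both sides: `θ (A 1 - 1) ≥ 0`. Take an exponent `v` of `D_h` (`D_h ≠ 0` by `aug_DD`); `θ v ≥ 0`, and
`A 1 - 1 - v` is an exponent of `D` of the reversed system (`DD_rv`, `coeff_X_bar`), so
`θ (A 1 - 1 - v) ≥ 0`. -/
theorem rho_nonneg {h : Fin n → List (Fin n)} {w : List (Fin n)} {N : ℕ} (H : HL h w N)
    (H' : HL (rv h) w.reverse N) (hd : (mat h).det ≠ 0)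
    {θ : Lam n →+ ℤ} (hθ : ∀ k < N, 0 ≤ θ (par (sq h w k))) :
    0 ≤ θ (mh h (fun _ => 1) - (fun _ => 1)) := by
  have h1 := DD_supp H hd hθ
  have hd' : (mat (rv h)).det ≠ 0 := by
    rw [mat_rv]
    exact hd
  have h2 := DD_supp H' hd' (st2b_rv hθ)
  have h3 : DD h ≠ 0 := by
    intro h4
    have h5 := aug_DD h
    rw [h4, map_zero] at h5
    exact hd h5.symm
  obtain ⟨v, hv⟩ := st2b_exists h3
  have h6 : 0 ≤ θ v := h1 v hv
  have h7 : 0 ≤ θ (mh h (fun _ => 1) - (fun _ => 1) - v) := by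
    refine h2 _ ?_
    rw [DD_rv, coeff_X_bar, sub_sub_cancel]
    exact hv
  rw [map_sub θ _ v] at h7
  linarith

/-- The vector `e = ∑_(i<n) [w_i] - 1`. -/
def ee (h : Fin n → List (Fin n)) (w : List (Fin n)) : Lam n :=
  ∑ i : Fin n, par (sq h w i) - (fun _ => 1)

/-- Both sides: every exponent `v` of `J` satisfies `0 ≤ θ v ≤ θ e` (`JJ_supp` for both systems, `JJ_rv`,
`coeff_X_bar`). -/
theorem JJ_le {h : Fin n → List (Fin n)} {w : List (Fin n)} {N : ℕ} (H : HL h w N)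
    (H' : HL (rv h) w.reverse N) {θ : Lam n →+ ℤ} (hθ : ∀ k < N, 0 ≤ θ (par (sq h w k))) :
    Su {v | 0 ≤ θ v ∧ θ v ≤ θ (ee h w)} (JJ h w) := by
  intro v hv
  have h1 : 0 ≤ θ v := JJ_supp H hθ v hv
  have h2 : 0 ≤ θ (ee h w - v) := by
    refine JJ_supp H' (st2b_rv hθ) _ ?_
    rw [JJ_rv, coeff_X_bar]
    have h3 : (∑ i : Fin n, par (sq h w i) - (fun _ => 1) : Lam n) - (ee h w - v) = v := by
      unfold ee
      rw [sub_sub_cancel]
    rw [h3]
    exact hv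
  rw [map_sub] at h2
  exact ⟨h1, by linarith⟩

/-- In particular `θ e ≥ 0`. -/
theorem ee_nonneg {h : Fin n → List (Fin n)} {w : List (Fin n)} {N : ℕ} (H : HL h w N)
    (H' : HL (rv h) w.reverse N) {θ : Lam n →+ ℤ} (hθ : ∀ k < N, 0 ≤ θ (par (sq h w k))) :
    0 ≤ θ (ee h w) := by
  obtain ⟨v, hv⟩ := st2b_exists (JJ_ne h w H.uni)
  obtain ⟨h1, h2⟩ := JJ_le H H' hθ v hv
  exact h1.trans h2

/-- The coefficient of `J` at `e` is a unit (`JJ_zero` for the reversed system, `JJ_rv`). -/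
theorem JJ_top {h : Fin n → List (Fin n)} {w : List (Fin n)} {N : ℕ}
    (H' : HL (rv h) w.reverse N) : IsUnit ((JJ h w).coeff (ee h w)) := by
  have h1 := JJ_zero (rv h) w.reverse H'.ne H'.wne H'.first
  rw [JJ_rv, coeff_X_bar, sub_zero] at h1
  exact h1

end Cdm
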