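import Pool.Agent.H.MP_374efc_lc.CD.St2b
import Pool.Agent.H.MP_374efc_lc.CD.Ab2

/-!
# The number q is positive
-/

namespace Cdm

variable {n : ℕ}

theorem st4_len_par (u : List (Fin n)) : len (par u) = (u.length : ℤ) := by
  show ∑ a, par u a = (u.length : ℤ)
  exact sum_par u

theorem st4_len_rho (h : Fin n → List (Fin n)) (hne : ∀ a, h a ≠ [])
    (hbig : ∃ a, 1 < (h a).length) :
    0 < len (mh h (fun _ => 1) - (fun _ => 1)) := by
  obtain ⟨b, hb⟩ := hbig
  have e1 : len (mh h (fun _ => 1)) = ∑ a : Fin n, ((h a).length : ℤ) := by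
    rw [← sum_par_h, map_sum]
    exact Finset.sum_congr rfl fun a _ => st4_len_par (h a)
  have e2 : len (fun _ => 1 : Lam n) = ∑ _a : Fin n, (1 : ℤ) := rfl
  rw [map_sub, e1, e2, sub_pos]
  refine Finset.sum_lt_sum (fun a _ => ?_) ⟨b, Finset.mem_univ b, ?_⟩
  · have := List.length_pos_iff.2 (hne a)
    omega
  · exact_mod_cast hb

/-- `η (1) ≥ 1`. Apply `rho_nonneg` to `θ = K ψ - len` with `K = ∑_(k<N) |w_k|` (nonnegative on the tokens by
`psi_pos`, `sum_par`): `K ψ(ρ) ≥ len ρ = ∑ |h a| - n > 0` for `ρ = A 1 - 1`, so `ψ ρ > 0`; and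
`ψ ρ = - χ(1) η(1)` by `psi_mh`, with `χ(1) < 0`. -/
theorem q_pos {h : Fin n → List (Fin n)} {w : List (Fin n)} {N : ℕ} (H : HL h w N)
    (H' : HL (rv h) w.reverse N) (hbig : ∃ a, 1 < (h a).length) :
    1 ≤ eta h w (fun _ => 1) := by
  have hu := H.uni
  have hchi := chi_neg H
  have hd := det_ne H
  set K : ℤ := ∑ k ∈ Finset.range N, ((sq h w k).length : ℤ) with hK
  have hK0 : 0 ≤ K := Finset.sum_nonneg fun k _ => by positivity
  set θ : Lam n →+ ℤ := K • psi h w - len with hθdef
  have hθv : ∀ v, θ v = K * psi h w v - len v := by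
    intro v
    rw [hθdef]
    simp
  have hθ : ∀ k < N, 0 ≤ θ (par (sq h w k)) := by
    intro k hk
    rw [hθv, st4_len_par]
    have h1 := psi_pos H k
    have h2 : ((sq h w k).length : ℤ) ≤ K :=
      Finset.single_le_sum (f := fun k => ((sq h w k).length : ℤ)) (fun k _ => by positivity)
        (Finset.mem_range.2 hk)
    nlinarith
  have h3 := rho_nonneg H H' hd hθ
  rw [hθv] at h3
  have h4 := st4_len_rho h H.ne hbig
  have h5 : 0 < psi h w (mh h (fun _ => 1) - (fun _ => 1)) := by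
    by_contra hcon
    push Not at hcon
    nlinarith
  rw [map_sub, psi_mh h w hu] at h5
  have h6 : 0 < eta h w (fun _ => 1) := by
    by_contra hcon
    push Not at hcon
    nlinarith
  omega

/-- Induction: `η_(j+1) (1) = η_j (A 1) = η_j (1) + η_j (ρ)`, `rho_nonneg` for `η_j`. -/
theorem etj_one {h : Fin n → List (Fin n)} {w : List (Fin n)} {N : ℕ} (H : HL h w N)
    (H' : HL (rv h) w.reverse N) (hbig : ∃ a, 1 < (h a).length) (j : ℕ) :
    1 ≤ etj h w j (fun _ => 1) := by
  have hd := det_ne H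
  induction j with
  | zero => exact q_pos H H' hbig
  | succ j ih =>
    have e : etj h w (j + 1) (fun _ => 1) = etj h w j (mh h (fun _ => 1)) := rfl
    have h1 := rho_nonneg H H' hd (θ := etj h w j) (fun k _ => by
      rw [etj_tok]
      exact eta_nonneg H.npos H.uni (k + j))
    rw [map_sub] at h1
    rw [e]
    linarith

end Cdm
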