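import Pool.Agent.H.MP_374efc_lc.CD.St4

/-!
# The functional Theta
-/

namespace Cdm

variable {n : ℕ}

/-- `∑_(i<n) η (w_(i+j)) ≤ 1` for `j < j_1`. -/
theorem st4b_sum_le {h : Fin n → List (Fin n)} {w : List (Fin n)} (hn : 0 < n)
    (hu : IsUnit (WM h w).det) {j₁ : ℕ} (hz : ∀ i, 1 ≤ i → i < j₁ → ss h w i = 0) {j : ℕ}
    (hj : j < j₁) : ∑ i : Fin n, eta h w (par (sq h w (i + j))) ≤ 1 := by
  have h1 : ∀ i : Fin n, eta h w (par (sq h w (i + j))) ≤
      if (i : ℕ) = n - 1 - j ∧ j ≤ n - 1 then 1 else 0 := by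
    intro i
    have hi := i.2
    rcases Nat.lt_trichotomy ((i : ℕ) + j) (n - 1) with hlt | heq | hgt
    · rw [eta_tok h w hu (i + j) (by omega), if_neg (by omega)]
      split_ifs <;> norm_num
    · rw [if_pos ⟨by omega, by omega⟩, heq, eta_tok h w hu (n - 1) (by omega), if_pos (by omega)]
    · have h2 := hz ((i : ℕ) + j - (n - 1)) (by omega) (by omega)
      unfold ss at h2
      have h3 : n - 1 + ((i : ℕ) + j - (n - 1)) = i + j := by omega
      rw [h3] at h2
      rw [h2]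
      split_ifs <;> norm_num
  refine (Finset.sum_le_sum fun i _ => h1 i).trans ?_
  by_cases hjn : j ≤ n - 1
  · rw [Finset.sum_eq_single (⟨n - 1 - j, by omega⟩ : Fin n)]
    · rw [if_pos ⟨rfl, hjn⟩]
    · intro i _ hi
      rw [if_neg]
      rintro ⟨h2, -⟩
      exact hi (Fin.ext h2)
    · intro h2
      exact absurd (Finset.mem_univ _) h2
  · rw [Finset.sum_eq_zero]
    · norm_num
    · intro i _
      rw [if_neg]
      rintro ⟨-, h2⟩
      exact hjn h2

theorem st4b_nn {h : Fin n → List (Fin n)} {w : List (Fin n)} (hn : 0 < n)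
    (hu : IsUnit (WM h w).det) (j k : ℕ) : 0 ≤ etj h w j (par (sq h w k)) := by
  rw [etj_tok]
  exact eta_nonneg hn hu (k + j)

/-- `η_j e = 0` for `j < j_1`. -/
theorem st4b_ee {h : Fin n → List (Fin n)} {w : List (Fin n)} {N : ℕ} (H : HL h w N)
    (H' : HL (rv h) w.reverse N) (hbig : ∃ a, 1 < (h a).length) {j₁ : ℕ}
    (hz : ∀ i, 1 ≤ i → i < j₁ → ss h w i = 0) {j : ℕ} (hj : j < j₁) :
    etj h w j (ee h w) = 0 := by
  refine le_antisymm ?_ (ee_nonneg H H' fun k _ => st4b_nn H.npos H.uni j k)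
  have h1 := etj_one H H' hbig j
  have h2 := st4b_sum_le (h := h) (w := w) H.npos H.uni hz hj
  have h3 : etj h w j (ee h w) =
      ∑ i : Fin n, eta h w (par (sq h w (i + j))) - etj h w j (fun _ => 1) := by
    unfold ee
    rw [map_sub, map_sum]
    congr 1
    exact Finset.sum_congr rfl fun i _ => etj_tok h w j i
  rw [h3]
  linarith

/-- `Θ = ∑_(j < j_1) η_j` with `j_1` from `exists_ss_pos`.

Proof. `Θ ≥ 0` on the tokens by `etj_tok` and `eta_nonneg`. For `k ≥ n`: `Θ (w_k)` is a sum of `j_1`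
consecutive `s_i`, positive by `s_window`. For `j < j_1`: `η_j (∑_(i<n) [w_i])` is the sum of the
`η (w_(i+j))`, `i < n`: the indices `i + j < n - 1` give `0` (`eta_tok`), `i + j = n - 1` gives `1`, and
`i + j = n - 1 + t` with `1 ≤ t ≤ j < j_1` gives `s_t = 0`. So it is `≤ 1` and `η_j e ≤ 1 - η_j (1) ≤ 0` by
`etj_one`; and `η_j e ≥ 0` by `ee_nonneg`. -/
theorem exists_Theta {h : Fin n → List (Fin n)} {w : List (Fin n)} {N : ℕ} (H : HL h w N)
    (H' : HL (rv h) w.reverse N) (hbig : ∃ a, 1 < (h a).length) :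
    ∃ Θ : Lam n →+ ℤ, (∀ k < N, 0 ≤ Θ (par (sq h w k))) ∧
      (∀ k, n ≤ k → k < N → 0 < Θ (par (sq h w k))) ∧ Θ (ee h w) = 0 := by
  obtain ⟨j₁, hj1, hp, hz⟩ := exists_ss_pos H
  have hnp := H.npos
  have hS : ∀ v, (∑ j ∈ Finset.range j₁, etj h w j : Lam n →+ ℤ) v =
      ∑ j ∈ Finset.range j₁, etj h w j v := fun v => by
    rw [AddMonoidHom.finsetSum_apply]
  refine ⟨∑ j ∈ Finset.range j₁, etj h w j, ?_, ?_, ?_⟩
  · intro k _
    rw [hS]
    exact Finset.sum_nonneg fun j _ => st4b_nn hnp H.uni j k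
  · intro k hk _
    rw [hS]
    have h1 := s_window (fun k => ((mat h) ^ k).trace) (ss h w) (fun k _ => trace_nonneg h k)
      (ss_zero hnp H.uni) (ss_rec hnp H.uni) j₁ hj1 hz hp (k - (n - 1))
    have h2 : ∑ j ∈ Finset.range j₁, etj h w j (par (sq h w k)) =
        ∑ l ∈ Finset.range j₁, ss h w (k - (n - 1) + l) := by
      refine Finset.sum_congr rfl fun j _ => ?_
      rw [etj_tok]
      unfold ss
      have h3 : n - 1 + (k - (n - 1) + j) = k + j := by omega
      rw [h3]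
    rw [h2]
    exact h1
  · rw [hS]
    exact Finset.sum_eq_zero fun j hj => st4b_ee H H' hbig hz (Finset.mem_range.1 hj)

end Cdm
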