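import Pool.Agent.H.MP_374efc_lc.CD.St2b
import Pool.Agent.H.MP_374efc_lc.CD.St1d

/-!
# Step 3: Cramer functionals and the integers mu
-/

namespace Cdm

variable {n : ℕ}

/-- The Cramer functional: the determinant with row `i` replaced by `x`, linear in `x`. -/
noncomputable def Lm (h : Fin n → List (Fin n)) (w : List (Fin n)) (i : Fin n) :
    (Fin n → RR n) →ₗ[RR n] RR n where
  toFun x := ((FM (fun i : Fin n => sq h w i)).updateRow i x).det
  map_add' x y := by
    rw [Matrix.det_updateRow_add]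
  map_smul' r x := by
    rw [Matrix.det_updateRow_smul, RingHom.id_apply, smul_eq_mul]

/-- For `k < n`: row `k` twice, or `J`. -/
theorem Lm_tok (h : Fin n → List (Fin n)) (w : List (Fin n)) (i k : Fin n) :
    Lm h w i (cc h w k) = if k = i then JJ h w else 0 := by
  have e : Lm h w i (cc h w k) =
      ((FM (fun i : Fin n => sq h w i)).updateRow i (FM (fun i : Fin n => sq h w i) k)).det := rfl
  rw [e]
  by_cases hk : k = i
  · subst hk
    rw [Matrix.updateRow_eq_self, if_pos rfl]
    rfl
  · rw [if_neg hk]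
    exact Matrix.det_updateRow_eq_zero (M := FM (fun i : Fin n => sq h w i)) hk

/-- The data of step 3. -/
structure TD (h : Fin n → List (Fin n)) (w : List (Fin n)) (N : ℕ) (Θ : Lam n →+ ℤ) : Prop where
  /-- left side -/
  H : HL h w N
  /-- right side -/
  H' : HL (rv h) w.reverse N
  /-- nonnegative on the tokens -/
  nn : ∀ k < N, 0 ≤ Θ (par (sq h w k))
  /-- positive on the tokens from `n` on -/
  pos : ∀ k, n ≤ k → k < N → 0 < Θ (par (sq h w k))
  /-- zero on `e` -/
  ez0 : Θ (ee h w) = 0

/-- `J` is homogeneous of degree zero (`JJ_le`). -/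
theorem JJ_hom {h : Fin n → List (Fin n)} {w : List (Fin n)} {N : ℕ} {Θ : Lam n →+ ℤ}
    (T : TD h w N Θ) : Su {v | Θ v = 0} (JJ h w) := by
  intro v hv
  obtain ⟨h1, h2⟩ := JJ_le T.H T.H' T.nn v hv
  rw [T.ez0] at h2
  exact le_antisymm h2 h1

/-- The integers `μ k = ∑_i ez Θ (Lm i c_k)`. -/
noncomputable def mu (h : Fin n → List (Fin n)) (w : List (Fin n)) (Θ : Lam n →+ ℤ) (k : ℕ) : ℤ :=
  ∑ i : Fin n, ez Θ (Lm h w i (cc h w k))

/-- For `k < n`, `μ k = J(1) = det WM` (`Lm_tok`, `JJ_hom`, `pt_self`, `aug_JJ`). -/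
theorem mu_tok {h : Fin n → List (Fin n)} {w : List (Fin n)} {N : ℕ} {Θ : Lam n →+ ℤ}
    (T : TD h w N Θ) (k : ℕ) (hk : k < n) : mu h w Θ k = (WM h w).det := by
  unfold mu
  rw [Finset.sum_eq_single (⟨k, hk⟩ : Fin n)]
  · have e : Lm h w ⟨k, hk⟩ (cc h w k) = JJ h w := by
      have e1 := Lm_tok h w ⟨k, hk⟩ ⟨k, hk⟩
      rw [if_pos rfl] at e1
      exact e1
    rw [e]
    unfold ez
    rw [pt_self (JJ_hom T), aug_JJ]
  · intro i _ hi
    have e : Lm h w i (cc h w k) = 0 := by
      have e1 := Lm_tok h w i ⟨k, hk⟩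
      rw [if_neg (fun hc => hi hc.symm)] at e1
      exact e1
    rw [e]
    exact va3_zero Θ
  · intro hc
    exact absurd (Finset.mem_univ _) hc

open Classical in
/-- The initial tokens of degree zero. -/
noncomputable def zt (h : Fin n → List (Fin n)) (w : List (Fin n)) (Θ : Lam n →+ ℤ) (U : List ℕ) :
    List ℕ := U.takeWhile (fun i => decide (Θ (par (sq h w i)) = 0))

/-- A product of tokens with `Θ > 0` splits as (initial tokens of degree zero) followed by a token `t` of
positive degree. -/
theorem exists_split {h : Fin n → List (Fin n)} {w : List (Fin n)} {N : ℕ} {Θ : Lam n →+ ℤ}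
    (T : TD h w N Θ) (U : List ℕ) (hU : ∀ i ∈ U, i < N) (hpos : 0 < Θ (par (pw h w U))) :
    ∃ (t : ℕ) (V : List ℕ), U = zt h w Θ U ++ t :: V ∧ 0 < Θ (par (sq h w t)) ∧
      (∀ i ∈ zt h w Θ U, i < n ∧ Θ (par (sq h w i)) = 0) ∧ Θ (par (pw h w (zt h w Θ U))) = 0 := by
  classical
  induction U with
  | nil =>
    rw [pw_nil, par_nil, map_zero] at hpos
    exact absurd hpos (lt_irrefl _)
  | cons i U ih =>
    have hiN : i < N := hU i List.mem_cons_self
    have hUN : ∀ j ∈ U, j < N := fun j hj => hU j (List.mem_cons_of_mem i hj)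
    by_cases h0 : Θ (par (sq h w i)) = 0
    · have hz : zt h w Θ (i :: U) = i :: zt h w Θ U := by
        unfold zt
        rw [List.takeWhile_cons, if_pos (decide_eq_true h0)]
      have hp : 0 < Θ (par (pw h w U)) := by
        rw [pw_cons, par_append, map_add, h0, zero_add] at hpos
        exact hpos
      obtain ⟨t, V, h1, h2, h3, h4⟩ := ih hUN hp
      refine ⟨t, V, ?_, h2, ?_, ?_⟩
      · rw [hz, List.cons_append, ← h1]
      · intro j hj
        rw [hz] at hj
        rcases List.mem_cons.1 hj with hj | hj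
        · rw [hj]
          refine ⟨?_, h0⟩
          by_contra hc
          have h5 := T.pos i (not_lt.1 hc) hiN
          rw [h0] at h5
          exact lt_irrefl _ h5
        · exact h3 j hj
      · rw [hz, pw_cons, par_append, map_add, h0, h4, add_zero]
    · have hz : zt h w Θ (i :: U) = [] := by
        unfold zt
        rw [List.takeWhile_cons, if_neg (by rw [decide_eq_false h0]; exact Bool.false_ne_true)]
      refine ⟨i, U, ?_, ?_, ?_, ?_⟩
      · rw [hz, List.nil_append]
      · exact lt_of_le_of_ne (T.nn i hiN) (Ne.symm h0)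
      · intro j hj
        rw [hz] at hj
        exact absurd hj List.not_mem_nil
      · rw [hz, pw_nil, par_nil, map_zero]

end Cdm
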