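import Pool.Agent.H.MP_374efc_lc.CD.St5

/-!
# Step 3: the relation for mu
-/

namespace Cdm

variable {n : ℕ}

/-- Tokens at positions of positive degree. -/
theorem st5b_pos {h : Fin n → List (Fin n)} {w : List (Fin n)} {N : ℕ} {Θ : Lam n →+ ℤ}
    (hΘ : ∀ k < N, 0 ≤ Θ (par (sq h w k))) (U : List ℕ) (hU : ∀ i ∈ U, i < N) :
    ∀ u : List (Fin n), 0 < Θ (par u) →
      X (par u) • fox (pw h w U) ∈ LW {v | 0 < Θ v} {i | i < N} (cc h w) := by
  induction U with
  | nil =>
    intro u _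
    rw [pw_nil, fox_nil, smul_zero]
    exact AddSubgroup.zero_mem _
  | cons k U ih =>
    intro u hu
    have hkN : k < N := hU k List.mem_cons_self
    rw [pw_cons, fox_append, smul_add, smul_smul, ← X_add, ← par_append]
    refine AddSubgroup.add_mem _ ?_ ?_
    · exact LW_gen (i := k) hkN (v := par u) hu
    · refine ih (fun i hi => hU i (List.mem_cons_of_mem _ hi)) (u ++ sq h w k) ?_
      rw [par_append, map_add]
      exact add_pos_of_pos_of_nonneg hu (hΘ k hkN)

/-- Modulo the lattice of positive degree only the initial part counts: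
`fox (Z t V) ≡ fox (Z) + X(par Z) c_t`, if `Z` consists of tokens of degree zero and `t` has positive
degree (`fox_append`; the tokens of `V` sit at positions of positive degree). -/
theorem fox_split {h : Fin n → List (Fin n)} {w : List (Fin n)} {N : ℕ} {Θ : Lam n →+ ℤ}
    (T : TD h w N Θ) (Z : List ℕ) (t : ℕ) (V : List ℕ) (hV : ∀ i ∈ V, i < N)
    (hZ : Θ (par (pw h w Z)) = 0) (ht : 0 < Θ (par (sq h w t))) :
    fox (pw h w (Z ++ t :: V)) - (fox (pw h w Z) + X (par (pw h w Z)) • cc h w t)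
      ∈ LW {v | 0 < Θ v} {i | i < N} (cc h w) := by
  have e : fox (pw h w (Z ++ t :: V)) - (fox (pw h w Z) + X (par (pw h w Z)) • cc h w t) =
      X (par (pw h w Z ++ sq h w t)) • fox (pw h w V) := by
    rw [pw_append, pw_cons, fox_append, fox_append, smul_add, smul_smul, ← X_add, ← par_append]
    show _ - (fox (pw h w Z) + X (par (pw h w Z)) • fox (sq h w t)) = _
    abel
  rw [e]
  refine st5b_pos T.nn V hV _ ?_
  rw [par_append, map_add, hZ, zero_add]
  exact ht

theorem st5b_zero {h : Fin n → List (Fin n)} {w : List (Fin n)} {Θ : Lam n →+ ℤ}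
    (Z : List ℕ) (hZ : ∀ i ∈ Z, i < n ∧ Θ (par (sq h w i)) = 0) :
    ∀ u : List (Fin n), 0 ≤ Θ (par u) →
      X (par u) • fox (pw h w Z) ∈ LW {v | 0 ≤ Θ v} {i | i < n} (cc h w) := by
  induction Z with
  | nil =>
    intro u _
    rw [pw_nil, fox_nil, smul_zero]
    exact AddSubgroup.zero_mem _
  | cons k U ih =>
    intro u hu
    have hk := hZ k List.mem_cons_self
    rw [pw_cons, fox_append, smul_add, smul_smul, ← X_add, ← par_append]
    refine AddSubgroup.add_mem _ ?_ ?_
    · exact LW_gen (i := k) hk.1 (v := par u) hu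
    · refine ih (fun i hi => hZ i (List.mem_cons_of_mem _ hi)) (u ++ sq h w k) ?_
      rw [par_append, map_add, hk.2, add_zero]
      exact hu

/-- `fox (Z) ∈ LW {Θ ≥ 0} {i | i < n}` for `Z` a list of tokens of index `< n` and degree zero. -/
theorem fox_zero_tok {h : Fin n → List (Fin n)} {w : List (Fin n)} {Θ : Lam n →+ ℤ}
    (Z : List ℕ) (hZ : ∀ i ∈ Z, i < n ∧ Θ (par (sq h w i)) = 0) :
    fox (pw h w Z) ∈ LW {v | 0 ≤ Θ v} {i | i < n} (cc h w) := by
  have h1 := st5b_zero Z hZ [] (by rw [par_nil, map_zero])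
  rw [par_nil, X_zero, one_smul] at h1
  exact h1

theorem st5b_supp {h : Fin n → List (Fin n)} {w : List (Fin n)} {N : ℕ} {Θ : Lam n →+ ℤ}
    (T : TD h w N Θ) (i : Fin n) (k : ℕ) : Su {v | 0 ≤ Θ v} (Lm h w i (cc h w k)) :=
  JC_supp T.H T.nn k i

/-- `ez Θ (Lm i x) = 0` for `x` in the lattice of positive degree (`JC_supp`: `Lm i c_k` has exponents of
degree `≥ 0`). -/
theorem ez_Lm_pos {h : Fin n → List (Fin n)} {w : List (Fin n)} {N : ℕ} {Θ : Lam n →+ ℤ}
    (T : TD h w N Θ) (i : Fin n) (x : Fin n → RR n)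
    (hx : x ∈ LW {v | 0 < Θ v} {i | i < N} (cc h w)) : ez Θ (Lm h w i x) = 0 := by
  unfold LW at hx
  induction hx using AddSubgroup.closure_induction with
  | mem x hx =>
    obtain ⟨k, -, v, hv, rfl⟩ := hx
    rw [map_smul, smul_eq_mul]
    refine ez_pos (Su_mul ?_ (Su_X hv) (st5b_supp T i k))
    intro p hp q hq
    rw [Set.mem_ofPred_eq] at hp hq ⊢
    rw [map_add]
    exact add_pos_of_pos_of_nonneg hp hq
  | zero => rw [map_zero, va3_zero]
  | add x y _ _ ihx ihy => rw [map_add, ez_add, ihx, ihy, add_zero]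
  | neg x _ ihx => rw [map_neg, va3_neg, ihx, neg_zero]

theorem st5b_X {Θ : Lam n →+ ℤ} {v : Lam n} (hv : Θ v = 0) (f : RR n)
    (hf : Su {v | 0 ≤ Θ v} f) : ez Θ (X v * f) = ez Θ f := by
  have h1 : ez Θ (X v) = 1 := by
    unfold ez
    rw [pt_self (Su_X hv), aug_X]
  rw [ez_mul (Su_X (le_of_eq hv.symm)) hf, h1, one_mul]

theorem st5b_sum {h : Fin n → List (Fin n)} {w : List (Fin n)} {N : ℕ} {Θ : Lam n →+ ℤ}
    (T : TD h w N Θ) (Z : List ℕ) (hZ : ∀ i ∈ Z, i < n ∧ Θ (par (sq h w i)) = 0) :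
    ∀ u : List (Fin n), Θ (par u) = 0 →
      ∑ i : Fin n, ez Θ (Lm h w i (X (par u) • fox (pw h w Z))) = (WM h w).det * Z.length := by
  induction Z with
  | nil =>
    intro u _
    have h1 : ∀ i : Fin n, ez Θ (Lm h w i (X (par u) • fox (pw h w []))) = 0 := by
      intro i
      rw [pw_nil, fox_nil, smul_zero, map_zero, va3_zero]
    rw [Finset.sum_congr rfl fun i _ => h1 i]
    simp
  | cons k U ih =>
    intro u hu
    have hk := hZ k List.mem_cons_self
    have h2 : Θ (par (u ++ sq h w k)) = 0 := by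
      rw [par_append, map_add, hk.2, hu, add_zero]
    have h1 : ∀ i : Fin n, ez Θ (Lm h w i (X (par u) • fox (pw h w (k :: U)))) =
        ez Θ (Lm h w i (cc h w k)) +
          ez Θ (Lm h w i (X (par (u ++ sq h w k)) • fox (pw h w U))) := by
      intro i
      have e : X (par u) • fox (pw h w (k :: U)) =
          X (par u) • cc h w k + X (par (u ++ sq h w k)) • fox (pw h w U) := by
        rw [pw_cons, fox_append, smul_add, smul_smul, ← X_add, ← par_append]
        rfl
      rw [e, map_add, ez_add, map_smul, smul_eq_mul, st5b_X hu _ (st5b_supp T i k)]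
    rw [Finset.sum_congr rfl fun i _ => h1 i, Finset.sum_add_distrib,
      ih (fun i hi => hZ i (List.mem_cons_of_mem _ hi)) _ h2]
    have h3 : ∑ i : Fin n, ez Θ (Lm h w i (cc h w k)) = (WM h w).det := mu_tok T k hk.1
    rw [h3, List.length_cons]
    push_cast
    ring

theorem st5b_deg {h : Fin n → List (Fin n)} {w : List (Fin n)} {Θ : Lam n →+ ℤ}
    (Z : List ℕ) (hZ : ∀ i ∈ Z, i < n ∧ Θ (par (sq h w i)) = 0) : Θ (par (pw h w Z)) = 0 := by
  induction Z with
  | nil => rw [pw_nil, par_nil, map_zero]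
  | cons k U ih =>
    rw [pw_cons, par_append, map_add, (hZ k List.mem_cons_self).2,
      ih (fun i hi => hZ i (List.mem_cons_of_mem _ hi)), add_zero]

/-- For a token `k` of positive degree: `μ k = ε |Z| + μ t`, `ε = det WM`, if
`w_k V' = w_Z w_t V` (`fox_split` on both sides, `ez_Lm_pos`, `ez_mul`, `mu_tok`). -/
theorem mu_rel {h : Fin n → List (Fin n)} {w : List (Fin n)} {N : ℕ} {Θ : Lam n →+ ℤ}
    (T : TD h w N Θ) (k t : ℕ) (hk : k < N) (ht : t < N) (Z V V' : List ℕ)
    (hkp : 0 < Θ (par (sq h w k))) (htp : 0 < Θ (par (sq h w t)))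
    (hZ : ∀ i ∈ Z, i < n ∧ Θ (par (sq h w i)) = 0)
    (hV : ∀ i ∈ V, i < N) (hV' : ∀ i ∈ V', i < N)
    (he : pw h w (k :: V') = pw h w (Z ++ t :: V)) :
    mu h w Θ k = (WM h w).det * Z.length + mu h w Θ t := by
  have _ := hk
  have _ := ht
  have hZ0 := st5b_deg (h := h) (w := w) (Θ := Θ) Z hZ
  have h1 := fox_split T [] k V' hV' (by rw [pw_nil, par_nil, map_zero]) hkp
  rw [List.nil_append, pw_nil, fox_nil, par_nil, X_zero, one_smul, zero_add] at h1
  have h2 := fox_split T Z t V hV hZ0 htp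
  rw [← he] at h2
  have key : ∀ i : Fin n, ez Θ (Lm h w i (cc h w k)) =
      ez Θ (Lm h w i (fox (pw h w Z))) + ez Θ (Lm h w i (cc h w t)) := by
    intro i
    have h3 := ez_Lm_pos T i _ h1
    have h4 := ez_Lm_pos T i _ h2
    have h5 : ez Θ (Lm h w i (fox (pw h w (k :: V')))) = ez Θ (Lm h w i (cc h w k)) := by
      have e : fox (pw h w (k :: V')) = (fox (pw h w (k :: V')) - cc h w k) + cc h w k := by abel
      rw [e, map_add, ez_add, h3, zero_add]
    have h6 : ez Θ (Lm h w i (fox (pw h w (k :: V')))) =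
        ez Θ (Lm h w i (fox (pw h w Z))) + ez Θ (Lm h w i (cc h w t)) := by
      have e : fox (pw h w (k :: V')) = (fox (pw h w (k :: V')) -
          (fox (pw h w Z) + X (par (pw h w Z)) • cc h w t)) +
          (fox (pw h w Z) + X (par (pw h w Z)) • cc h w t) := by abel
      rw [e, map_add, ez_add, h4, zero_add, map_add, ez_add, map_smul, smul_eq_mul,
        st5b_X hZ0 _ (st5b_supp T i t)]
    rw [← h5, h6]
  unfold mu
  rw [Finset.sum_congr rfl fun i _ => key i, Finset.sum_add_distrib]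
  congr 1
  have h7 := st5b_sum T Z hZ [] (by rw [par_nil, map_zero])
  rw [par_nil, X_zero] at h7
  rw [← h7]
  refine Finset.sum_congr rfl fun i _ => ?_
  rw [one_smul]

end Cdm
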