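import Pool.Agent.H.MP_374efc_lc.CD.St5b

/-!
# Step 3: the main induction
-/

namespace Cdm

variable {n : ℕ}

theorem st5c_nn {h : Fin n → List (Fin n)} {w : List (Fin n)} {N : ℕ} {Θ : Lam n →+ ℤ}
    (T : TD h w N Θ) (V : List ℕ) (hV : ∀ i ∈ V, i < N) : 0 ≤ Θ (par (pw h w V)) := by
  induction V with
  | nil =>
    rw [pw_nil, par_nil, map_zero]
  | cons k V ih =>
    rw [pw_cons, par_append, map_add]
    have h1 := T.nn k (hV k (List.mem_cons_self ..))
    have h2 := ih fun i hi => hV i (List.mem_cons_of_mem _ hi)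
    omega

/-- multiplication by a monomial of degree zero -/
theorem st5c_smul {N : ℕ} {Θ : Lam n →+ ℤ} {c : ℕ → (Fin n → RR n)} {v : Lam n} (hv : Θ v = 0)
    {x : Fin n → RR n}
    (hx : x ∈ LW {v | 0 ≤ Θ v} {i | i < n} c ⊔ LW {v | 0 < Θ v} {i | i < N} c) :
    X v • x ∈ LW {v | 0 ≤ Θ v} {i | i < n} c ⊔ LW {v | 0 < Θ v} {i | i < N} c := by
  obtain ⟨a, ha, b, hb, rfl⟩ := AddSubgroup.mem_sup.1 hx
  rw [smul_add]
  have hX : Su {v : Lam n | Θ v = 0} (X v) := Su_X hv
  refine AddSubgroup.add_mem_sup (LW_smul ?_ hX ha) (LW_smul ?_ hX hb)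
  · intro u hu p hp
    have hu' : Θ u = 0 := hu
    have hp' : 0 ≤ Θ p := hp
    show 0 ≤ Θ (u + p)
    rw [map_add]
    omega
  · intro u hu p hp
    have hu' : Θ u = 0 := hu
    have hp' : 0 < Θ p := hp
    show 0 < Θ (u + p)
    rw [map_add]
    omega

theorem st5c_base {h : Fin n → List (Fin n)} {w : List (Fin n)} {N : ℕ} {Θ : Lam n →+ ℤ}
    {k : ℕ} (hk : k < n) :
    cc h w k ∈ LW {v | 0 ≤ Θ v} {i | i < n} (cc h w) ⊔ LW {v | 0 < Θ v} {i | i < N} (cc h w) := by
  have h1 : X (0 : Lam n) • cc h w k ∈ LW {v : Lam n | 0 ≤ Θ v} {i | i < n} (cc h w) :=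
    LW_gen (i := k) hk (by
      show 0 ≤ Θ 0
      rw [map_zero])
  rw [X_zero, one_smul] at h1
  exact AddSubgroup.mem_sup_left h1

/-- All `c_k`, `k < N`, are in `LW {Θ ≥ 0} {i | i < n} ⊔ LW {Θ > 0} {i | i < N}`.

Proof. Let `ε = det WM` (`= ±1`), `m k = ε μ k + C` with `C` so large that `m k ≥ 0` for all `k < N`.
Well-founded induction on `(m k, r k)` lexicographically, `p`, `r` from `LGood`. For `k < n` clear. For
`n ≤ k < N` there is a relation `w_k V' = w_(p k) U`; let `Z`, `t` be as in `exists_split` for `p k :: U`. By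
`fox_split` (for both sides) `c_k ≡ fox Z + X(par Z) c_t` modulo `LW {Θ > 0}`, and `fox Z` is in the first
lattice (`fox_zero_tok`). If `t < n` done. Else, by `mu_rel`, `m k = |Z| + m t` (`ε ε = 1`): if `Z` is nonempty
then `m t < m k`; if `Z` is empty then `t = p k`, `m t = m k` and `r t < r k`. -/
theorem step3a {h : Fin n → List (Fin n)} {w : List (Fin n)} {N : ℕ} {Θ : Lam n →+ ℤ}
    (T : TD h w N Θ) (k : ℕ) (hk : k < N) :
    cc h w k ∈ LW {v | 0 ≤ Θ v} {i | i < n} (cc h w) ⊔ LW {v | 0 < Θ v} {i | i < N} (cc h w) := by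
  obtain ⟨ε, hε⟩ : ∃ ε, ε = (WM h w).det := ⟨_, rfl⟩
  have hε1 : ε = 1 ∨ ε = -1 := by
    rw [hε]
    exact Int.isUnit_iff.1 T.H.uni
  have hεε : ε * ε = 1 := by
    rcases hε1 with h1 | h1 <;> rw [h1] <;> norm_num
  obtain ⟨C, hC⟩ : ∃ C : ℤ, ∀ t < N, 0 ≤ ε * mu h w Θ t + C := by
    refine ⟨∑ t ∈ Finset.range N, |mu h w Θ t|, fun t ht => ?_⟩
    have h1 : |mu h w Θ t| ≤ ∑ t ∈ Finset.range N, |mu h w Θ t| :=
      Finset.single_le_sum (f := fun t => |mu h w Θ t|) (fun i _ => abs_nonneg _)
        (Finset.mem_range.2 ht)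
    have h2 : -|mu h w Θ t| ≤ ε * mu h w Θ t := by
      rcases hε1 with h3 | h3
      · rw [h3, one_mul]
        exact neg_abs_le _
      · rw [h3, neg_one_mul]
        have := le_abs_self (mu h w Θ t)
        omega
    omega
  obtain ⟨p, r, hgood⟩ := T.H.good
  have key : ∀ A B : ℕ, ∀ k < N, (ε * mu h w Θ k + C).toNat = A → r k = B →
      cc h w k ∈ LW {v | 0 ≤ Θ v} {i | i < n} (cc h w) ⊔
        LW {v | 0 < Θ v} {i | i < N} (cc h w) := by
    intro A
    induction A using Nat.strong_induction_on with
    | _ A ihA =>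
      intro B
      induction B using Nat.strong_induction_on with
      | _ B ihB =>
        intro k hk hA hB
        by_cases hkn : k < n
        · exact st5c_base hkn
        · obtain ⟨hp, hr, U, V, hU, hV, he⟩ := hgood k (not_lt.1 hkn) hk
          have hkp : 0 < Θ (par (sq h w k)) := T.pos k (not_lt.1 hkn) hk
          have hU' : ∀ i ∈ p k :: U, i < N := by
            intro i hi
            rcases List.mem_cons.1 hi with rfl | hi
            · exact hp
            · exact hU i hi
          have hpos : 0 < Θ (par (pw h w (p k :: U))) := by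
            rw [← he, pw_cons, par_append, map_add]
            have := st5c_nn T V hV
            omega
          obtain ⟨t, V2, hsp, htp, hZ, hZ0⟩ := exists_split T (p k :: U) hU' hpos
          obtain ⟨Z, hZe⟩ : ∃ Z, Z = zt h w Θ (p k :: U) := ⟨_, rfl⟩
          rw [← hZe] at hsp hZ hZ0
          have htN : t < N := hU' t (by
            rw [hsp]
            exact List.mem_append_right _ (List.mem_cons_self ..))
          have hV2 : ∀ i ∈ V2, i < N := fun i hi => hU' i (by
            rw [hsp]
            exact List.mem_append_right _ (List.mem_cons_of_mem _ hi))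
          -- the congruences
          have c1 := fox_split T [] k V hV (by rw [pw_nil, par_nil, map_zero]) hkp
          have c2 := fox_split T Z t V2 hV2 hZ0 htp
          rw [List.nil_append, pw_nil, fox_nil, par_nil, X_zero, one_smul, zero_add] at c1
          rw [he, hsp] at c1
          have c3 : fox (pw h w Z) ∈ LW {v | 0 ≤ Θ v} {i | i < n} (cc h w) := fox_zero_tok Z hZ
          have hct : cc h w t ∈ LW {v | 0 ≤ Θ v} {i | i < n} (cc h w) ⊔
              LW {v | 0 < Θ v} {i | i < N} (cc h w) := by
            by_cases htn : t < n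
            · exact st5c_base htn
            · have hmu := mu_rel T k t hk htN Z V2 V hkp htp hZ hV2 hV (by rw [he, hsp])
              rw [← hε] at hmu
              have hm : ε * mu h w Θ k = (Z.length : ℤ) + ε * mu h w Θ t := by
                rw [hmu, mul_add, ← mul_assoc, hεε, one_mul]
              have hCt := hC t htN
              by_cases hZl : Z = []
              · subst hZl
                have htk : p k = t := by
                  rw [List.nil_append] at hsp
                  exact (List.cons_eq_cons.1 hsp).1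
                rw [List.length_nil, Nat.cast_zero, zero_add] at hm
                exact ihB (r t) (by rw [← hB, ← htk]; exact hr) t htN (by rw [← hm]; exact hA) rfl
              · have hl : 0 < Z.length := List.length_pos_iff.2 hZl
                refine ihA _ ?_ (r t) t htN rfl rfl
                rw [← hA]
                omega
          have hres : cc h w k = (fox (pw h w Z) + X (par (pw h w Z)) • cc h w t) +
              ((fox (pw h w (Z ++ t :: V2)) - (fox (pw h w Z) + X (par (pw h w Z)) • cc h w t)) -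
                (fox (pw h w (Z ++ t :: V2)) - cc h w k)) := by
            abel
          rw [hres]
          refine AddSubgroup.add_mem _ (AddSubgroup.add_mem _ (AddSubgroup.mem_sup_left c3)
            (st5c_smul hZ0 hct)) ?_
          exact AddSubgroup.mem_sup_right (AddSubgroup.sub_mem _ c2 c1)
  exact key _ _ k hk rfl rfl

end Cdm
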