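import Mathlib

/-!
# Jacobi formula
-/

namespace Cdm

open PowerSeries

variable {n : ℕ}

theorem tr1_derivative_det (M : Matrix (Fin n) (Fin n) (Polynomial ℤ)) :
    Polynomial.derivative M.det
      = (M.adjugate * Matrix.of fun i j => Polynomial.derivative (M i j)).trace := by
  have h1 : Polynomial.derivative M.det
      = ∑ i, (M.updateCol i (fun j => Polynomial.derivative (M j i))).det := by
    rw [Matrix.det_apply, map_sum]
    simp_rw [Matrix.det_apply]
    rw [Finset.sum_comm]
    refine Finset.sum_congr rfl fun σ _ => ?_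
    rw [← Finset.smul_sum, Units.smul_def, Polynomial.derivative_smul]
    rw [Units.smul_def, Polynomial.derivative_prod_finset]
    refine congrArg _ (Finset.sum_congr rfl fun i hi => ?_)
    rw [← Finset.prod_erase_mul _ _ hi]
    rw [Matrix.updateCol_apply, if_pos rfl]
    refine congrArg (· * _) (Finset.prod_congr rfl fun j hj => ?_)
    rw [Matrix.updateCol_apply, if_neg (Finset.ne_of_mem_erase hj)]
  rw [h1, Matrix.trace]
  refine Finset.sum_congr rfl fun i _ => ?_
  rw [← Matrix.cramer_apply, Matrix.cramer_eq_adjugate_mulVec, Matrix.diag_apply,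
    Matrix.mul_apply]
  rfl

/-- the generating matrix `∑ X^k A^k` -/
noncomputable def tr1_G (A : Matrix (Fin n) (Fin n) ℤ) : Matrix (Fin n) (Fin n) (PowerSeries ℤ) :=
  Matrix.of fun i j => PowerSeries.mk fun k => (A ^ k) i j

theorem tr1_G_mul (A : Matrix (Fin n) (Fin n) ℤ) :
    (1 - (PowerSeries.X : PowerSeries ℤ) • A.map (PowerSeries.C (R := ℤ))) * tr1_G A = 1 := by
  rw [sub_mul, one_mul, Matrix.smul_mul]
  ext i j k
  rw [Matrix.sub_apply, Matrix.smul_apply, smul_eq_mul, Matrix.mul_apply, map_sub]
  rcases k with _ | k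
  · rw [PowerSeries.coeff_zero_X_mul, sub_zero, tr1_G, Matrix.of_apply, PowerSeries.coeff_mk,
      pow_zero]
    by_cases hij : i = j
    · subst hij
      simp
    · rw [Matrix.one_apply_ne hij, Matrix.one_apply_ne hij]
      simp
  · rw [PowerSeries.coeff_succ_X_mul, map_sum]
    have h1 : (PowerSeries.coeff (k + 1)) ((1 : Matrix (Fin n) (Fin n) (PowerSeries ℤ)) i j)
        = 0 := by
      by_cases hij : i = j
      · subst hij
        rw [Matrix.one_apply_eq, PowerSeries.coeff_one, if_neg (Nat.succ_ne_zero k)]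
      · rw [Matrix.one_apply_ne hij, map_zero]
    rw [h1, tr1_G, Matrix.of_apply, PowerSeries.coeff_mk, pow_succ', Matrix.mul_apply, sub_eq_zero]
    refine Finset.sum_congr rfl fun l _ => ?_
    rw [Matrix.map_apply, PowerSeries.coeff_C_mul, Matrix.of_apply, PowerSeries.coeff_mk]

/-- Jacobi's formula for `f = det (1 - X A)`: as power series `- X f' = f * ∑_(k ≥ 1) tr (A^k) X^k`.

Proof. In `ℤ⟦X⟧` let `G = ∑ X^k A^k`, the inverse matrix of `1 - X A`. Over `ℤ⟦X⟧[Y]`:
`det (1 - (X + Y) A) = det (1 - X A) * det (1 - Y G A)`; compare the coefficients of `Y`: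
`f' = - f * tr (G A)` (`Matrix.derivative_det_one_add_X_smul`, or expand the determinant; any other proof of
Jacobi's formula `(det M)' = tr (adj M * M')` is fine, for example `Matrix.det_apply` and
`Polynomial.derivative_prod`). -/
theorem jacobi (A : Matrix (Fin n) (Fin n) ℤ) :
    -(PowerSeries.X * (Polynomial.derivative A.charpolyRev : PowerSeries ℤ))
      = (A.charpolyRev : PowerSeries ℤ)
        * PowerSeries.mk (fun k => if k = 0 then 0 else (A ^ k).trace) := by
  classical
  set M : Matrix (Fin n) (Fin n) (Polynomial ℤ) :=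
    1 - (Polynomial.X : Polynomial ℤ) • A.map Polynomial.C with hM
  set φ : Polynomial ℤ →+* PowerSeries ℤ := Polynomial.coeToPowerSeries.ringHom with hφ
  have hf : A.charpolyRev = M.det := rfl
  have hφc : ∀ p : Polynomial ℤ, (p : PowerSeries ℤ) = φ p := fun p => rfl
  have hφM : φ.mapMatrix M
      = 1 - (PowerSeries.X : PowerSeries ℤ) • A.map (PowerSeries.C (R := ℤ)) := by
    rw [hM, map_sub, map_one]
    refine congrArg (1 - ·) ?_
    ext1 i j
    rw [RingHom.mapMatrix_apply, Matrix.map_apply, Matrix.smul_apply, Matrix.smul_apply,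
      smul_eq_mul, smul_eq_mul, map_mul, Matrix.map_apply, Matrix.map_apply, ← hφc, ← hφc,
      Polynomial.coe_X, Polynomial.coe_C]
  have hadj : φ.mapMatrix M.adjugate = φ M.det • tr1_G A := by
    have h1 : (φ.mapMatrix M).adjugate * (φ.mapMatrix M * tr1_G A) = (φ.mapMatrix M).adjugate := by
      rw [hφM, tr1_G_mul, mul_one]
    rw [← mul_assoc, Matrix.adjugate_mul, Matrix.smul_mul, one_mul] at h1
    rw [RingHom.map_adjugate, ← h1, RingHom.map_det]
  have hder : (Matrix.of fun i j => Polynomial.derivative (M i j))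
      = -(A.map Polynomial.C) := by
    ext1 i j
    rw [Matrix.of_apply, Matrix.neg_apply, Matrix.map_apply, hM, Matrix.sub_apply,
      Matrix.smul_apply, smul_eq_mul, Matrix.map_apply, Polynomial.derivative_sub,
      Polynomial.derivative_mul, Polynomial.derivative_X, Polynomial.derivative_C]
    by_cases hij : i = j
    · subst hij
      rw [Matrix.one_apply_eq, Polynomial.derivative_one]
      ring
    · rw [Matrix.one_apply_ne hij, Polynomial.derivative_zero]
      ring
  have hd : φ (Polynomial.derivative M.det)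
      = -(φ M.det * (tr1_G A * A.map (PowerSeries.C (R := ℤ))).trace) := by
    have h2 : φ (Polynomial.derivative M.det) = -(φ.mapMatrix M.adjugate
        * φ.mapMatrix (A.map Polynomial.C)).trace := by
      rw [tr1_derivative_det, hder, mul_neg, Matrix.trace_neg, map_neg, ← map_mul]
      refine congrArg (- ·) ?_
      rw [Matrix.trace, Matrix.trace, map_sum]
      rfl
    have h3 : φ.mapMatrix (A.map Polynomial.C) = A.map (PowerSeries.C (R := ℤ)) := by
      ext1 i j
      rw [RingHom.mapMatrix_apply, Matrix.map_apply, Matrix.map_apply, Matrix.map_apply, ← hφc,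
        Polynomial.coe_C]
    rw [h2, h3, hadj, Matrix.smul_mul, Matrix.trace_smul, smul_eq_mul]
  rw [hf, hφc, hφc, hd, mul_neg, neg_neg, mul_left_comm]
  refine congrArg (φ M.det * ·) ?_
  ext k
  rcases k with _ | k
  · rw [PowerSeries.coeff_zero_X_mul, PowerSeries.coeff_mk, if_pos rfl]
  · rw [PowerSeries.coeff_succ_X_mul, PowerSeries.coeff_mk, if_neg (Nat.succ_ne_zero k),
      pow_succ, Matrix.trace, Matrix.trace, map_sum]
    refine Finset.sum_congr rfl fun i _ => ?_
    rw [Matrix.diag_apply, Matrix.diag_apply, Matrix.mul_apply, Matrix.mul_apply, map_sum]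
    refine Finset.sum_congr rfl fun j _ => ?_
    rw [Matrix.map_apply, PowerSeries.coeff_mul_C, tr1_G, Matrix.of_apply, PowerSeries.coeff_mk]

end Cdm
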