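import Pool.Agent.H.MP_374efc_lc.CD.Va1

/-!
# The part of degree zero, the evaluation at one
-/

namespace Cdm

variable {n : ℕ}

open Classical in
/-- The part of `f` of `θ`-degree zero. -/
noncomputable def pt (θ : Lam n →+ ℤ) (f : RR n) : RR n :=
  AddMonoidAlgebra.ofCoeff (f.coeff.filter (fun v => θ v = 0))

theorem pt_coeff (θ : Lam n →+ ℤ) (f : RR n) (v : Lam n) :
    (pt θ f).coeff v = if θ v = 0 then f.coeff v else 0 := by
  simp [pt, Finsupp.filter_apply]

theorem va2_ext {f g : RR n} (h : ∀ v, f.coeff v = g.coeff v) : f = g :=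
  AddMonoidAlgebra.coeff_inj.1 (Finsupp.ext h)

theorem pt_add (θ : Lam n →+ ℤ) (f g : RR n) : pt θ (f + g) = pt θ f + pt θ g := by
  refine va2_ext fun v => ?_
  rw [AddMonoidAlgebra.coeff_add, Finsupp.add_apply, pt_coeff, pt_coeff, pt_coeff,
    AddMonoidAlgebra.coeff_add, Finsupp.add_apply]
  split_ifs <;> simp

/-- Elements with exponents of degree zero only. -/
theorem pt_self {θ : Lam n →+ ℤ} {f : RR n} (hf : Su {v | θ v = 0} f) : pt θ f = f := by
  refine va2_ext fun v => ?_
  rw [pt_coeff]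
  split_ifs with h
  · rfl
  · by_contra h1
    exact h (hf v (fun h2 => h1 h2.symm))

theorem pt_one (θ : Lam n →+ ℤ) : pt θ (1 : RR n) = 1 :=
  pt_self (Su_one (map_zero θ))

theorem pt_pos {θ : Lam n →+ ℤ} {f : RR n} (hf : Su {v | 0 < θ v} f) : pt θ f = 0 := by
  refine va2_ext fun v => ?_
  rw [pt_coeff]
  split_ifs with h
  · by_contra h1
    have h2 := hf v h1
    rw [Set.mem_ofPred_eq, h] at h2
    exact lt_irrefl 0 h2
  · rfl

theorem va2_sub_coeff (f g : RR n) (v : Lam n) : (f - g).coeff v = f.coeff v - g.coeff v := by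
  have h : f - g + g = f := sub_add_cancel f g
  have h1 : (f - g + g).coeff v = f.coeff v := by rw [h]
  rw [AddMonoidAlgebra.coeff_add, Finsupp.add_apply] at h1
  omega

theorem va2_pt_supp (θ : Lam n →+ ℤ) (f : RR n) : Su {v | θ v = 0} (pt θ f) := by
  intro v hv
  rw [pt_coeff] at hv
  by_contra h
  exact hv (if_neg h)

theorem va2_rest {θ : Lam n →+ ℤ} {f : RR n} (hf : Su {v | 0 ≤ θ v} f) :
    Su {v | 0 < θ v} (f - pt θ f) := by
  intro v hv
  rw [va2_sub_coeff, pt_coeff] at hv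
  split_ifs at hv with h
  · exact absurd (sub_self _) hv
  · rw [sub_zero] at hv
    exact lt_of_le_of_ne (hf v hv) (fun h1 => h h1.symm)

/-- Write `f = pt f + f₁` with `f₁` of positive degree, same for `g`, and multiply out. -/
theorem pt_mul {θ : Lam n →+ ℤ} {f g : RR n} (hf : Su {v | 0 ≤ θ v} f) (hg : Su {v | 0 ≤ θ v} g) :
    pt θ (f * g) = pt θ f * pt θ g := by
  have h1 : f * g = pt θ f * pt θ g + (pt θ f * (g - pt θ g) + (f - pt θ f) * g) := by ring
  have h2 : Su {v | θ v = 0} (pt θ f * pt θ g) := by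
    refine Su_mul ?_ (va2_pt_supp θ f) (va2_pt_supp θ g)
    intro p hp q hq
    rw [Set.mem_ofPred_eq] at hp hq ⊢
    rw [map_add, hp, hq, add_zero]
  have h3 : Su {v | 0 < θ v} (pt θ f * (g - pt θ g) + (f - pt θ f) * g) := by
    refine Su_add (Su_mul ?_ (va2_pt_supp θ f) (va2_rest hg)) (Su_mul ?_ (va2_rest hf) hg)
    · intro p hp q hq
      rw [Set.mem_ofPred_eq] at hp hq ⊢
      rw [map_add, hp, zero_add]
      exact hq
    · intro p hp q hq
      rw [Set.mem_ofPred_eq] at hp hq ⊢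
      rw [map_add]
      omega
  rw [h1, pt_add, pt_self h2, pt_pos h3, add_zero]

/-- The evaluation at one (sum of the coefficients), a ring homomorphism. -/
noncomputable def aug : RR n →+* ℤ :=
  (AddMonoidAlgebra.lift ℤ ℤ (Lam n) (1 : Multiplicative (Lam n) →* ℤ)).toRingHom

theorem aug_X (v : Lam n) : aug (X v) = 1 := by
  simp [aug, X]

end Cdm
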